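import Mathlib

/-!
# Chain minors and `∃∀`-DNF
-/

namespace Pool.Agent.H596R2.Chain

/-- Chain minor for strict orders `r` (the small poset `P`) and `s` (the big poset `Q`): some map
`f : Q → P` maps, for every chain `c` of `P`, some chain of `Q` onto `c`, in order. -/
def CM {α β : Type} (r : α → α → Prop) (s : β → β → Prop) : Prop :=
  ∃ f : β → α, ∀ l : List α, l.Pairwise r → ∃ l' : List β, l'.Pairwise s ∧ l'.map f = l

variable {m N T s : ℕ}

/-- Elements of `P`: variable, side, and number of the element (`none` for the single element of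
that side). -/
abbrev PE (m N : ℕ) : Type := Fin m × Bool × Option (Fin N)

/-- Whether the element is in the upper part of its gadget. -/
def up {κ : Type} (x : Bool × Option κ) : Bool := x.1 == x.2.isSome

/-- The strict order of `P`. -/
def ltP (x y : PE m N) : Prop :=
  x.1 < y.1 ∨ (x.1 = y.1 ∧ x.2.1 = y.2.1 ∧ up x.2 = false ∧ up y.2 = true)

/-- Elements of `Q`: component (a term, or a free component), and element. -/
abbrev QE0 (m N T s : ℕ) : Type := (Fin T ⊕ Fin s) × PE m N

/-- Whether the element is in the choice gadget of a free component. -/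
def special (c : Fin T ⊕ Fin s) (v : Fin m) : Prop :=
  match c with
  | Sum.inl _ => False
  | Sum.inr j => j.1 = v.1

instance (c : Fin T ⊕ Fin s) (v : Fin m) : Decidable (special c v) := by
  unfold special; split <;> infer_instance

/-- The elements which are really present. -/
def valid (lit : Fin T → Bool → Fin m → Prop) (z : QE0 m N T s) : Prop :=
  match z.1 with
  | Sum.inl t => ¬ lit t (!z.2.2.1) z.2.1
  | Sum.inr j => j.1 = z.2.1.1 → z.2.2.2.isSome = true

/-- Whether the element is in the upper part of its gadget. -/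
def upQ (z : QE0 m N T s) : Bool := if special z.1 z.2.1 then z.2.2.1 else up z.2.2

/-- Whether two elements of the same gadget belong to the same part. -/
def mt (z z' : QE0 m N T s) : Prop :=
  if special z.1 z.2.1 then z.2.2.2 = z'.2.2.2 else z.2.2.1 = z'.2.2.1

/-- The strict order of `Q`. -/
def ltQ0 (z z' : QE0 m N T s) : Prop :=
  z.1 = z'.1 ∧ (z.2.1 < z'.2.1 ∨ (z.2.1 = z'.2.1 ∧ mt z z' ∧ upQ z = false ∧ upQ z' = true))

/-- The elements of `Q`. -/
abbrev QE (N s : ℕ) (lit : Fin T → Bool → Fin m → Prop) : Type :=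
  {z : QE0 m N T s // valid lit z}

/-- The strict order of `Q`. -/
def ltQ {lit : Fin T → Bool → Fin m → Prop} (z z' : QE N s lit) : Prop := ltQ0 z.1 z'.1

/-- The element of a full chain for variable `v` in part `p`. -/
def ee (z : Fin m → Bool) (κ : Fin m → Fin N) (v : Fin m) (p : Bool) : PE m N :=
  (v, z v, if p = z v then some (κ v) else none)

@[simp] theorem ee_fst (z : Fin m → Bool) (κ : Fin m → Fin N) (v : Fin m) (p : Bool) :
    (ee z κ v p).1 = v := rfl

@[simp] theorem ee_side (z : Fin m → Bool) (κ : Fin m → Fin N) (v : Fin m) (p : Bool) :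
    (ee z κ v p).2.1 = z v := rfl

@[simp] theorem up_ee (z : Fin m → Bool) (κ : Fin m → Fin N) (v : Fin m) (p : Bool) :
    up (ee z κ v p).2 = p := by
  unfold ee up
  by_cases h : p = z v
  · simp [h]
  · simp only [h, if_false]
    cases p <;> cases hz : z v <;> simp_all

/-- The variable of position `i`. -/
def pv (i : Fin (2 * m)) : Fin m := ⟨i.1 / 2, by omega⟩

/-- The part of position `i`. -/
def pp (i : Fin (2 * m)) : Bool := decide (i.1 % 2 = 1)

/-- The full chain. -/
def full (z : Fin m → Bool) (κ : Fin m → Fin N) : List (PE m N) :=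
  List.ofFn (fun i : Fin (2 * m) => ee z κ (pv i) (pp i))

theorem pos_cases {i j : Fin (2 * m)} (h : i < j) :
    pv i < pv j ∨ (pv i = pv j ∧ pp i = false ∧ pp j = true) := by
  have h : i.1 < j.1 := h
  by_cases h1 : i.1 / 2 < j.1 / 2
  · exact Or.inl h1
  · right
    refine ⟨Fin.ext (by simp only [pv]; omega), ?_, ?_⟩
    · unfold pp; rw [decide_eq_false_iff_not]; omega
    · unfold pp; rw [decide_eq_true_iff]; omega

theorem full_pairwise (z : Fin m → Bool) (κ : Fin m → Fin N) : (full z κ).Pairwise ltP := by
  unfold full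
  rw [List.pairwise_ofFn]
  intro i j hij
  rcases pos_cases hij with h | ⟨h1, h2, h3⟩
  · exact Or.inl h
  · refine Or.inr ⟨h1, ?_, ?_, ?_⟩
    · simp [h1]
    · simp [h2]
    · simp [h3]

theorem exists_pos (v : Fin m) (p : Bool) : ∃ i : Fin (2 * m), pv i = v ∧ pp i = p := by
  cases p
  · refine ⟨⟨2 * v.1, by omega⟩, Fin.ext (by simp only [pv]; omega), ?_⟩
    unfold pp; rw [decide_eq_false_iff_not]; simp only; omega
  · refine ⟨⟨2 * v.1 + 1, by omega⟩, Fin.ext (by simp only [pv]; omega), ?_⟩
    unfold pp; rw [decide_eq_true_iff]; simp only; omega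

theorem ltP_irrefl (x : PE m N) : ¬ ltP x x := by
  rintro (h | ⟨_, _, h1, h2⟩)
  · exact lt_irrefl _ h
  · rw [h1] at h2; simp at h2

theorem ltP_asymm {x y : PE m N} (h : ltP x y) (h' : ltP y x) : False := by
  rcases h with h | ⟨h1, h2, h3, h4⟩
  · rcases h' with h' | h'
    · exact lt_asymm h h'
    · exact absurd h'.1 (ne_of_gt h)
  · rcases h' with h' | ⟨_, _, h5, _⟩
    · exact absurd h1 (ne_of_gt h')
    · rw [h4] at h5; simp at h5

/-- Every chain of `P` is contained in a full chain. -/
theorem chain_sublist_full (hN : 0 < N) {l : List (PE m N)} (hl : l.Pairwise ltP) :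
    ∃ (z : Fin m → Bool) (κ : Fin m → Fin N), l.Sublist (full z κ) := by
  classical
  have hcomp : ∀ x ∈ l, ∀ y ∈ l, x = y ∨ ltP x y ∨ ltP y x := by
    intro x hx y hy
    obtain ⟨i, hi, rfl⟩ := List.getElem_of_mem hx
    obtain ⟨j, hj, rfl⟩ := List.getElem_of_mem hy
    rw [List.pairwise_iff_getElem] at hl
    rcases lt_trichotomy i j with h | h | h
    · exact Or.inr (Or.inl (hl i j hi hj h))
    · subst h; exact Or.inl rfl
    · exact Or.inr (Or.inr (hl j i hj hi h))
  have hside : ∀ x ∈ l, ∀ y ∈ l, x.1 = y.1 → x.2.1 = y.2.1 := by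
    intro x hx y hy hxy
    rcases hcomp x hx y hy with h | (h | h) | (h | h)
    · rw [h]
    · exact absurd hxy (ne_of_lt h)
    · exact h.2.1
    · exact absurd hxy.symm (ne_of_lt h)
    · exact h.2.1.symm
  have hup : ∀ x ∈ l, ∀ y ∈ l, x.1 = y.1 → up x.2 = up y.2 → x = y := by
    intro x hx y hy hxy hu
    rcases hcomp x hx y hy with h | (h | h) | (h | h)
    · exact h
    · exact absurd hxy (ne_of_lt h)
    · rw [h.2.2.1, h.2.2.2] at hu; simp at hu
    · exact absurd hxy.symm (ne_of_lt h)
    · rw [h.2.2.1, h.2.2.2] at hu; simp at hu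
  let z : Fin m → Bool := fun v => if h : ∃ x ∈ l, x.1 = v then h.choose.2.1 else false
  let κ : Fin m → Fin N := fun v => if h : ∃ x ∈ l, x.1 = v ∧ x.2.2.isSome = true then
    (h.choose.2.2).getD ⟨0, hN⟩ else ⟨0, hN⟩
  have hz : ∀ x ∈ l, z x.1 = x.2.1 := by
    intro x hx
    have h : ∃ y ∈ l, y.1 = x.1 := ⟨x, hx, rfl⟩
    simp only [z, dif_pos h]
    exact hside _ h.choose_spec.1 _ hx h.choose_spec.2
  have hκ : ∀ x ∈ l, ∀ k, x.2.2 = some k → κ x.1 = k := by
    intro x hx k hk
    have h : ∃ y ∈ l, y.1 = x.1 ∧ y.2.2.isSome = true := ⟨x, hx, rfl, by rw [hk]; rfl⟩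
    simp only [κ, dif_pos h]
    have h1 := h.choose_spec
    have h2 : h.choose = x := by
      apply hup _ h1.1 _ hx h1.2.1
      unfold up
      rw [hside _ h1.1 _ hx h1.2.1, h1.2.2, hk]
      rfl
    rw [h2, hk]
    rfl
  have hee : ∀ x ∈ l, x = ee z κ x.1 (up x.2) := by
    rintro ⟨v, σ, o⟩ hx
    have h1 : z v = σ := hz _ hx
    unfold ee up
    rw [h1]
    cases o with
    | none => cases σ <;> simp
    | some k =>
      have h2 : κ v = k := hκ _ hx k rfl
      rw [h2]
      cases σ <;> simp
  refine ⟨z, κ, ?_⟩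
  have hnodup : l.Nodup := by
    unfold List.Nodup
    refine hl.imp ?_
    intro a b h heq
    rw [heq] at h
    exact ltP_irrefl _ h
  have hanti : Std.Antisymm (ltP (m := m) (N := N)) := ⟨fun a b h h' => (ltP_asymm h h').elim⟩
  have hsub : l ⊆ full z κ := by
    intro x hx
    obtain ⟨i, hi1, hi2⟩ := exists_pos x.1 (up x.2)
    unfold full
    rw [List.mem_ofFn]
    refine ⟨i, ?_⟩
    rw [hi1, hi2]
    exact (hee x hx).symm
  exact List.sublist_of_subperm_of_pairwise (List.subperm_of_subset hnodup hsub) hl
    (full_pairwise z κ)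

/-! ### From a valid choice of the existential variables to a witness -/

/-- The condition that the first `s` variables are chosen according to `Y`. -/
def Agree (s : ℕ) (Y z : Fin m → Bool) : Prop := ∀ v : Fin m, v.1 < s → z v = Y v

/-- Abstract `∃∀`-DNF. -/
def EAabs (s : ℕ) (lit : Fin T → Bool → Fin m → Prop) : Prop :=
  ∃ Y : Fin m → Bool, ∀ z : Fin m → Bool, Agree s Y z → ∃ t, ∀ b v, lit t b v → z v = b

theorem CM_of_EA (hN : 0 < N) (lit : Fin T → Bool → Fin m → Prop)
    (h : EAabs s lit) : CM (ltP (m := m) (N := N)) (ltQ (N := N) (s := s) (lit := lit)) := by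
  classical
  obtain ⟨Y, hY⟩ := h
  let f : QE N s lit → PE m N := fun z =>
    if special z.1.1 z.1.2.1 then (z.1.2.1, !Y z.1.2.1, if z.1.2.2.1 = !Y z.1.2.1 then z.1.2.2.2
      else none) else z.1.2
  have lift : ∀ (z : Fin m → Bool) (κ : Fin m → Fin N),
      ∃ L : List (QE N s lit), L.Pairwise ltQ ∧ L.map f = full z κ := by
    intro z κ
    by_cases hz : Agree s Y z
    · -- a true term serves the chain
      obtain ⟨t, ht⟩ := hY z hz
      have hval : ∀ v p, valid (s := s) lit (Sum.inl t, ee z κ v p) := by
        intro v p hl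
        have := ht _ _ hl
        simp only [ee_fst, ee_side] at this
        cases hzv : z v <;> simp [hzv] at this
      refine ⟨List.ofFn (fun i : Fin (2 * m) => ⟨(Sum.inl t, ee z κ (pv i) (pp i)), hval _ _⟩),
        ?_, ?_⟩
      · rw [List.pairwise_ofFn]
        intro i j hij
        refine ⟨rfl, ?_⟩
        rcases pos_cases hij with h | ⟨h1, h2, h3⟩
        · exact Or.inl h
        · refine Or.inr ⟨h1, ?_, ?_, ?_⟩
          · simp [mt, special, h1]
          · simp [upQ, special, h2]
          · simp [upQ, special, h3]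
      · rw [List.map_ofFn]
        rfl
    · -- a free component serves the chain
      unfold Agree at hz
      push Not at hz
      obtain ⟨v₀, hv₀, hne⟩ := hz
      have hz0 : z v₀ = !Y v₀ := by
        cases h1 : z v₀ <;> cases h2 : Y v₀ <;> simp_all
      let j : Fin s := ⟨v₀.1, hv₀⟩
      let g : Fin m → Bool → PE m N := fun v p => if j.1 = v.1 then (v, p, some (κ v)) else ee z κ v p
      have hg1 : ∀ v p, (g v p).1 = v := by
        intro v p
        simp only [g]
        split_ifs <;> rfl
      have hval : ∀ v p, valid (T := T) (s := s) lit (Sum.inr j, g v p) := by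
        intro v p
        simp only [valid]
        rw [hg1]
        intro hj
        simp [g, hj]
      refine ⟨List.ofFn (fun i : Fin (2 * m) => ⟨(Sum.inr j, g (pv i) (pp i)), hval _ _⟩),
        ?_, ?_⟩
      · rw [List.pairwise_ofFn]
        intro i i' hij
        refine ⟨rfl, ?_⟩
        simp only [hg1]
        rcases pos_cases hij with h | ⟨h1, h2, h3⟩
        · exact Or.inl h
        · refine Or.inr ⟨h1, ?_, ?_, ?_⟩
          · simp only [mt, special, hg1, h1, g]
            split_ifs with hj
            · simp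
            · simp
          · simp only [upQ, special, hg1, g, h2]
            split_ifs with hj
            · rfl
            · simp
          · simp only [upQ, special, hg1, g, h3]
            split_ifs with hj
            · rfl
            · simp
      · rw [List.map_ofFn, full]
        congr 1
        funext i
        simp only [Function.comp, f, special, hg1]
        split_ifs with h1 h2
        · have hv : pv i = v₀ := Fin.ext h1.symm
          simp only [g, h1, if_true, ee, hv, hz0] at h2 ⊢
          simp [h2]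
        · have hv : pv i = v₀ := Fin.ext h1.symm
          simp only [g, h1, if_true, ee, hv, hz0] at h2 ⊢
          simp [h2]
        · simp [g, h1]
  refine ⟨f, fun l hl => ?_⟩
  obtain ⟨z, κ, hsub⟩ := chain_sublist_full hN hl
  obtain ⟨L, hL1, hL2⟩ := lift z κ
  rw [← hL2, List.sublist_map_iff] at hsub
  obtain ⟨l', hl', hl''⟩ := hsub
  exact ⟨l', hL1.sublist hl', hl''.symm⟩

/-! ### From a witness to a valid choice of the existential variables -/

/-- A strictly increasing sequence of `n` numbers below `n` is the identity. -/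
theorem strictMono_id {n : ℕ} (g : Fin n → ℕ) (hg : ∀ i j, i < j → g i < g j)
    (hlt : ∀ i, g i < n) (i : Fin n) : g i = i := by
  have key : ∀ (k : ℕ) (a b : Fin n), b.1 = a.1 + k → g a + k ≤ g b := by
    intro k
    induction k with
    | zero =>
      intro a b hab
      rw [Fin.ext (by simpa using hab) (a := b) (b := a)]
      simp
    | succ k ih =>
      intro a b hab
      have hc : a.1 + k < n := by have := b.2; omega
      have h1 := ih a ⟨a.1 + k, hc⟩ rfl
      have h2 := hg ⟨a.1 + k, hc⟩ b (by rw [Fin.lt_def]; simp only; omega)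
      omega
  have h0 : 0 < n := lt_of_le_of_lt (Nat.zero_le _) i.2
  have h1 := key i.1 ⟨0, h0⟩ i (by simp)
  have h2 := key (n - 1 - i.1) i ⟨n - 1, by omega⟩ (by simp only; have := i.2; omega)
  have h3 := hlt ⟨n - 1, by omega⟩
  have := i.2
  omega

/-- The level of an element of `Q`. -/
def lev (z : QE0 m N T s) : ℕ := 2 * z.2.1.1 + (if upQ z = true then 1 else 0)

theorem lev_lt {z z' : QE0 m N T s} (h : ltQ0 z z') : lev z < lev z' := by
  unfold lev
  rcases h.2 with h1 | ⟨h1, _, h2, h3⟩
  · have : z.2.1.1 < z'.2.1.1 := h1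
    split_ifs <;> omega
  · rw [h1, h2, h3]
    simp

theorem lev_bound (z : QE0 m N T s) : lev z < 2 * m := by
  unfold lev
  have := z.2.1.2
  split_ifs <;> omega

/-- A chain of `Q` of full length: one component, and in each gadget a lower and an upper
element. -/
theorem full_chain {lit : Fin T → Bool → Fin m → Prop} (f : QE N s lit → PE m N)
    (z : Fin m → Bool) (κ : Fin m → Fin N) (L : List (QE N s lit)) (hL : L.Pairwise ltQ)
    (hf : L.map f = full z κ) (hm : 0 < m) :
    ∃ c : Fin T ⊕ Fin s, ∀ v : Fin m, ∃ lo hi : QE N s lit, lo.1.1 = c ∧ hi.1.1 = c ∧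
      lo.1.2.1 = v ∧ hi.1.2.1 = v ∧ upQ lo.1 = false ∧ upQ hi.1 = true ∧ mt lo.1 hi.1 ∧
      f lo = ee z κ v false ∧ f hi = ee z κ v true := by
  have hlen : L.length = 2 * m := by
    have := congrArg List.length hf
    simpa [full] using this
  rw [List.pairwise_iff_getElem] at hL
  let g : Fin (2 * m) → QE N s lit := fun i => L[i.1]'(by rw [hlen]; exact i.2)
  have hlt : ∀ i j : Fin (2 * m), i < j → ltQ (g i) (g j) := fun i j hij => hL _ _ _ _ hij
  have hfg : ∀ i : Fin (2 * m), f (g i) = ee z κ (pv i) (pp i) := by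
    intro i
    have h1 : (L.map f)[i.1]? = some (f (g i)) := by
      rw [List.getElem?_map, List.getElem?_eq_getElem (by rw [hlen]; exact i.2)]
      rfl
    rw [hf, full, List.getElem?_ofFn] at h1
    rw [dif_pos i.2] at h1
    exact (Option.some.inj h1).symm
  have hlev : ∀ i : Fin (2 * m), lev (g i).1 = i := by
    intro i
    exact strictMono_id (fun i => lev (g i).1) (fun i j hij => lev_lt (hlt i j hij))
      (fun i => lev_bound _) i
  have hcomp : ∀ i j : Fin (2 * m), i < j → (g i).1.1 = (g j).1.1 := fun i j hij =>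
    (hlt i j hij).1
  have h0 : ∀ i : Fin (2 * m), (g i).1.1 = (g ⟨0, by omega⟩).1.1 := by
    intro i
    by_cases hi : i = ⟨0, by omega⟩
    · rw [hi]
    · refine (hcomp ⟨0, by omega⟩ i ?_).symm
      rw [Fin.lt_def]
      have : i.1 ≠ 0 := fun h => hi (Fin.ext h)
      simp only
      omega
  refine ⟨(g ⟨0, by omega⟩).1.1, fun v => ?_⟩
  have hv := v.2
  let a : Fin (2 * m) := ⟨2 * v.1, by omega⟩
  let b : Fin (2 * m) := ⟨2 * v.1 + 1, by omega⟩
  have ha := hlev a
  have hb := hlev b
  have hab := hlt a b (by rw [Fin.lt_def]; simp only [a, b]; omega)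
  have ha1 : (g a).1.2.1 = v ∧ upQ (g a).1 = false := by
    unfold lev at ha
    cases hu : upQ (g a).1
    · rw [hu] at ha
      refine ⟨Fin.ext ?_, rfl⟩
      simp only [a, Bool.false_eq_true, if_false] at ha ⊢
      omega
    · rw [hu] at ha
      simp only [a, if_true] at ha
      omega
  have hb1 : (g b).1.2.1 = v ∧ upQ (g b).1 = true := by
    unfold lev at hb
    cases hu : upQ (g b).1
    · rw [hu] at hb
      simp only [b, Bool.false_eq_true, if_false] at hb
      omega
    · rw [hu] at hb
      refine ⟨Fin.ext ?_, rfl⟩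
      simp only [b, if_true] at hb ⊢
      omega
  refine ⟨g a, g b, h0 a, h0 b, ha1.1, hb1.1, ha1.2, hb1.2, ?_, ?_, ?_⟩
  · rcases hab.2 with h | h
    · rw [ha1.1, hb1.1] at h
      exact absurd h (lt_irrefl _)
    · exact h.2.1
  · rw [hfg]
    congr 1
    · exact Fin.ext (by simp only [pv, a]; omega)
    · unfold pp; rw [decide_eq_false_iff_not]; simp only [a]; omega
  · rw [hfg]
    congr 1
    · exact Fin.ext (by simp only [pv, b]; omega)
    · unfold pp; rw [decide_eq_true_iff]; simp only [b]; omega

theorem EA_of_CM (hm : 0 < m) (hN : N = 4 * T + 2) (hs : s ≤ m)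
    (lit : Fin T → Bool → Fin m → Prop)
    (h : CM (ltP (m := m) (N := N)) (ltQ (N := N) (s := s) (lit := lit))) : EAabs s lit := by
  classical
  obtain ⟨f, hf⟩ := h
  have hN0 : 0 < N := by omega
  have hne : Nonempty (Fin N) := ⟨⟨0, hN0⟩⟩
  -- numbers served by single elements of terms with the wrong side
  let Bad : Fin m → Finset (Fin N) := fun v => Finset.univ.filter (fun k =>
    ∃ (t : Fin T) (σ : Bool) (hv : valid (N := N) (s := s) lit (Sum.inl t, (v, σ, none))),
      f ⟨(Sum.inl t, (v, σ, none)), hv⟩ = (v, !σ, some k))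
  have hBad : ∀ v, (Bad v).card ≤ 2 * T := by
    intro v
    let ex : Fin T × Bool → Fin N := fun q =>
      if hv : valid (N := N) (s := s) lit (Sum.inl q.1, (v, q.2, none)) then
        ((f ⟨(Sum.inl q.1, (v, q.2, none)), hv⟩).2.2).getD ⟨0, hN0⟩ else ⟨0, hN0⟩
    have h1 : Bad v ⊆ Finset.univ.image ex := by
      intro k hk
      simp only [Bad, Finset.mem_filter, Finset.mem_univ, true_and] at hk
      obtain ⟨t, σ, hv, hk⟩ := hk
      rw [Finset.mem_image]
      refine ⟨(t, σ), Finset.mem_univ _, ?_⟩
      simp only [ex]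
      rw [dif_pos hv, hk]
      rfl
    refine (Finset.card_le_card h1).trans (Finset.card_image_le.trans ?_)
    rw [Finset.card_univ, Fintype.card_prod, Fintype.card_fin, Fintype.card_bool]
    omega
  -- numbers served by the choice gadgets
  have hval : ∀ (j : Fin s) (p : Bool) (k : Fin N), valid (m := m) (T := T) lit
      (Sum.inr j, (⟨j.1, lt_of_lt_of_le j.2 hs⟩, p, some k)) := by
    intro j p k _
    rfl
  let el : (j : Fin s) → Bool → Fin N → QE N s lit := fun j p k =>
    ⟨(Sum.inr j, (⟨j.1, lt_of_lt_of_le j.2 hs⟩, p, some k)), hval j p k⟩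
  let Srv : Fin s → Bool → Finset (Fin N) := fun j σ => Finset.univ.filter (fun κ =>
    ∃ k : Fin N, f (el j false k) = (⟨j.1, lt_of_lt_of_le j.2 hs⟩, σ,
        if false = σ then some κ else none) ∧
      f (el j true k) = (⟨j.1, lt_of_lt_of_le j.2 hs⟩, σ, if true = σ then some κ else none))
  have hSrv : ∀ j, (Srv j false).card + (Srv j true).card ≤ N := by
    intro j
    let K : Bool → Finset (Fin N) := fun σ => Finset.univ.filter (fun k =>
      (f (el j false k)).2.1 = σ)
    have hK : ∀ σ, (Srv j σ).card ≤ (K σ).card := by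
      intro σ
      have h1 : Srv j σ ⊆ (K σ).image (fun k =>
          if σ = true then ((f (el j true k)).2.2).getD ⟨0, hN0⟩
          else ((f (el j false k)).2.2).getD ⟨0, hN0⟩) := by
        intro κ hκ
        simp only [Srv, Finset.mem_filter, Finset.mem_univ, true_and] at hκ
        obtain ⟨k, hk1, hk2⟩ := hκ
        rw [Finset.mem_image]
        refine ⟨k, ?_, ?_⟩
        · simp only [K, Finset.mem_filter, Finset.mem_univ, true_and]
          rw [hk1]
        · cases σ
          · simp only [Bool.false_eq_true, if_false]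
            rw [hk1]
            simp
          · simp only [if_true]
            rw [hk2]
            simp
      exact (Finset.card_le_card h1).trans Finset.card_image_le
    have h2 : (K false).card + (K true).card = N := by
      have h3 := Finset.card_filter_add_card_filter_not (s := (Finset.univ : Finset (Fin N)))
        (fun k => (f (el j false k)).2.1 = false)
      rw [Finset.card_univ, Fintype.card_fin] at h3
      have h4 : K true = Finset.univ.filter (fun k => ¬ (f (el j false k)).2.1 = false) := by
        apply Finset.filter_congr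
        intro k _
        simp
      rw [h4]
      exact h3
    have := hK false
    have := hK true
    omega
  have hchoice : ∀ j : Fin s, ∃ σ, (Srv j σ).card ≤ 2 * T + 1 := by
    intro j
    by_contra hcon
    push Not at hcon
    have h1 := hcon false
    have h2 := hcon true
    have h3 := hSrv j
    omega
  choose yj hyj using hchoice
  let Y : Fin m → Bool := fun v => if h : v.1 < s then yj ⟨v.1, h⟩ else false
  refine ⟨Y, fun z hz => ?_⟩
  -- numbers avoiding everything
  let Av : Fin m → Finset (Fin N) := fun v =>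
    if h : v.1 < s then Srv ⟨v.1, h⟩ (z v) else ∅
  have hAv : ∀ v, (Av v).card ≤ 2 * T + 1 := by
    intro v
    simp only [Av]
    split_ifs with h
    · have h1 := hz v h
      simp only [Y, dif_pos h] at h1
      rw [h1]
      exact hyj _
    · simp
  have hκ : ∀ v, ∃ κ : Fin N, κ ∉ Bad v ∪ Av v := by
    intro v
    by_contra hcon
    push Not at hcon
    have h1 : (Finset.univ : Finset (Fin N)) ⊆ Bad v ∪ Av v := fun k _ => hcon k
    have h2 := Finset.card_le_card h1
    rw [Finset.card_univ, Fintype.card_fin] at h2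
    have h3 := Finset.card_union_le (Bad v) (Av v)
    have h4 := hBad v
    have h5 := hAv v
    omega
  choose κ hκ using hκ
  obtain ⟨L, hL, hLf⟩ := hf (full z κ) (full_pairwise z κ)
  obtain ⟨c, hc⟩ := full_chain f z κ L hL hLf hm
  cases c with
  | inr j =>
    exfalso
    let v : Fin m := ⟨j.1, lt_of_lt_of_le j.2 hs⟩
    obtain ⟨lo, hi, c1, c2, v1, v2, u1, u2, hmt, f1, f2⟩ := hc v
    obtain ⟨⟨cl, vl, σl, ol⟩, hlo⟩ := lo
    obtain ⟨⟨ch, vh, σh, oh⟩, hhi⟩ := hi
    simp only at c1 c2 v1 v2
    subst c1 c2 v1 v2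
    have hsp : special (Sum.inr j : Fin T ⊕ Fin s) v := rfl
    simp only [upQ] at u1 u2
    rw [if_pos hsp] at u1 u2
    simp only [mt] at hmt
    rw [if_pos hsp] at hmt
    subst u1 u2 hmt
    obtain ⟨k, rfl⟩ := Option.isSome_iff_exists.1 (hlo rfl)
    have hk := hκ v
    rw [Finset.mem_union, not_or] at hk
    apply hk.2
    simp only [Av]
    rw [dif_pos (show v.1 < s from j.2)]
    simp only [Srv, Finset.mem_filter, Finset.mem_univ, true_and]
    exact ⟨k, f1, f2⟩
  | inl t =>
    refine ⟨t, fun b v hl => ?_⟩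
    by_contra hb
    obtain ⟨lo, hi, c1, c2, v1, v2, u1, u2, hmt, f1, f2⟩ := hc v
    obtain ⟨⟨cl, vl, σl, ol⟩, hlo⟩ := lo
    obtain ⟨⟨ch, vh, σh, oh⟩, hhi⟩ := hi
    simp only at c1 c2 v1 v2
    subst c1 c2 v1
    subst v2
    have hsp : ¬ special (Sum.inl t : Fin T ⊕ Fin s) vh := fun h => h
    simp only [upQ] at u1 u2
    rw [if_neg hsp] at u1 u2
    simp only [mt] at hmt
    rw [if_neg hsp] at hmt
    subst hmt
    have hv1 : ¬ lit t (!σl) vh := hlo
    have hσb : σl = b := by
      by_contra hne
      have : b = !σl := by cases b <;> cases σl <;> simp_all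
      rw [this] at hl
      exact hv1 hl
    have hzσ : z vh = !σl := by
      rw [hσb]
      cases h1 : z vh <;> cases b <;> simp_all
    have hk := hκ vh
    rw [Finset.mem_union, not_or] at hk
    apply hk.1
    simp only [Bad, Finset.mem_filter, Finset.mem_univ, true_and]
    cases hσ : σl with
    | true =>
      subst hσ
      have ho : ol = none := by
        unfold up at u1
        cases ol <;> simp at u1 ⊢
      subst ho
      refine ⟨t, true, hlo, ?_⟩
      rw [f1]
      simp [ee, hzσ]
    | false =>
      subst hσ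
      have ho : oh = none := by
        unfold up at u2
        cases oh <;> simp at u2 ⊢
      subst ho
      refine ⟨t, false, hhi, ?_⟩
      rw [f2]
      simp [ee, hzσ]

end Pool.Agent.H596R2.Chain
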