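import Pool.Agent.H596R2.EndRed2

/-!
# Counting self-maps by bit strings of a fixed length
-/

namespace Pool.Agent.NPC.H596

open Pool.Agent.H596R2

/-- The entry number `t` of a bit string. -/
def bt (w : List Bool) (t : ℕ) : Bool := w.getD t false

/-- Bounded universal quantification. -/
def allB (n : ℕ) (p : ℕ → Bool) : Bool := (List.range n).all p

/-- Bounded existential quantification. -/
def exB (n : ℕ) (p : ℕ → Bool) : Bool := (List.range n).any p

theorem allB_iff {n : ℕ} {p : ℕ → Bool} : allB n p = true ↔ ∀ i < n, p i = true := by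
  simp [allB]

theorem exB_iff {n : ℕ} {p : ℕ → Bool} : exB n p = true ↔ ∃ i < n, p i = true := by
  simp [exB]

/-- Boolean implication. -/
def impB (a b : Bool) : Bool := !a || b

theorem impB_iff {a b : Bool} : impB a b = true ↔ (a = true → b = true) := by
  cases a <;> cases b <;> simp [impB]

/-- A Boolean test for being the matrix of a partial order. -/
def posetB (M : List (List Bool)) : Bool :=
  (M.all (fun row => decide (row.length = M.length))) &&
  (allB M.length (fun i => ent M i i) &&
  (allB M.length (fun i => allB M.length (fun j => impB (ent M i j && ent M j i) (decide (i = j)))) &&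
  allB M.length (fun i => allB M.length (fun j => allB M.length (fun k =>
    impB (ent M i j && ent M j k) (ent M i k))))))

theorem posetB_iff (M : List (List Bool)) : posetB M = true ↔ IsPoset M := by
  unfold posetB IsPoset
  simp only [Bool.and_eq_true, List.all_eq_true, decide_eq_true_eq, allB_iff, impB_iff]
  refine and_congr Iff.rfl (and_congr ?_ (and_congr ?_ ?_))
  · constructor
    · intro h i
      exact h i i.2
    · intro h i hi
      exact h ⟨i, hi⟩
  · constructor
    · intro h i j h1 h2
      exact Fin.ext (h i i.2 j j.2 ⟨h1, h2⟩)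
    · intro h i hi j hj h1
      exact Fin.ext_iff.1 (h ⟨i, hi⟩ ⟨j, hj⟩ h1.1 h1.2)
  · constructor
    · intro h i j k h1 h2
      exact h i i.2 j j.2 k k.2 ⟨h1, h2⟩
    · intro h i hi j hj k hk h1
      exact h ⟨i, hi⟩ ⟨j, hj⟩ ⟨k, hk⟩ h1.1 h1.2

/-- The bit string `w` describes an order-preserving self-map of the poset `M`: the entry number
`i * n + j` tells whether `i` is mapped to `j`; all further entries are `false`. -/
def mapB (M : List (List Bool)) (w : List Bool) : Bool :=
  posetB M &&
  (allB w.length (fun t => impB (decide (M.length * M.length ≤ t)) (!bt w t)) &&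
  (allB M.length (fun i => exB M.length (fun j => bt w (i * M.length + j))) &&
  (allB M.length (fun i => allB M.length (fun j => allB M.length (fun k =>
    impB (bt w (i * M.length + j) && bt w (i * M.length + k)) (decide (j = k))))) &&
  allB M.length (fun i => allB M.length (fun i' => allB M.length (fun j => allB M.length (fun j' =>
    impB (ent M i i' && (bt w (i * M.length + j) && bt w (i' * M.length + j'))) (ent M j j'))))))))

theorem sz_ge_sq (M : List (List Bool)) (h : ∀ row ∈ M, row.length = M.length) :
    M.length * M.length ≤ sz M := by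
  have key : ∀ (n : ℕ) (l : List (List Bool)), (∀ row ∈ l, row.length = n) →
      l.length * n ≤ sz l := by
    intro n l
    induction l with
    | nil => intro _; simp
    | cons a l ih =>
      intro h
      have h1 := ih (fun r hr => h r (List.mem_cons_of_mem _ hr))
      have h2 := h a (List.mem_cons_self)
      have h3 := sz_listBool_ge a
      rw [sz_list_cons, List.length_cons]
      have : (l.length + 1) * n = l.length * n + n := by ring
      omega
  exact key _ _ h

/-- The self-maps are counted by bit strings of length `sz M`. -/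
theorem card_mapB (M : List (List Bool)) :
    Nat.card {w : List Bool // w.length = sz M ∧ mapB M w = true} = countEnd M := by
  classical
  unfold countEnd
  split_ifs with hP
  · -- the matrix is a poset
    set n := M.length with hn
    have hsq : n * n ≤ sz M := sz_ge_sq M hP.1
    have hidx : ∀ i j, i < n → j < n → i * n + j < n * n := by
      intro i j hi hj
      nlinarith
    let W : (Fin n → Fin n) → List Bool := fun f => (List.range (sz M)).map
      (fun t => if h : t < n * n then
        decide ((f ⟨t / n, Nat.div_lt_of_lt_mul h⟩).1 = t % n) else false)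
    have hWlen : ∀ f, (W f).length = sz M := by intro f; simp [W]
    have hWat : ∀ f i j (hi : i < n) (hj : j < n), bt (W f) (i * n + j) = true ↔
        (f ⟨i, hi⟩).1 = j := by
      intro f i j hi hj
      have h1 := hidx i j hi hj
      have h2 : (i * n + j) / n = i := by
        rw [mul_comm, Nat.mul_add_div (by omega), Nat.div_eq_of_lt hj, add_zero]
      have h3 : (i * n + j) % n = j := by
        rw [mul_comm, Nat.mul_add_mod, Nat.mod_eq_of_lt hj]
      unfold bt
      rw [List.getD_eq_getElem?_getD, List.getElem?_map, List.getElem?_range (by omega)]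
      simp only [Option.map_some, Option.getD_some, dif_pos h1, decide_eq_true_eq, h3]
      rw [show (⟨(i * n + j) / n, Nat.div_lt_of_lt_mul h1⟩ : Fin n) = ⟨i, hi⟩ from Fin.ext h2]
    have hWout : ∀ f t, n * n ≤ t → bt (W f) t = false := by
      intro f t ht
      unfold bt
      rw [List.getD_eq_getElem?_getD, List.getElem?_map]
      by_cases htL : t < sz M
      · rw [List.getElem?_range htL]
        simp only [Option.map_some, Option.getD_some]
        rw [dif_neg (by omega)]
      · rw [List.getElem?_eq_none (by simpa using htL)]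
        rfl
    symm
    refine Nat.card_eq_of_bijective (fun f => ⟨W f.1, hWlen f.1, ?_⟩) ⟨?_, ?_⟩
    · unfold mapB
      simp only [Bool.and_eq_true, allB_iff, exB_iff, impB_iff, decide_eq_true_eq]
      refine ⟨(posetB_iff M).2 hP, ?_, ?_, ?_, ?_⟩
      · intro t _ ht
        rw [hWout _ _ ht]
        rfl
      · intro i hi
        exact ⟨(f.1 ⟨i, hi⟩).1, (f.1 ⟨i, hi⟩).2, (hWat f.1 i _ hi (f.1 ⟨i, hi⟩).2).2 rfl⟩
      · intro i hi j hj k hk h
        rw [hWat f.1 i j hi hj, hWat f.1 i k hi hk] at h
        exact h.1.symm.trans h.2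
      · intro i hi i' hi' j hj j' hj' h
        rw [hWat f.1 i j hi hj, hWat f.1 i' j' hi' hj'] at h
        have := f.2 ⟨i, hi⟩ ⟨i', hi'⟩ h.1
        unfold rel at this
        rw [h.2.1, h.2.2] at this
        exact this
    · intro f g h
      apply Subtype.ext
      funext i
      have h1 : W f.1 = W g.1 := congrArg Subtype.val h
      have h2 := (hWat f.1 i _ i.2 (f.1 i).2).2 rfl
      rw [h1, hWat g.1 i _ i.2 (f.1 i).2] at h2
      exact Fin.ext h2.symm
    · rintro ⟨w, hw, hwM⟩
      unfold mapB at hwM
      simp only [Bool.and_eq_true, allB_iff, exB_iff, impB_iff, decide_eq_true_eq] at hwM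
      obtain ⟨_, h1, h2, h3, h4⟩ := hwM
      have h2' : ∀ i : Fin n, ∃ j : Fin n, bt w (i * n + j) = true := by
        intro i
        obtain ⟨j, hj, hj'⟩ := h2 i i.2
        exact ⟨⟨j, hj⟩, hj'⟩
      choose f hf using h2'
      refine ⟨⟨f, ?_⟩, ?_⟩
      · intro i i' h
        exact h4 i i.2 i' i'.2 (f i) (f i).2 (f i') (f i').2 ⟨h, hf i, hf i'⟩
      · apply Subtype.ext
        apply List.ext_getElem
        · rw [hWlen, hw]
        · intro t ht ht'
          have e1 : (W f)[t] = bt (W f) t := by
            unfold bt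
            rw [List.getD_eq_getElem?_getD, List.getElem?_eq_getElem ht]
            rfl
          have e2 : w[t] = bt w t := by
            unfold bt
            rw [List.getD_eq_getElem?_getD, List.getElem?_eq_getElem ht']
            rfl
          rw [e1, e2]
          by_cases htn : t < n * n
          · have hn0 : 0 < n := by
              rcases Nat.eq_zero_or_pos n with h0 | h0
              · rw [h0] at htn; omega
              · exact h0
            have hd : t / n < n := Nat.div_lt_of_lt_mul htn
            have hm : t % n < n := Nat.mod_lt _ hn0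
            have ht2 : t = (t / n) * n + t % n := by
              rw [mul_comm]; exact (Nat.div_add_mod t n).symm
            rw [Bool.eq_iff_iff]
            conv_lhs => rw [ht2]
            conv_rhs => rw [ht2]
            rw [hWat f _ _ hd hm]
            constructor
            · intro h
              have := hf ⟨t / n, hd⟩
              rw [h] at this
              exact this
            · intro h
              exact h3 _ hd _ (f ⟨t / n, hd⟩).2 _ hm ⟨hf ⟨t / n, hd⟩, h⟩
          · rw [hWout _ _ (by omega)]
            have := h1 t ht' (not_lt.1 htn)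
            simpa using this.symm
  · have : IsEmpty {w : List Bool // w.length = sz M ∧ mapB M w = true} := by
      constructor
      rintro ⟨w, _, hw⟩
      unfold mapB at hw
      rw [Bool.and_eq_true] at hw
      exact hP ((posetB_iff M).1 hw.1)
    rw [Nat.card_of_isEmpty]

section Comp

variable {α : Type} [TEnc α]

theorem poly_allB {n : α → ℕ} {p : α → ℕ → Bool} (hn : UPoly n)
    (hp : Poly (fun x : α × ℕ => p x.1 x.2)) : Poly (fun a => allB (n a) (p a)) :=
  Poly.all hn.range hp

theorem poly_exB {n : α → ℕ} {p : α → ℕ → Bool} (hn : UPoly n)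
    (hp : Poly (fun x : α × ℕ => p x.1 x.2)) : Poly (fun a => exB (n a) (p a)) :=
  Poly.any hn.range hp

theorem poly_impB {a b : α → Bool} (ha : Poly a) (hb : Poly b) : Poly (fun x => impB (a x) (b x)) :=
  Poly.or (Poly.not ha) hb

theorem poly_ent {M : α → List (List Bool)} {i j : α → ℕ} (hM : Poly M) (hi : Poly i)
    (hj : Poly j) : Poly (fun a => ent (M a) (i a) (j a)) :=
  Poly.getD (Poly.getD hM hi (Poly.const [])) hj (Poly.const false)

theorem poly_bt {w : α → List Bool} {t : α → ℕ} (hw : Poly w) (ht : Poly t) :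
    Poly (fun a => bt (w a) (t a)) :=
  Poly.getD hw ht (Poly.const false)

theorem poly_posetB {M : α → List (List Bool)} (hM : Poly M) : Poly (fun a => posetB (M a)) := by
  have hn : UPoly (fun a => (M a).length) := UPoly.length hM
  have hM1 : Poly (fun x : α × ℕ => M x.1) := hM.comp (Poly.fst Poly.id)
  have hM2 : Poly (fun x : (α × ℕ) × ℕ => M x.1.1) := hM1.comp (Poly.fst Poly.id)
  have hM3 : Poly (fun x : ((α × ℕ) × ℕ) × ℕ => M x.1.1.1) := hM2.comp (Poly.fst Poly.id)
  refine Poly.and ?_ (Poly.and ?_ (Poly.and ?_ ?_))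
  · exact Poly.all (p := fun a row => decide (row.length = (M a).length)) hM
      (Poly.decide_eq (Poly.length (Poly.snd Poly.id))
        (Poly.length (hM.comp (Poly.fst Poly.id))))
  · exact poly_allB hn (poly_ent hM1 (Poly.snd Poly.id) (Poly.snd Poly.id))
  · refine poly_allB hn (poly_allB (p := fun (x : α × ℕ) j => impB (ent (M x.1) x.2 j &&
      ent (M x.1) j x.2) (decide (x.2 = j))) (UPoly.length hM1) ?_)
    have i : Poly (fun x : (α × ℕ) × ℕ => x.1.2) := Poly.snd (Poly.fst Poly.id)
    have j : Poly (fun x : (α × ℕ) × ℕ => x.2) := Poly.snd Poly.id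
    exact poly_impB (Poly.and (poly_ent hM2 i j) (poly_ent hM2 j i)) (Poly.decide_eq i j)
  · refine poly_allB hn (poly_allB (p := fun (x : α × ℕ) j => allB (M x.1).length (fun k =>
      impB (ent (M x.1) x.2 j && ent (M x.1) j k) (ent (M x.1) x.2 k))) (UPoly.length hM1)
      (poly_allB (p := fun (y : (α × ℕ) × ℕ) k => impB (ent (M y.1.1) y.1.2 y.2 &&
        ent (M y.1.1) y.2 k) (ent (M y.1.1) y.1.2 k)) (UPoly.length hM2) ?_))
    have i : Poly (fun x : ((α × ℕ) × ℕ) × ℕ => x.1.1.2) := Poly.snd (Poly.fst (Poly.fst Poly.id))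
    have j : Poly (fun x : ((α × ℕ) × ℕ) × ℕ => x.1.2) := Poly.snd (Poly.fst Poly.id)
    have k : Poly (fun x : ((α × ℕ) × ℕ) × ℕ => x.2) := Poly.snd Poly.id
    exact poly_impB (Poly.and (poly_ent hM3 i j) (poly_ent hM3 j k)) (poly_ent hM3 i k)

theorem poly_mapB {M : α → List (List Bool)} {w : α → List Bool} (hM : Poly M) (hw : Poly w) :
    Poly (fun a => mapB (M a) (w a)) := by
  have hn : UPoly (fun a => (M a).length) := UPoly.length hM
  have hM1 : Poly (fun x : α × ℕ => M x.1) := hM.comp (Poly.fst Poly.id)
  have hM2 : Poly (fun x : (α × ℕ) × ℕ => M x.1.1) := hM1.comp (Poly.fst Poly.id)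
  have hM3 : Poly (fun x : ((α × ℕ) × ℕ) × ℕ => M x.1.1.1) := hM2.comp (Poly.fst Poly.id)
  have hM4 : Poly (fun x : (((α × ℕ) × ℕ) × ℕ) × ℕ => M x.1.1.1.1) := hM3.comp (Poly.fst Poly.id)
  have hw1 : Poly (fun x : α × ℕ => w x.1) := hw.comp (Poly.fst Poly.id)
  have hw2 : Poly (fun x : (α × ℕ) × ℕ => w x.1.1) := hw1.comp (Poly.fst Poly.id)
  have hw3 : Poly (fun x : ((α × ℕ) × ℕ) × ℕ => w x.1.1.1) := hw2.comp (Poly.fst Poly.id)
  have hw4 : Poly (fun x : (((α × ℕ) × ℕ) × ℕ) × ℕ => w x.1.1.1.1) := hw3.comp (Poly.fst Poly.id)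
  refine Poly.and (poly_posetB hM) (Poly.and ?_ (Poly.and ?_ (Poly.and ?_ ?_)))
  · exact poly_allB (p := fun a t => impB (decide ((M a).length * (M a).length ≤ t))
      (!bt (w a) t)) (UPoly.length hw) (poly_impB (Poly.decide_le
      (Poly.mul (Poly.length hM1) (Poly.length hM1)) (Poly.snd Poly.id))
      (Poly.not (poly_bt hw1 (Poly.snd Poly.id))))
  · refine poly_allB hn (poly_exB (p := fun (x : α × ℕ) j => bt (w x.1) (x.2 * (M x.1).length + j))
      (UPoly.length hM1) ?_)
    exact poly_bt hw2 (Poly.add (Poly.mul (Poly.snd (Poly.fst Poly.id)) (Poly.length hM2))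
      (Poly.snd Poly.id))
  · refine poly_allB hn (poly_allB (p := fun (x : α × ℕ) j => allB (M x.1).length (fun k =>
      impB (bt (w x.1) (x.2 * (M x.1).length + j) && bt (w x.1) (x.2 * (M x.1).length + k))
        (decide (j = k)))) (UPoly.length hM1)
      (poly_allB (p := fun (y : (α × ℕ) × ℕ) k => impB (bt (w y.1.1) (y.1.2 *
        (M y.1.1).length + y.2) && bt (w y.1.1) (y.1.2 * (M y.1.1).length + k))
        (decide (y.2 = k))) (UPoly.length hM2) ?_))
    have i : Poly (fun x : ((α × ℕ) × ℕ) × ℕ => x.1.1.2) := Poly.snd (Poly.fst (Poly.fst Poly.id))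
    have j : Poly (fun x : ((α × ℕ) × ℕ) × ℕ => x.1.2) := Poly.snd (Poly.fst Poly.id)
    have k : Poly (fun x : ((α × ℕ) × ℕ) × ℕ => x.2) := Poly.snd Poly.id
    exact poly_impB (Poly.and (poly_bt hw3 (Poly.add (Poly.mul i (Poly.length hM3)) j))
      (poly_bt hw3 (Poly.add (Poly.mul i (Poly.length hM3)) k))) (Poly.decide_eq j k)
  · refine poly_allB hn (poly_allB (p := fun (x : α × ℕ) i' => allB (M x.1).length (fun j =>
      allB (M x.1).length (fun j' => impB (ent (M x.1) x.2 i' && (bt (w x.1)
        (x.2 * (M x.1).length + j) && bt (w x.1) (i' * (M x.1).length + j')))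
        (ent (M x.1) j j')))) (UPoly.length hM1)
      (poly_allB (p := fun (y : (α × ℕ) × ℕ) j => allB (M y.1.1).length (fun j' =>
        impB (ent (M y.1.1) y.1.2 y.2 && (bt (w y.1.1) (y.1.2 * (M y.1.1).length + j) &&
        bt (w y.1.1) (y.2 * (M y.1.1).length + j'))) (ent (M y.1.1) j j'))) (UPoly.length hM2)
      (poly_allB (p := fun (z : ((α × ℕ) × ℕ) × ℕ) j' =>
        impB (ent (M z.1.1.1) z.1.1.2 z.1.2 && (bt (w z.1.1.1) (z.1.1.2 * (M z.1.1.1).length + z.2)
        && bt (w z.1.1.1) (z.1.2 * (M z.1.1.1).length + j'))) (ent (M z.1.1.1) z.2 j'))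
        (UPoly.length hM3) ?_)))
    have i : Poly (fun x : (((α × ℕ) × ℕ) × ℕ) × ℕ => x.1.1.1.2) :=
      Poly.snd (Poly.fst (Poly.fst (Poly.fst Poly.id)))
    have i' : Poly (fun x : (((α × ℕ) × ℕ) × ℕ) × ℕ => x.1.1.2) :=
      Poly.snd (Poly.fst (Poly.fst Poly.id))
    have j : Poly (fun x : (((α × ℕ) × ℕ) × ℕ) × ℕ => x.1.2) := Poly.snd (Poly.fst Poly.id)
    have j' : Poly (fun x : (((α × ℕ) × ℕ) × ℕ) × ℕ => x.2) := Poly.snd Poly.id
    exact poly_impB (Poly.and (poly_ent hM4 i i') (Poly.and
      (poly_bt hw4 (Poly.add (Poly.mul i (Poly.length hM4)) j))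
      (poly_bt hw4 (Poly.add (Poly.mul i' (Poly.length hM4)) j')))) (poly_ent hM4 j j')

end Comp

end Pool.Agent.NPC.H596
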