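import Pool.Agent.H596R2.ChainRed
import Pool.Agent.H596R2.EndMem

/-!
# CHAIN MINOR: the reduction is computable, and CHAIN MINOR is in `Σ₂ᵖ`
-/

namespace Pool.Agent.NPC.H596

open Pool.Agent.H596R2 Pool.Agent.H596R2.Chain Pool.Agent.NPC.S2

/-! ### The reduction is computable -/

section Red

variable {α : Type} [TEnc α]

theorem poly_up {x : α → Bool × Option ℕ} (hx : Poly x) : Poly (fun a => up (x a)) :=
  (Poly.not (Poly.xor (Poly.fst hx) (Poly.isSome (Poly.snd hx)))).congr fun a => by
    unfold up
    cases (x a).1 <;> cases (x a).2 <;> rfl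

theorem poly_ltEP {x y : α → EP} (hx : Poly x) (hy : Poly y) :
    Poly (fun a => decide (ltEP (x a) (y a))) := by
  refine poly_dec (Poly.or (Poly.decide_lt (Poly.fst hx) (Poly.fst hy))
    (Poly.and (Poly.decide_eq (Poly.fst hx) (Poly.fst hy))
    (Poly.and (Poly.decide_eq (Poly.fst (Poly.snd hx)) (Poly.fst (Poly.snd hy)))
    (Poly.and (Poly.not (poly_up (Poly.snd hx))) (poly_up (Poly.snd hy)))))) fun a => ?_
  simp [ltEP]

theorem poly_upEQ {x : α → EQ} (hx : Poly x) : Poly (fun a => upEQ (x a)) := by
  refine Poly.ite (p := fun a => (x a).1 = (true, (x a).2.1))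
    (poly_dec (Poly.decide_eq (Poly.fst hx) (Poly.pair (Poly.const true)
      (Poly.fst (Poly.snd hx)))) fun a => decide_eq_true_iff)
    (Poly.fst (Poly.snd (Poly.snd hx))) (poly_up (Poly.snd (Poly.snd hx)))

theorem poly_ltEQ {x y : α → EQ} (hx : Poly x) (hy : Poly y) :
    Poly (fun a => decide (ltEQ (x a) (y a))) := by
  have e : Poly (fun a => decide ((x a).1 = (true, (x a).2.1))) :=
    Poly.decide_eq (Poly.fst hx) (Poly.pair (Poly.const true) (Poly.fst (Poly.snd hx)))
  refine poly_dec (Poly.and (Poly.decide_eq (Poly.fst hx) (Poly.fst hy))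
    (Poly.or (Poly.decide_lt (Poly.fst (Poly.snd hx)) (Poly.fst (Poly.snd hy)))
    (Poly.and (Poly.decide_eq (Poly.fst (Poly.snd hx)) (Poly.fst (Poly.snd hy)))
    (Poly.and (Poly.or
      (Poly.and e (Poly.decide_eq (Poly.snd (Poly.snd (Poly.snd hx)))
        (Poly.snd (Poly.snd (Poly.snd hy)))))
      (Poly.and (Poly.not e) (Poly.decide_eq (Poly.fst (Poly.snd (Poly.snd hx)))
        (Poly.fst (Poly.snd (Poly.snd hy))))))
    (Poly.and (Poly.not (poly_upEQ hx)) (poly_upEQ hy)))))) fun a => ?_
  simp [ltEQ]

theorem upoly_cN {I : α → EAInst} (h : Poly I) : UPoly (fun a => cN (I a)) :=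
  UPoly.add (UPoly.mul (UPoly.const 4) (UPoly.length (Poly.snd (Poly.snd h)))) (UPoly.const 2)

theorem upoly_cm {I : α → EAInst} (h : Poly I) : UPoly (fun a => cm (I a)) :=
  UPoly.add (UPoly.length (Poly.fst h)) (UPoly.length (Poly.fst (Poly.snd h)))

theorem poly_elsP {I : α → EAInst} (h : Poly I) : Poly (fun a => elsP (I a)) := by
  refine Poly_nub (Poly.flatMap (F := fun a v => (none :: (List.range (cN (I a))).map some).flatMap
    (fun o => [((v, false, o) : EP), (v, true, o)])) (upoly_cm h).range ?_)
  refine Poly.flatMap (F := fun (p : α × ℕ) o => [((p.2, false, o) : EP), (p.2, true, o)])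
    (Poly.cons (Poly.const none) (Poly.map (F := fun _ k => some k)
      ((upoly_cN h).range.comp (Poly.fst Poly.id)) (Poly.some (Poly.snd Poly.id)))) ?_
  have v : Poly (fun x : (α × ℕ) × Option ℕ => x.1.2) := Poly.snd (Poly.fst Poly.id)
  have o : Poly (fun x : (α × ℕ) × Option ℕ => x.2) := Poly.snd Poly.id
  exact CL.pList2 (Poly.pair v (Poly.pair (Poly.const false) o))
    (Poly.pair v (Poly.pair (Poly.const true) o))

theorem poly_comps {I : α → EAInst} (h : Poly I) : Poly (fun a => comps (I a)) :=
  Poly.append (Poly.map (F := fun _ t => (false, t)) (UPoly.length (Poly.snd (Poly.snd h))).range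
      (Poly.pair (Poly.const false) (Poly.snd Poly.id)))
    (Poly.map (F := fun _ t => (true, t)) (UPoly.length (Poly.fst h)).range
      (Poly.pair (Poly.const true) (Poly.snd Poly.id)))

theorem poly_validE {I : α → EAInst} {z : α → EQ} (h : Poly I) (hz : Poly z) :
    Poly (fun a => validE (I a) (z a)) := by
  have hm : Poly (fun a => decide ((!(z a).2.2.1, (z a).2.1) ∈ (I a).2.2.getD (z a).1.2 [])) :=
    poly_dec (Poly.decide_mem (Poly.pair (Poly.not (Poly.fst (Poly.snd (Poly.snd hz))))
      (Poly.fst (Poly.snd hz))) (Poly.getD (Poly.snd (Poly.snd h)) (Poly.snd (Poly.fst hz))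
        (Poly.const []))) fun a => by simp
  refine Poly.ite (p := fun a => (z a).1.1 = true) (poly_dec (Poly.fst (Poly.fst hz))
    fun a => Iff.rfl) (Poly.or (Poly.not (Poly.decide_eq (Poly.snd (Poly.fst hz))
      (Poly.fst (Poly.snd hz)))) (Poly.isSome (Poly.snd (Poly.snd (Poly.snd hz)))))
    (Poly.not hm)

theorem poly_elsQ {I : α → EAInst} (h : Poly I) : Poly (fun a => elsQ (I a)) := by
  refine Poly_nub (Poly.filter (p := fun a z => validE (I a) z)
    (Poly.flatMap (F := fun a c => (elsP (I a)).map (fun x => ((c, x) : EQ))) (poly_comps h)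
      (Poly.map (F := fun (p : α × (Bool × ℕ)) x => ((p.2, x) : EQ))
        ((poly_elsP h).comp (Poly.fst Poly.id))
        (Poly.pair (Poly.snd (Poly.fst Poly.id)) (Poly.snd Poly.id))))
    (poly_validE (h.comp (Poly.fst Poly.id)) (Poly.snd Poly.id)))

theorem poly_cmRed : Poly cmRed := by
  refine Poly.pair (poly_matrixOf (r := fun _ x y => decide (x = y ∨ ltEP x y))
    (poly_elsP Poly.id) ?_) (poly_matrixOf (r := fun _ x y => decide (x = y ∨ ltEQ x y))
    (poly_elsQ Poly.id) ?_)
  · have x : Poly (fun p : (EAInst × EP) × EP => p.1.2) := Poly.snd (Poly.fst Poly.id)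
    have y : Poly (fun p : (EAInst × EP) × EP => p.2) := Poly.snd Poly.id
    refine poly_dec (Poly.or (Poly.decide_eq x y) (poly_ltEP x y)) fun a => ?_
    simp
  · have x : Poly (fun p : (EAInst × EQ) × EQ => p.1.2) := Poly.snd (Poly.fst Poly.id)
    have y : Poly (fun p : (EAInst × EQ) × EQ => p.2) := Poly.snd Poly.id
    refine poly_dec (Poly.or (Poly.decide_eq x y) (poly_ltEQ x y)) fun a => ?_
    simp

end Red

/-- CHAIN MINOR is `Σ₂ᵖ`-hard. -/
theorem hardS2_chainMinor : HardS2 (fun _ => True) ChainMinor :=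
  hardS2_EA.trans poly_cmRed (fun _ _ => trivial) (fun I hI => cmRed_correct I hI)

/-! ### Membership in `Σ₂ᵖ` -/

/-- The strict order of a poset matrix, on numbers. -/
def sltB (M : List (List Bool)) (i j : ℕ) : Bool := ent M i j && !decide (i = j)

/-- The value at `i` of the map `{0, 1, ...} → {0, ..., n - 1}` coded by `u`. -/
def fval (u : List Bool) (n i : ℕ) : ℕ :=
  (((List.range n).filter (fun j => bt u (i * n + j))).head?).getD n

/-- The list coded by `v`. -/
def lval (v : List Bool) (n : ℕ) : List ℕ :=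
  ((List.range (n * n)).filter (fun x => bt v x)).map (fun x => x % n)

/-- The list is a chain. -/
def chainB (M : List (List Bool)) (l : List ℕ) : Bool :=
  allB l.length (fun i => allB l.length (fun j =>
    impB (decide (i < j)) (sltB M (l.getD i 0) (l.getD j 0))))

/-- One step of the search for a chain of `Q` mapped onto a given chain of `P`. -/
def rstep (Q : List (List Bool)) (u : List Bool) (n : ℕ) (s : Bool × List ℕ) (c : ℕ) :
    Bool × List ℕ :=
  (true, (List.range Q.length).filter (fun q => decide (fval u n q = c) &&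
    (!s.1 || s.2.any (fun q' => sltB Q q' q))))

/-- Some chain of `Q` is mapped onto the list `l`. -/
def reachB (Q : List (List Bool)) (u : List Bool) (n : ℕ) (l : List ℕ) : Bool :=
  !(l.foldl (rstep Q u n) (false, [])).1 || !(l.foldl (rstep Q u n) (false, [])).2.isEmpty

/-- The polynomial-time predicate for CHAIN MINOR. -/
def cmB (p : (List (List Bool) × List (List Bool)) × List Bool × List Bool) : Bool :=
  posetB p.1.1 && (posetB p.1.2 && (allB p.1.2.length (fun i =>
    decide (fval p.2.1 p.1.1.length i < p.1.1.length)) &&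
    impB (chainB p.1.1 (lval p.2.2 p.1.1.length))
      (reachB p.1.2 p.2.1 p.1.1.length (lval p.2.2 p.1.1.length))))

section Reach

variable {Q : List (List Bool)} {u : List Bool} {n : ℕ}

theorem getLast?_eq_some_append {α : Type} {l : List α} {a : α} :
    l.getLast? = some a ↔ ∃ l₀, l = l₀ ++ [a] := by
  constructor
  · intro h
    obtain ⟨l₀, hl₀⟩ := List.getLast?_eq_some_iff.1 h
    exact ⟨l₀, hl₀⟩
  · rintro ⟨l₀, rfl⟩
    simp

theorem reach_spec (htr : ∀ a < Q.length, ∀ b < Q.length, ∀ c < Q.length, sltB Q a b = true →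
    sltB Q b c = true → sltB Q a c = true) (l : List ℕ) (hl : l ≠ []) :
    (l.foldl (rstep Q u n) (false, [])).1 = true ∧
    ∀ q, q ∈ (l.foldl (rstep Q u n) (false, [])).2 ↔ ∃ l' : List ℕ, (∀ x ∈ l', x < Q.length) ∧
      l'.Pairwise (fun a b => sltB Q a b = true) ∧ l'.map (fval u n) = l ∧
        l'.getLast? = some q := by
  induction l using List.reverseRecOn with
  | nil => exact absurd rfl hl
  | append_singleton l c ih =>
    rw [List.foldl_append, List.foldl_cons, List.foldl_nil]
    refine ⟨rfl, fun q => ?_⟩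
    simp only [rstep, List.mem_filter, List.mem_range, Bool.and_eq_true, decide_eq_true_eq,
      Bool.or_eq_true, Bool.not_eq_true', List.any_eq_true]
    by_cases hl0 : l = []
    · subst hl0
      simp only [List.foldl_nil, List.nil_append]
      constructor
      · rintro ⟨h1, h2, _⟩
        exact ⟨[q], by simpa using h1, by simp, by simpa using h2, by simp⟩
      · rintro ⟨l', h1, h2, h3, h4⟩
        have hlen : l'.length = 1 := by
          have := congrArg List.length h3
          simpa using this
        obtain ⟨x, rfl⟩ := List.length_eq_one_iff.1 hlen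
        simp only [List.getLast?_singleton, Option.some.injEq] at h4
        subst h4
        exact ⟨h1 x (by simp), by simpa using h3, Or.inl (by simp)⟩
    · obtain ⟨ih1, ih2⟩ := ih hl0
      rw [ih1]
      simp only [Bool.true_eq_false, false_or]
      constructor
      · rintro ⟨h1, h2, q', hq', hlt⟩
        obtain ⟨l', g1, g2, g3, g4⟩ := (ih2 q').1 hq'
        obtain ⟨l₀, rfl⟩ := getLast?_eq_some_append.1 g4
        refine ⟨l₀ ++ [q'] ++ [q], ?_, ?_, ?_, by simp⟩
        · intro x hx
          rw [List.mem_append, List.mem_singleton] at hx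
          rcases hx with hx | rfl
          · exact g1 x hx
          · exact h1
        · rw [List.pairwise_append]
          refine ⟨g2, by simp, ?_⟩
          intro x hx y hy
          rw [List.mem_singleton] at hy
          subst hy
          have hx' := g1 x hx
          rw [List.mem_append, List.mem_singleton] at hx
          rcases hx with hx | rfl
          · rw [List.pairwise_append] at g2
            have h5 := g2.2.2 x hx q' (by simp)
            exact htr x hx' q' (g1 q' (by simp)) y h1 h5 hlt
          · exact hlt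
        · rw [List.map_append, g3, List.map_singleton, h2]
      · rintro ⟨l', h1, h2, h3, h4⟩
        obtain ⟨l₁, rfl⟩ := getLast?_eq_some_append.1 h4
        rw [List.map_append, List.map_singleton] at h3
        obtain ⟨h5, h6⟩ := List.append_inj' h3 (by simp)
        have h6' : fval u n q = c := by simpa using h6
        have hne : l₁ ≠ [] := by
          rintro rfl
          exact hl0 (by simpa using h5.symm)
        obtain ⟨l₀, q', rfl⟩ : ∃ l₀ q', l₁ = l₀ ++ [q'] :=
          ⟨l₁.dropLast, l₁.getLast hne, (List.dropLast_append_getLast hne).symm⟩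
        rw [List.pairwise_append] at h2
        refine ⟨h1 q (by simp), h6', q', (ih2 q').2 ⟨l₀ ++ [q'], ?_, h2.1, h5, by simp⟩,
          h2.2.2 q' (by simp) q (by simp)⟩
        intro x hx
        exact h1 x (List.mem_append_left _ hx)

theorem reachB_iff (htr : ∀ a < Q.length, ∀ b < Q.length, ∀ c < Q.length, sltB Q a b = true →
    sltB Q b c = true → sltB Q a c = true) (l : List ℕ) :
    reachB Q u n l = true ↔ ∃ l' : List ℕ, (∀ x ∈ l', x < Q.length) ∧
      l'.Pairwise (fun a b => sltB Q a b = true) ∧ l'.map (fval u n) = l := by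
  unfold reachB
  by_cases hl : l = []
  · subst hl
    simp only [List.foldl_nil, Bool.not_false, Bool.true_or, true_iff]
    exact ⟨[], by simp, by simp, rfl⟩
  · obtain ⟨h1, h2⟩ := reach_spec (u := u) (n := n) htr l hl
    rw [h1]
    simp only [Bool.not_true, Bool.false_or, Bool.not_eq_true', List.isEmpty_eq_false_iff_exists_mem]
    constructor
    · rintro ⟨q, hq⟩
      obtain ⟨l', g1, g2, g3, _⟩ := (h2 q).1 hq
      exact ⟨l', g1, g2, g3⟩
    · rintro ⟨l', g1, g2, g3⟩
      have hne : l' ≠ [] := by
        rintro rfl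
        exact hl g3.symm
      exact ⟨l'.getLast hne, (h2 _).2 ⟨l', g1, g2, g3, List.getLast?_eq_some_getLast hne⟩⟩

end Reach

theorem sltB_iff {M : List (List Bool)} {i j : Fin M.length} :
    sltB M i j = true ↔ slt M i j := by
  unfold sltB slt rel
  rw [Bool.and_eq_true, Bool.not_eq_true', decide_eq_false_iff_not]
  exact and_congr Iff.rfl (not_congr Fin.ext_iff.symm)

theorem slt_trans {M : List (List Bool)} (hM : IsPoset M) {a b c : Fin M.length}
    (h : slt M a b) (h' : slt M b c) : slt M a c := by
  refine ⟨hM.2.2.2 _ _ _ h.1 h'.1, ?_⟩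
  rintro rfl
  exact h.2 (hM.2.2.1 _ _ h.1 h'.1)

theorem chainB_iff {M : List (List Bool)} {l : List ℕ} :
    chainB M l = true ↔ l.Pairwise (fun a b => sltB M a b = true) := by
  unfold chainB
  simp only [allB_iff, impB_iff, decide_eq_true_eq]
  rw [List.pairwise_iff_getElem]
  constructor
  · intro h i j hi hj hij
    have := h i hi j hj hij
    rwa [List.getD_eq_getElem _ _ hi, List.getD_eq_getElem _ _ hj] at this
  · intro h i hi j hj hij
    rw [List.getD_eq_getElem _ _ hi, List.getD_eq_getElem _ _ hj]
    exact h i j hi hj hij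

theorem bt_range_map (L : ℕ) (p : ℕ → Bool) (x : ℕ) (hx : x < L) :
    bt ((List.range L).map p) x = p x := by
  unfold bt
  rw [List.getD_eq_getElem?_getD, List.getElem?_map, List.getElem?_range hx]
  rfl

open Classical in
/-- Coding of a map. -/
noncomputable def codeF {a n : ℕ} (L : ℕ) (f : Fin a → Fin n) : List Bool :=
  (List.range L).map (fun x => decide (∃ i : Fin a, x = i.1 * n + (f i).1))

theorem fval_codeF {a n L : ℕ} (f : Fin a → Fin n) (hL : a * n ≤ L) (i : Fin a) :
    fval (codeF L f) n i.1 = (f i).1 := by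
  classical
  have hbit : ∀ j < n, bt (codeF L f) (i.1 * n + j) = decide (j = (f i).1) := by
    intro j hj
    have hx : i.1 * n + j < L := by
      have h1 : i.1 + 1 ≤ a := i.2
      have h2 : (i.1 + 1) * n ≤ a * n := Nat.mul_le_mul_right _ h1
      have h3 : (i.1 + 1) * n = i.1 * n + n := by ring
      omega
    unfold codeF
    rw [bt_range_map _ _ _ hx, decide_eq_decide]
    constructor
    · rintro ⟨i', hi'⟩
      have hfi := (f i').2
      have e1 : i.1 = i'.1 := by
        have h1 : (i.1 * n + j) / n = i.1 := by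
          rw [mul_comm, Nat.mul_add_div (by omega), Nat.div_eq_of_lt hj, add_zero]
        have h2 : (i'.1 * n + (f i').1) / n = i'.1 := by
          rw [mul_comm, Nat.mul_add_div (by omega), Nat.div_eq_of_lt hfi, add_zero]
        rw [← h1, hi', h2]
      have e2 : i = i' := Fin.ext e1
      subst e2
      omega
    · intro h
      exact ⟨i, by rw [h]⟩
  unfold fval
  rw [List.head?_filter]
  have : (List.range n).find? (fun j => bt (codeF L f) (i.1 * n + j)) = some (f i).1 := by
    rw [List.find?_range_eq_some]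
    refine ⟨?_, List.mem_range.2 (f i).2, ?_⟩
    · rw [hbit _ (f i).2]; simp
    · intro j hj
      rw [hbit j (lt_trans hj (f i).2)]
      simp; omega
  rw [this]
  rfl

open Classical in
/-- Coding of a list. -/
noncomputable def codeL {n : ℕ} (L : ℕ) (l : List (Fin n)) : List Bool :=
  (List.range L).map (fun x => decide (∃ t : Fin l.length, x = t.1 * n + (l[t]).1))

theorem lval_codeL {n L : ℕ} (l : List (Fin n)) (hl : l.length ≤ n) (hL : n * n ≤ L) :
    lval (codeL L l) n = l.map Fin.val := by
  classical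
  have hlt : ∀ t : Fin l.length, t.1 * n + (l[t]).1 < n * n := by
    intro t
    have h1 : t.1 + 1 ≤ n := le_trans t.2 hl
    have h2 : (t.1 + 1) * n ≤ n * n := Nat.mul_le_mul_right _ h1
    have h3 : (t.1 + 1) * n = t.1 * n + n := by ring
    have h4 := (l[t]).2
    omega
  have hF : (List.range (n * n)).filter (fun x => bt (codeL L l) x) =
      List.ofFn (fun t : Fin l.length => t.1 * n + (l[t]).1) := by
    refine List.Pairwise.eq_of_mem_iff (r := (· < ·)) ?_ ?_ ?_
    · exact List.Pairwise.filter _ List.pairwise_lt_range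
    · rw [List.pairwise_ofFn]
      intro i j hij
      have h1 : i.1 + 1 ≤ j.1 := hij
      have h2 : (i.1 + 1) * n ≤ j.1 * n := Nat.mul_le_mul_right _ h1
      have h3 : (i.1 + 1) * n = i.1 * n + n := by ring
      have h4 := (l[i]).2
      omega
    · intro x
      rw [List.mem_filter, List.mem_range, List.mem_ofFn]
      constructor
      · rintro ⟨hx, hb⟩
        unfold codeL at hb
        rw [bt_range_map _ _ _ (lt_of_lt_of_le hx hL), decide_eq_true_iff] at hb
        obtain ⟨t, ht⟩ := hb
        exact ⟨t, ht.symm⟩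
      · rintro ⟨t, rfl⟩
        refine ⟨hlt t, ?_⟩
        unfold codeL
        rw [bt_range_map _ _ _ (lt_of_lt_of_le (hlt t) hL), decide_eq_true_iff]
        exact ⟨t, rfl⟩
  unfold lval
  rw [hF, List.map_ofFn]
  have : ((fun x => x % n) ∘ fun t : Fin l.length => t.1 * n + (l[t]).1) =
      fun t : Fin l.length => (l[t]).1 := by
    funext t
    simp only [Function.comp]
    rw [mul_comm, Nat.mul_add_mod, Nat.mod_eq_of_lt (l[t]).2]
  rw [this]
  apply List.ext_getElem
  · simp
  · intro i h1 h2
    simp

theorem lval_lt {v : List Bool} {n : ℕ} : ∀ x ∈ lval v n, x < n := by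
  intro x hx
  unfold lval at hx
  rw [List.mem_map] at hx
  obtain ⟨y, hy, rfl⟩ := hx
  rw [List.mem_filter, List.mem_range] at hy
  have hn : 0 < n := by
    rcases Nat.eq_zero_or_pos n with h | h
    · rw [h] at hy; omega
    · exact h
  exact Nat.mod_lt _ hn

theorem exists_fin_list {n : ℕ} (l : List ℕ) (hl : ∀ x ∈ l, x < n) :
    ∃ l' : List (Fin n), l'.map Fin.val = l := by
  refine ⟨l.pmap (fun x hx => ⟨x, hx⟩) hl, ?_⟩
  rw [List.map_pmap]
  simp

theorem chainMinor_iff (I : List (List Bool) × List (List Bool)) :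
    ChainMinor I ↔ ∃ u : List Bool, u.length = (Polynomial.X ^ 2 : Polynomial ℕ).eval (sz I) ∧
      ∀ v : List Bool, v.length = (Polynomial.X ^ 2 : Polynomial ℕ).eval (sz I) →
        cmB (I, u, v) = true := by
  classical
  have e1 : (Polynomial.X ^ 2 : Polynomial ℕ).eval (sz I) = sz I * sz I := by
    simp [pow_two]
  rw [e1]
  obtain ⟨P, Q⟩ := I
  have hP : P.length ≤ sz (P, Q) := by
    have := length_lt_sz P
    rw [sz_pair]; omega
  have hQ : Q.length ≤ sz (P, Q) := by
    have := length_lt_sz Q
    rw [sz_pair]; omega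
  set L := sz (P, Q) * sz (P, Q) with hLdef
  have hL1 : P.length * P.length ≤ L := Nat.mul_le_mul hP hP
  have hL2 : Q.length * P.length ≤ L := Nat.mul_le_mul hQ hP
  have htrans : IsPoset Q → ∀ a < Q.length, ∀ b < Q.length, ∀ c < Q.length, sltB Q a b = true →
      sltB Q b c = true → sltB Q a c = true := by
    intro hPQ a ha b hb c hc h1 h2
    have h1' : slt Q ⟨a, ha⟩ ⟨b, hb⟩ := sltB_iff.1 h1
    have h2' : slt Q ⟨b, hb⟩ ⟨c, hc⟩ := sltB_iff.1 h2
    exact sltB_iff.2 (slt_trans hPQ h1' h2')
  unfold cmB
  simp only [Bool.and_eq_true, posetB_iff, allB_iff, decide_eq_true_eq, impB_iff, chainB_iff]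
  constructor
  · rintro ⟨h1, h2, f, hf⟩
    refine ⟨codeF L f, by simp [codeF], fun v _ => ⟨h1, h2, ?_, ?_⟩⟩
    · intro i hi
      rw [fval_codeF f hL2 ⟨i, hi⟩]
      exact (f ⟨i, hi⟩).2
    · intro hchain
      obtain ⟨l, hl⟩ := exists_fin_list (lval v P.length) lval_lt
      rw [← hl, List.pairwise_map] at hchain
      obtain ⟨l', g1, g2⟩ := hf l (hchain.imp (fun h => sltB_iff.1 h))
      rw [reachB_iff (htrans h2)]
      refine ⟨l'.map Fin.val, ?_, ?_, ?_⟩
      · intro x hx
        rw [List.mem_map] at hx
        obtain ⟨y, _, rfl⟩ := hx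
        exact y.2
      · rw [List.pairwise_map]
        exact g1.imp (fun h => sltB_iff.2 h)
      · rw [List.map_map, ← hl, ← g2, List.map_map]
        apply List.map_congr_left
        intro x _
        exact fval_codeF f hL2 x
  · rintro ⟨u, hu, hall⟩
    obtain ⟨h1, h2, h3, _⟩ := hall (List.replicate L false) (by simp)
    refine ⟨h1, h2, fun i => ⟨fval u P.length i, h3 i i.2⟩, fun l hl => ?_⟩
    have hnd : l.Nodup := by
      unfold List.Nodup
      refine hl.imp ?_
      intro a b h heq
      exact h.2 heq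
    have hlen : l.length ≤ P.length := by
      have := hnd.length_le_card
      simpa using this
    obtain ⟨_, _, _, h4⟩ := hall (codeL L l) (by simp [codeL])
    rw [lval_codeL l hlen hL1, List.pairwise_map, reachB_iff (htrans h2)] at h4
    obtain ⟨l', g1, g2, g3⟩ := h4 (hl.imp (fun h => sltB_iff.2 h))
    obtain ⟨l'', hl''⟩ := exists_fin_list l' g1
    refine ⟨l'', ?_, ?_⟩
    · rw [← hl'', List.pairwise_map] at g2
      exact g2.imp (fun h => sltB_iff.1 h)
    · apply List.map_injective_iff.2 Fin.val_injective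
      rw [List.map_map, ← g3, ← hl'', List.map_map]
      rfl

section Comp2

variable {α : Type} [TEnc α]

theorem poly_sltB {M : α → List (List Bool)} {i j : α → ℕ} (hM : Poly M) (hi : Poly i)
    (hj : Poly j) : Poly (fun a => sltB (M a) (i a) (j a)) :=
  Poly.and (poly_ent hM hi hj) (Poly.not (Poly.decide_eq hi hj))

theorem poly_fval {u : α → List Bool} {n i : α → ℕ} (hu : Poly u) (hn : UPoly n) (hi : Poly i) :
    Poly (fun a => fval (u a) (n a) (i a)) := by
  have h1 : Poly (fun a => ((List.range (n a)).filter (fun j => bt (u a) (i a * n a + j))).head?) :=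
    Poly.head? (Poly.filter (p := fun a j => bt (u a) (i a * n a + j)) hn.range
      (poly_bt (hu.comp (Poly.fst Poly.id)) (Poly.add (Poly.mul (hi.comp (Poly.fst Poly.id))
        (hn.toPoly.comp (Poly.fst Poly.id))) (Poly.snd Poly.id))))
  refine (Poly.optCases (h := fun _ b => b) h1 hn.toPoly (Poly.snd Poly.id)).congr fun a => ?_
  unfold fval
  cases ((List.range (n a)).filter (fun j => bt (u a) (i a * n a + j))).head? <;> rfl

theorem poly_lval {v : α → List Bool} {n : α → ℕ} (hv : Poly v) (hn : UPoly n) :
    Poly (fun a => lval (v a) (n a)) :=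
  Poly.map (F := fun a x => x % n a) (Poly.filter (p := fun a x => bt (v a) x)
    (UPoly.mul hn hn).range (poly_bt (hv.comp (Poly.fst Poly.id)) (Poly.snd Poly.id)))
    (Poly.mod (Poly.snd Poly.id) (hn.toPoly.comp (Poly.fst Poly.id)))

theorem poly_chainB {M : α → List (List Bool)} {l : α → List ℕ} (hM : Poly M) (hl : Poly l) :
    Poly (fun a => chainB (M a) (l a)) := by
  have hl1 : Poly (fun x : α × ℕ => l x.1) := hl.comp (Poly.fst Poly.id)
  have hl2 : Poly (fun x : (α × ℕ) × ℕ => l x.1.1) := hl1.comp (Poly.fst Poly.id)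
  have i : Poly (fun x : (α × ℕ) × ℕ => x.1.2) := Poly.snd (Poly.fst Poly.id)
  have j : Poly (fun x : (α × ℕ) × ℕ => x.2) := Poly.snd Poly.id
  refine poly_allB (UPoly.length hl) (poly_allB (p := fun (x : α × ℕ) j =>
    impB (decide (x.2 < j)) (sltB (M x.1) ((l x.1).getD x.2 0) ((l x.1).getD j 0)))
    (UPoly.length hl1) ?_)
  exact poly_impB (Poly.decide_lt i j) (poly_sltB (hM.comp (Poly.fst (Poly.fst Poly.id)))
    (Poly.getD hl2 i (Poly.const 0)) (Poly.getD hl2 j (Poly.const 0)))

theorem sz_filter_le {l : List ℕ} {p : ℕ → Bool} : sz (l.filter p) ≤ sz l := by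
  induction l with
  | nil => simp
  | cons a l ih =>
    rw [List.filter_cons]
    split_ifs
    · simp; omega
    · simp; omega

theorem sz_rstep_le (Q : List (List Bool)) (u : List Bool) (n : ℕ) (s : Bool × List ℕ) (c : ℕ) :
    sz (rstep Q u n s c) ≤ sz (List.range Q.length) + 4 := by
  unfold rstep
  rw [sz_pair, sz_true]
  have := sz_filter_le (l := List.range Q.length) (p := fun q => decide (fval u n q = c) &&
    (!s.1 || s.2.any (fun q' => sltB Q q' q)))
  omega

theorem poly_reachB {Q : α → List (List Bool)} {u : α → List Bool} {n : α → ℕ} {l : α → List ℕ}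
    (hQ : Poly Q) (hu : Poly u) (hn : UPoly n) (hl : Poly l) :
    Poly (fun a => reachB (Q a) (u a) (n a) (l a)) := by
  have hr : Poly (fun a => List.range (Q a).length) := Poly.range_length hQ
  obtain ⟨r, hr'⟩ := hr.sz_le
  have hfold : Poly (fun a => (l a).foldl (rstep (Q a) (u a) (n a)) (false, [])) := by
    refine Poly.foldl (s := fun _ : α => ((false, []) : Bool × List ℕ))
      (F := fun a s c => rstep (Q a) (u a) (n a) s c) hl (Poly.const _) ?_
      (r + Polynomial.C 5) ?_
    · -- the step
      have hA : Poly (fun x : α × (Bool × List ℕ) × ℕ => x.1) := Poly.fst Poly.id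
      have hQ1 : Poly (fun x : α × (Bool × List ℕ) × ℕ => Q x.1) := hQ.comp hA
      refine Poly.pair (Poly.const true) ?_
      refine Poly.filter (p := fun (x : α × (Bool × List ℕ) × ℕ) q =>
        decide (fval (u x.1) (n x.1) q = x.2.2) && (!x.2.1.1 || x.2.1.2.any
          (fun q' => sltB (Q x.1) q' q))) (Poly.range_length hQ1) ?_
      have hB : Poly (fun y : (α × (Bool × List ℕ) × ℕ) × ℕ => y.1.1) :=
        Poly.fst (Poly.fst Poly.id)
      have hq : Poly (fun y : (α × (Bool × List ℕ) × ℕ) × ℕ => y.2) := Poly.snd Poly.id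
      have hs : Poly (fun y : (α × (Bool × List ℕ) × ℕ) × ℕ => y.1.2.1) :=
        Poly.fst (Poly.snd (Poly.fst Poly.id))
      refine Poly.and (Poly.decide_eq (poly_fval (hu.comp hB) (hn.comp hB) hq)
        (Poly.snd (Poly.snd (Poly.fst Poly.id)))) (Poly.or (Poly.not (Poly.fst hs)) ?_)
      exact Poly.any (p := fun (y : (α × (Bool × List ℕ) × ℕ) × ℕ) q' => sltB (Q y.1.1) q' y.2)
        (Poly.snd hs) (poly_sltB ((hQ.comp hB).comp (Poly.fst Poly.id)) (Poly.snd Poly.id)
          (hq.comp (Poly.fst Poly.id)))
    · intro a k _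
      have h1 := hr' a
      have h2 := sz_pos (List.range (Q a).length)
      simp only [Polynomial.eval_add, Polynomial.eval_C]
      rcases List.eq_nil_or_concat ((l a).take k) with h | ⟨l₀, c, h⟩
      · rw [h]
        simp
      · rw [h, List.concat_eq_append, List.foldl_append, List.foldl_cons, List.foldl_nil]
        have h3 := sz_rstep_le (Q a) (u a) (n a)
          (List.foldl (rstep (Q a) (u a) (n a)) (false, []) l₀) c
        exact h3.trans (by omega)
  exact Poly.or (Poly.not (Poly.fst hfold)) (Poly.not (Poly.isEmpty (Poly.snd hfold)))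

theorem poly_cmB : Poly cmB := by
  have hP : Poly (fun p : (List (List Bool) × List (List Bool)) × List Bool × List Bool =>
      p.1.1) := Poly.fst (Poly.fst Poly.id)
  have hQ : Poly (fun p : (List (List Bool) × List (List Bool)) × List Bool × List Bool =>
      p.1.2) := Poly.snd (Poly.fst Poly.id)
  have hu : Poly (fun p : (List (List Bool) × List (List Bool)) × List Bool × List Bool =>
      p.2.1) := Poly.fst (Poly.snd Poly.id)
  have hv : Poly (fun p : (List (List Bool) × List (List Bool)) × List Bool × List Bool =>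
      p.2.2) := Poly.snd (Poly.snd Poly.id)
  have hn : UPoly (fun p : (List (List Bool) × List (List Bool)) × List Bool × List Bool =>
      p.1.1.length) := UPoly.length hP
  refine Poly.and (poly_posetB hP) (Poly.and (poly_posetB hQ) (Poly.and ?_ ?_))
  · refine poly_allB (p := fun p i => decide (fval p.2.1 p.1.1.length i < p.1.1.length))
      (UPoly.length hQ) ?_
    have hf : Poly (fun x : ((List (List Bool) × List (List Bool)) × List Bool × List Bool) × ℕ =>
      x.1) := Poly.fst Poly.id
    exact Poly.decide_lt (poly_fval (hu.comp hf) (hn.comp hf) (Poly.snd Poly.id))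
      (hn.toPoly.comp hf)
  · exact poly_impB (poly_chainB hP (poly_lval hv hn))
      (poly_reachB hQ hu hn (poly_lval hv hn))

/-- CHAIN MINOR is in `Σ₂ᵖ`. -/
theorem inSigma2P_chainMinor : InSigma2P ChainMinor :=
  inSigma2P_of poly_cmB (Polynomial.X ^ 2) chainMinor_iff

end Comp2

end Pool.Agent.NPC.H596
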