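import Pool.Agent.H596R2.EndRed

/-!
# The reduction from counting satisfying assignments to counting self-maps: main identity and
computability
-/

namespace Pool.Agent.NPC.H596

open Pool.Agent.H596R2

/-- Satisfying assignments of the occurring variables, as sets of true variables. -/
theorem card_satSets (φ : List (List (Bool × ℕ))) :
    Nat.card {S : Finset ℕ // S ⊆ (φ.flatten.map Prod.snd).toFinset ∧
      ∀ c ∈ φ, ∃ l ∈ c, l.1 = decide (l.2 ∈ S)} = Nat.card (Sats (SC φ)) := by
  classical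
  symm
  have hv : ∀ v, v ∈ vlist φ ↔ v ∈ (φ.flatten.map Prod.snd).toFinset := by
    intro v
    simp [vlist]
  let F : Sats (SC φ) → {S : Finset ℕ // S ⊆ (φ.flatten.map Prod.snd).toFinset ∧
      ∀ c ∈ φ, ∃ l ∈ c, l.1 = decide (l.2 ∈ S)} := fun σ =>
    ⟨(Finset.univ.filter (fun v : VT φ => σ.1 v = true)).image Subtype.val, by
      constructor
      · intro v hvS
        rw [Finset.mem_image] at hvS
        obtain ⟨w, _, rfl⟩ := hvS
        exact (hv _).1 w.2
      · intro c hc
        obtain ⟨i, hi, rfl⟩ := List.getElem_of_mem hc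
        obtain ⟨a, ha, ha'⟩ := σ.2 ⟨i, hi⟩
        refine ⟨(a.1, a.2.1), ha, ?_⟩
        simp only
        rw [← ha']
        cases hσ : σ.1 a.2
        · symm
          rw [decide_eq_false_iff_not, Finset.mem_image]
          rintro ⟨w, hw, hw'⟩
          rw [Subtype.ext hw'] at hw
          simp [hσ] at hw
        · symm
          rw [decide_eq_true_iff, Finset.mem_image]
          exact ⟨a.2, by simp [hσ], rfl⟩⟩
  refine Nat.card_eq_of_bijective F ⟨?_, ?_⟩
  · intro σ τ h
    apply Subtype.ext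
    funext v
    have h1 : ∀ v : VT φ, v.1 ∈ (F σ).1 ↔ σ.1 v = true := by
      intro v
      simp only [F, Finset.mem_image, Finset.mem_filter, Finset.mem_univ, true_and]
      constructor
      · rintro ⟨w, hw, hw'⟩
        rwa [Subtype.ext hw'] at hw
      · intro h
        exact ⟨v, h, rfl⟩
    have h2 : ∀ v : VT φ, v.1 ∈ (F τ).1 ↔ τ.1 v = true := by
      intro v
      simp only [F, Finset.mem_image, Finset.mem_filter, Finset.mem_univ, true_and]
      constructor
      · rintro ⟨w, hw, hw'⟩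
        rwa [Subtype.ext hw'] at hw
      · intro h
        exact ⟨v, h, rfl⟩
    have h3 := (h1 v).symm.trans ((by rw [h] : v.1 ∈ (F σ).1 ↔ v.1 ∈ (F τ).1).trans (h2 v))
    exact Bool.eq_iff_iff.2 h3
  · rintro ⟨S, hS1, hS2⟩
    refine ⟨⟨fun v => decide (v.1 ∈ S), fun c => ?_⟩, ?_⟩
    · obtain ⟨l, hl, hl'⟩ := hS2 φ[c] (List.getElem_mem _)
      have hlv : l.2 ∈ vlist φ := by
        rw [hv, List.mem_toFinset, List.mem_map]
        exact ⟨l, List.mem_flatten.2 ⟨_, List.getElem_mem _, hl⟩, rfl⟩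
      exact ⟨(l.1, ⟨l.2, hlv⟩), hl, hl'.symm⟩
    · apply Subtype.ext
      ext v
      simp only [F, Finset.mem_image, Finset.mem_filter, Finset.mem_univ, true_and,
        decide_eq_true_eq]
      constructor
      · rintro ⟨w, hw, rfl⟩
        exact hw
      · intro hvS
        exact ⟨⟨v, (hv v).2 (hS1 hvS)⟩, hvS, rfl⟩

section Identity

variable (φ : List (List (Bool × ℕ)))

theorem isPoset_mat1 : IsPoset (mat1 φ) :=
  (countEnd_of (le := leEl φ) (nub_nodup _) (PO_AB (PO_R2 _)) (g1 φ) (g1_injective φ)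
    (mem_els1 φ) (ord1_iff φ)).1

theorem countEnd_mat1 : countEnd (mat1 φ) = Nat.card (Hom (AB (ord0 φ)) (AB (ord0 φ))) :=
  (countEnd_of (le := leEl φ) (nub_nodup _) (PO_AB (PO_R2 _)) (g1 φ) (g1_injective φ)
    (mem_els1 φ) (ord1_iff φ)).2

theorem countEnd_mat2 : countEnd (mat2 φ) =
    Nat.card (Hom (DU (AB (ord0 φ)) B2) (DU (AB (ord0 φ)) B2)) :=
  (countEnd_of (le := leEl φ) (nub_nodup _) (PO_DU (PO_AB (PO_R2 _)) PO_B2) (g2 φ)
    (g2_injective φ) (mem_els2 φ) (ord2_iff φ)).2

theorem relPairs_mat1 : relPairs (mat1 φ) =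
    Nat.card {p : Option (Q0 φ) × Option (Q0 φ) // AB (ord0 φ) p.1 p.2} :=
  relPairs_of (le := leEl φ) (nub_nodup _) (g1 φ) (g1_injective φ) (mem_els1 φ) (ord1_iff φ)

/-- Satisfying assignments are counted by self-maps of two posets. -/
theorem satCount_eq : Nat.card (Sats (SC φ)) =
    ((countEnd (mat2 φ) / (relPairs (mat1 φ) + 3) - countEnd (mat1 φ) - 1) % 2 ^ pK φ) /
      2 ^ (pM φ * pN φ) := by
  have hR : ∀ a, AB (ord0 φ) a a := (PO_AB (PO_R2 _)).1
  have h1 := card_end_DU hR none (fun a => trivial)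
  rw [countEnd_mat1, countEnd_mat2, h1, relPairs_mat1, Nat.mul_div_cancel _ (by omega),
    Nat.add_sub_cancel_left, card_AB_B2, Nat.add_sub_cancel]
  exact (decode (SC φ) (pN φ) (pK φ) (pM φ) (card_VT φ).symm rfl rfl).symm

end Identity

/-! ### Computability -/

section Comp

variable {α : Type} [TEnc α]

/-- Powers of two with a small exponent. -/
theorem poly_two_pow {n : α → ℕ} (hn : UPoly n) : Poly (fun a => 2 ^ n a) := by
  have h1 : Poly (fun a => List.replicate (n a) false ++ [true]) := by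
    refine Poly.append ?_ (Poly.const [true])
    refine (Poly.map (F := fun _ _ => false) hn.range (Poly.const false)).congr fun a => ?_
    rw [List.map_const', List.length_range]
  refine (Poly.valBits h1).congr fun a => ?_
  rw [valB_replicate_false]
  simp

theorem poly_vlist {φ : α → List (List (Bool × ℕ))} (h : Poly φ) : Poly (fun a => vlist (φ a)) :=
  Poly_nub (Poly.map (F := fun _ p => p.2) (Poly.flatten h) (Poly.snd (Poly.snd Poly.id)))

theorem poly_lits {φ : α → List (List (Bool × ℕ))} (h : Poly φ) : Poly (fun a => lits (φ a)) :=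
  Poly.flatMap (F := fun _ v => [(true, v), (false, v)]) (poly_vlist h)
    (Poly.cons (Poly.pair (Poly.const true) (Poly.snd Poly.id))
      (Poly.cons (Poly.pair (Poly.const false) (Poly.snd Poly.id)) (Poly.const [])))

theorem upoly_pN {φ : α → List (List (Bool × ℕ))} (h : Poly φ) : UPoly (fun a => pN (φ a)) :=
  UPoly.length (poly_vlist h)

theorem upoly_pM {φ : α → List (List (Bool × ℕ))} (h : Poly φ) : UPoly (fun a => pM (φ a)) :=
  UPoly.add (UPoly.mul (UPoly.const 2) (upoly_pN h)) (UPoly.const 1)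

theorem upoly_pK {φ : α → List (List (Bool × ℕ))} (h : Poly φ) : UPoly (fun a => pK (φ a)) :=
  UPoly.add (UPoly.add (UPoly.mul (UPoly.const 2) (upoly_pN h))
    (UPoly.mul (upoly_pM h) (upoly_pN h))) (UPoly.const 1)

theorem poly_el {t i k : α → ℕ} {l : α → Bool × ℕ} (ht : Poly t) (hl : Poly l) (hi : Poly i)
    (hk : Poly k) : Poly (fun a => ((t a, l a, i a, k a) : El)) :=
  Poly.pair ht (Poly.pair hl (Poly.pair hi hk))

theorem poly_els1 {φ : α → List (List (Bool × ℕ))} (h : Poly φ) : Poly (fun a => els1 (φ a)) := by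
  refine Poly_nub (Poly.cons (Poly.const _) (Poly.append ?_ (Poly.append ?_ (Poly.append ?_ ?_))))
  · exact Poly.map (F := fun _ a => ((1, a, 0, 0) : El)) (poly_lits h)
      (poly_el (Poly.const 1) (Poly.snd Poly.id) (Poly.const 0) (Poly.const 0))
  · refine Poly.flatMap (F := fun a v => (List.range (pK (φ a))).map
      (fun k => ((2, (false, 0), v, k) : El))) (poly_vlist h) ?_
    exact Poly.map (F := fun (p : α × ℕ) k => ((2, (false, 0), p.2, k) : El))
      ((upoly_pK h).range.comp (Poly.fst Poly.id))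
      (poly_el (Poly.const 2) (Poly.const _) (Poly.snd (Poly.fst Poly.id)) (Poly.snd Poly.id))
  · refine Poly.flatMap (F := fun a c => (List.range (pK (φ a))).map
      (fun k => ((3, (false, 0), c, k) : El))) (Poly.range_length h) ?_
    exact Poly.map (F := fun (p : α × ℕ) k => ((3, (false, 0), p.2, k) : El))
      ((upoly_pK h).range.comp (Poly.fst Poly.id))
      (poly_el (Poly.const 3) (Poly.const _) (Poly.snd (Poly.fst Poly.id)) (Poly.snd Poly.id))
  · refine Poly.flatMap (F := fun a l => (List.range (pM (φ a))).map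
      (fun k => ((4, l, 0, k) : El))) (poly_lits h) ?_
    exact Poly.map (F := fun (p : α × (Bool × ℕ)) k => ((4, p.2, 0, k) : El))
      ((upoly_pM h).range.comp (Poly.fst Poly.id))
      (poly_el (Poly.const 4) (Poly.snd (Poly.fst Poly.id)) (Poly.const 0) (Poly.snd Poly.id))

theorem poly_els2 {φ : α → List (List (Bool × ℕ))} (h : Poly φ) : Poly (fun a => els2 (φ a)) :=
  Poly_nub (Poly.cons (Poly.const _) (Poly.cons (Poly.const _) (poly_els1 h)))

/-- A decidable predicate computed by a Boolean function. -/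
theorem poly_dec {p : α → Prop} [DecidablePred p] {b : α → Bool} (hb : Poly b)
    (h : ∀ a, b a = true ↔ p a) : Poly (fun a => decide (p a)) :=
  hb.congr fun a => by
    rw [Bool.eq_iff_iff, decide_eq_true_iff]
    exact h a

theorem poly_leEl {φ : α → List (List (Bool × ℕ))} {x y : α → El} (h : Poly φ) (hx : Poly x)
    (hy : Poly y) : Poly (fun a => decide (leEl (φ a) (x a) (y a))) := by
  have hx1 : Poly (fun a => (x a).1) := Poly.fst hx
  have hx2 : Poly (fun a => (x a).2.1) := Poly.fst (Poly.snd hx)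
  have hy1 : Poly (fun a => (y a).1) := Poly.fst hy
  have hy2 : Poly (fun a => (y a).2.1) := Poly.fst (Poly.snd hy)
  have hy3 : Poly (fun a => (y a).2.2.1) := Poly.fst (Poly.snd (Poly.snd hy))
  have hc : Poly (fun a => (φ a).getD (y a).2.2.1 []) := Poly.getD h hy3 (Poly.const [])
  refine poly_dec (Poly.or (Poly.decide_eq hx hy) (Poly.or
    (Poly.and (Poly.decide_eq hx1 (Poly.const 0)) (Poly.decide_le hy1 (Poly.const 4)))
    (Poly.or (Poly.and (Poly.decide_eq hx1 (Poly.const 1)) (Poly.or
      (Poly.and (Poly.decide_eq hy1 (Poly.const 2)) (Poly.decide_eq (Poly.snd hx2) hy3))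
      (Poly.or
        (Poly.and (Poly.decide_eq hy1 (Poly.const 3)) (Poly.decide_mem hx2 hc))
        (Poly.and (Poly.decide_eq hy1 (Poly.const 4)) (Poly.decide_eq hx2 hy2)))))
    (Poly.and (Poly.decide_eq hx1 (Poly.const 5)) (Poly.decide_eq hy1 (Poly.const 6)))))) fun a => ?_
  simp only [Bool.or_eq_true, Bool.and_eq_true, decide_eq_true_eq, leEl]

theorem poly_matrixOf {β : Type} [TEnc β] {l : α → List β} {r : α → β → β → Bool} (hl : Poly l)
    (hr : Poly (fun p : (α × β) × β => r p.1.1 p.1.2 p.2)) :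
    Poly (fun a => matrixOf (l a) (r a)) :=
  Poly.map (F := fun a x => (l a).map (fun y => r a x y)) hl
    (Poly.map (F := fun (p : α × β) y => r p.1 p.2 y) (hl.comp (Poly.fst Poly.id)) hr)

theorem poly_mat1 {φ : α → List (List (Bool × ℕ))} (h : Poly φ) : Poly (fun a => mat1 (φ a)) :=
  poly_matrixOf (r := fun a x y => decide (leEl (φ a) x y)) (poly_els1 h)
    (poly_leEl (h.comp (Poly.fst (Poly.fst Poly.id))) (Poly.snd (Poly.fst Poly.id))
      (Poly.snd Poly.id))

theorem poly_mat2 {φ : α → List (List (Bool × ℕ))} (h : Poly φ) : Poly (fun a => mat2 (φ a)) :=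
  poly_matrixOf (r := fun a x y => decide (leEl (φ a) x y)) (poly_els2 h)
    (poly_leEl (h.comp (Poly.fst (Poly.fst Poly.id))) (Poly.snd (Poly.fst Poly.id))
      (Poly.snd Poly.id))

theorem poly_relPairs {M : α → List (List Bool)} (h : Poly M) : Poly (fun a => relPairs (M a)) :=
  Poly.length (Poly.filter (p := fun _ b => b) (Poly.flatten h) (Poly.snd Poly.id))

/-- The number of satisfying assignments, from the numbers of self-maps of the two posets. -/
def recover (φ : List (List (Bool × ℕ))) (e1 e2 : ℕ) : ℕ :=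
  ((e2 / (relPairs (mat1 φ) + 3) - e1 - 1) % 2 ^ pK φ) / 2 ^ (pM φ * pN φ)

theorem poly_recover {φ : α → List (List (Bool × ℕ))} {e1 e2 : α → ℕ} (h : Poly φ) (h1 : Poly e1)
    (h2 : Poly e2) : Poly (fun a => recover (φ a) (e1 a) (e2 a)) :=
  Poly.div (Poly.mod (Poly.sub (Poly.sub (Poly.div h2 (Poly.add (poly_relPairs (poly_mat1 h))
    (Poly.const 3))) h1) (Poly.const 1)) (poly_two_pow (upoly_pK h)))
    (poly_two_pow (UPoly.mul (upoly_pM h) (upoly_pN h)))

end Comp

end Pool.Agent.NPC.H596
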