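import Pool.Agent.H596R2.Sigma2Base

/-!
# A `Σ₂ᵖ`-hard problem: `∃∀`-DNF
-/

namespace Pool.Agent.NPC.S2

open Turing CL

/-- The negation of a conjunctive normal form, as a disjunctive normal form. -/
def negDNF {V : Type} (G : List (List (Bool × V))) : List (List (Bool × V)) :=
  G.map (fun c => c.map (fun l => (!l.1, l.2)))

theorem negDNF_iff {V : Type} {G : List (List (Bool × V))} {τ : V → Bool} :
    (∃ t ∈ negDNF G, ∀ l ∈ t, τ l.2 = l.1) ↔ ¬ Holds τ G := by
  unfold negDNF Holds
  push Not
  constructor
  · rintro ⟨t, ht, h⟩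
    rw [List.mem_map] at ht
    obtain ⟨c, hc, rfl⟩ := ht
    refine ⟨c, hc, fun l hl => ?_⟩
    have := h (!l.1, l.2) (List.mem_map.2 ⟨l, hl, rfl⟩)
    simp only at this
    rw [this]
    cases l.1 <;> simp
  · rintro ⟨c, hc, h⟩
    refine ⟨_, List.mem_map.2 ⟨c, hc, rfl⟩, ?_⟩
    intro l hl
    rw [List.mem_map] at hl
    obtain ⟨l', hl', rfl⟩ := hl
    have := h l' hl'
    simp only
    cases h1 : l'.1 <;> cases h2 : τ l'.2 <;> simp_all

/-- Truth of `∃ Y ∀ X ⋁ t`, for terms over variables `inl i` (existential) and `inr u`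
(universal); the literal `(b, v)` holds iff `v` has the value `b`. -/
def EAS {U : Type} (D : List (List (Bool × (ℕ ⊕ U)))) : Prop :=
  ∃ Y : ℕ → Bool, ∀ X : U → Bool, ∃ t ∈ D, ∀ l ∈ t, Sum.elim Y X l.2 = l.1

/-- The value of variable `v`: the first `s` variables are given by `Y`, the others by `X`. -/
def mix (s : ℕ) (Y X : ℕ → Bool) (v : ℕ) : Bool := if v < s then Y v else X v

/-- The problem `∃∀`-DNF: an instance consists of two numbers `s`, `n` in unary and a list of
terms with variables `0, ..., s + n - 1`; the first `s` variables are existential and the others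
universal. A literal `(b, v)` holds iff `v` has the value `b`. -/
def EA (I : List Unit × List Unit × List (List (Bool × ℕ))) : Prop :=
  ∃ Y : ℕ → Bool, ∀ X : ℕ → Bool, ∃ t ∈ I.2.2, ∀ l ∈ t, mix I.1.length Y X l.2 = l.1

/-- The promise: all variables are in the range `0, ..., s + n - 1`, and `n` is positive. -/
def EAPr (I : List Unit × List Unit × List (List (Bool × ℕ))) : Prop :=
  0 < I.2.1.length ∧ ∀ t ∈ I.2.2, ∀ l ∈ t, l.2 < I.1.length + I.2.1.length

section Compact

variable {U : Type}

/-- The universal variables. -/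
def uvars (D : List (List (Bool × (ℕ ⊕ U)))) : List U :=
  D.flatten.flatMap (fun l => Sum.elim (fun _ => []) (fun u => [u]) l.2)

theorem mem_uvars {D : List (List (Bool × (ℕ ⊕ U)))} {t} (ht : t ∈ D) {b : Bool} {u : U}
    (hl : (b, Sum.inr u) ∈ t) : u ∈ uvars D := by
  unfold uvars
  rw [List.mem_flatMap]
  exact ⟨_, List.mem_flatten.2 ⟨t, ht, hl⟩, by simp⟩

/-- Renaming of a literal. -/
noncomputable def ren [TEnc U] (s : ℕ) (vs : List U) (l : Bool × (ℕ ⊕ U)) : Bool × ℕ :=
  (l.1, Sum.elim (fun i => i) (fun u => s + index vs u) l.2)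

/-- Renaming all variables by numbers. -/
noncomputable def compact [TEnc U] (s : List Unit) (D : List (List (Bool × (ℕ ⊕ U)))) :
    List Unit × List Unit × List (List (Bool × ℕ)) :=
  (s, () :: (uvars D).map (fun _ => ()), D.map (fun t => t.map (ren s.length (uvars D))))

theorem index_lt {vs : List U} {u : U} (h : u ∈ vs) : index vs u < vs.length := by
  have h1 := getElem?_index h
  by_contra hlt
  rw [List.getElem?_eq_none (by omega)] at h1
  simp at h1

variable [TEnc U]

theorem compact_pr {s : List Unit} {D : List (List (Bool × (ℕ ⊕ U)))}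
    (hD : ∀ t ∈ D, ∀ l ∈ t, ∀ i, l.2 = Sum.inl i → i < s.length) : EAPr (compact s D) := by
  refine ⟨by simp [compact], ?_⟩
  intro t ht l hl
  simp only [compact, List.length_cons, List.length_map] at ht ⊢
  rw [List.mem_map] at ht
  obtain ⟨t', ht', rfl⟩ := ht
  rw [List.mem_map] at hl
  obtain ⟨⟨b, v⟩, hl', rfl⟩ := hl
  cases v with
  | inl i =>
    have := hD t' ht' _ hl' i rfl
    simp only [ren, Sum.elim_inl]
    omega
  | inr u =>
    have := index_lt (mem_uvars ht' hl')
    simp only [ren, Sum.elim_inr]
    omega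

theorem compact_iff {s : List Unit} {D : List (List (Bool × (ℕ ⊕ U)))}
    (hD : ∀ t ∈ D, ∀ l ∈ t, ∀ i, l.2 = Sum.inl i → i < s.length) :
    EAS D ↔ EA (compact s D) := by
  have key : ∀ (Y X' : ℕ → Bool) (X : U → Bool),
      (∀ u ∈ uvars D, X u = X' (s.length + index (uvars D) u)) →
      ((∃ t ∈ D, ∀ l ∈ t, Sum.elim Y X l.2 = l.1) ↔
        ∃ t ∈ (compact s D).2.2, ∀ l ∈ t, mix s.length Y X' l.2 = l.1) := by
    intro Y X' X hX
    have hlit : ∀ t ∈ D, ∀ l ∈ t, Sum.elim Y X l.2 =
        mix s.length Y X' (ren s.length (uvars D) l).2 := by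
      rintro t ht ⟨b, v⟩ hl
      cases v with
      | inl i =>
        have := hD t ht _ hl i rfl
        simp only [ren, Sum.elim_inl, mix]
        rw [if_pos this]
      | inr u =>
        simp only [ren, Sum.elim_inr, mix]
        rw [if_neg (by omega), hX u (mem_uvars ht hl)]
    simp only [compact]
    constructor
    · rintro ⟨t, ht, h⟩
      refine ⟨_, List.mem_map.2 ⟨t, ht, rfl⟩, ?_⟩
      intro l hl
      rw [List.mem_map] at hl
      obtain ⟨l', hl', rfl⟩ := hl
      rw [← hlit t ht l' hl', h l' hl']
      rfl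
    · rintro ⟨t, ht, h⟩
      rw [List.mem_map] at ht
      obtain ⟨t', ht', rfl⟩ := ht
      refine ⟨t', ht', ?_⟩
      intro l hl
      have := h _ (List.mem_map.2 ⟨l, hl, rfl⟩)
      rw [← hlit t' ht' l hl] at this
      exact this
  constructor
  · rintro ⟨Y, hY⟩
    refine ⟨Y, fun X' => ?_⟩
    exact (key Y X' (fun u => X' (s.length + index (uvars D) u)) (fun _ _ => rfl)).1 (hY _)
  · rintro ⟨Y, hY⟩
    refine ⟨Y, fun X => ?_⟩
    refine (key Y (fun n => match (uvars D)[n - s.length]? with
      | none => false
      | some u => X u) X ?_).2 (hY (fun n => match (uvars D)[n - s.length]? with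
      | none => false
      | some u => X u))
    intro u hu
    rw [Nat.add_sub_cancel_left, getElem?_index hu]

theorem poly_sumElim {α β γ δ : Type} [TEnc α] [TEnc β] [TEnc γ] [TEnc δ] {o : α → β ⊕ γ}
    {g : α → β → δ} {h : α → γ → δ} (ho : Poly o) (hg : Poly (fun p : α × β => g p.1 p.2))
    (hh : Poly (fun p : α × γ => h p.1 p.2)) : Poly (fun a => Sum.elim (g a) (h a) (o a)) :=
  (Poly.sumCases ho hg hh).congr fun a => by cases o a <;> rfl

theorem poly_compact {α : Type} [TEnc α] {s : α → List Unit}
    {D : α → List (List (Bool × (ℕ ⊕ U)))} (hs : Poly s) (hD : Poly D) :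
    Poly (fun a => compact (s a) (D a)) := by
  have hu : Poly (fun a => uvars (D a)) := by
    refine Poly.flatMap (F := fun _ (l : Bool × (ℕ ⊕ U)) =>
      Sum.elim (fun _ => ([] : List U)) (fun u => [u]) l.2) (Poly.flatten hD) ?_
    exact poly_sumElim (o := fun x : α × (Bool × (ℕ ⊕ U)) => x.2.2)
      (g := fun _ _ => ([] : List U)) (h := fun _ u => [u])
      (Poly.snd (Poly.snd Poly.id)) (Poly.const []) (Poly.cons (Poly.snd Poly.id) (Poly.const []))
  refine Poly.pair hs (Poly.pair (Poly.cons (Poly.const ()) (Poly.map (F := fun _ _ => ()) hu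
    (Poly.const ()))) ?_)
  refine Poly.map (F := fun a t => t.map (ren (s a).length (uvars (D a)))) hD ?_
  refine Poly.map (F := fun (p : α × List (Bool × (ℕ ⊕ U))) l =>
    ren (s p.1).length (uvars (D p.1)) l) (Poly.snd Poly.id) ?_
  have f1 : Poly (fun x : (α × List (Bool × (ℕ ⊕ U))) × (Bool × (ℕ ⊕ U)) => x.1.1) :=
    Poly.fst (Poly.fst Poly.id)
  refine Poly.pair (Poly.fst (Poly.snd Poly.id)) ?_
  exact poly_sumElim (o := fun x : (α × List (Bool × (ℕ ⊕ U))) × (Bool × (ℕ ⊕ U)) => x.2.2)
    (g := fun _ i => i) (h := fun (x : (α × List (Bool × (ℕ ⊕ U))) ×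
    (Bool × (ℕ ⊕ U))) u => (s x.1.1).length + index (uvars (D x.1.1)) u)
    (Poly.snd (Poly.snd Poly.id)) (Poly.snd Poly.id)
    (Poly.add (Poly.length (hs.comp (f1.comp (Poly.fst Poly.id))))
      (Poly.index (hu.comp (f1.comp (Poly.fst Poly.id))) (Poly.snd Poly.id)))

end Compact

section Tableau

variable {Q K A : Type} [DecidableEq K]

/-- The tableau with designated variables `inl i`, `i < q`, for the first `q` letters of the
certificate, which has length `P`. -/
def GG (D : Tab Q K A) (q P : ℕ) (y : List Bool) (N : ℕ) :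
    List (List (Bool × (ℕ ⊕ Var Q K A))) :=
  (formula D P y N).map (fun c => c.map (fun l => (l.1, Sum.inr l.2))) ++
  ((List.range P).map (fun j => [(false, Sum.inr (Var.ce 0 D.k₀ j none))]) ++
  (List.range q).flatMap (fun i =>
    [[(false, Sum.inr (Var.ce 0 D.k₀ (P - 1 - i) (some (D.sym true)))), (true, Sum.inl i)],
      [(false, Sum.inr (Var.ce 0 D.k₀ (P - 1 - i) (some (D.sym false)))), (false, Sum.inl i)]]))

theorem holds_map_inr {V : Type} {Y : ℕ → Bool} {X : V → Bool} {G : List (List (Bool × V))} :
    Holds (Sum.elim Y X) (G.map (fun c => c.map (fun l => (l.1, (Sum.inr l.2 : ℕ ⊕ V))))) ↔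
      Holds X G := by
  unfold Holds
  constructor
  · intro h c hc
    obtain ⟨l, hl, hl'⟩ := h _ (List.mem_map.2 ⟨c, hc, rfl⟩)
    rw [List.mem_map] at hl
    obtain ⟨l0, hl0, rfl⟩ := hl
    exact ⟨l0, hl0, hl'⟩
  · intro h c hc
    rw [List.mem_map] at hc
    obtain ⟨c0, hc0, rfl⟩ := hc
    obtain ⟨l, hl, hl'⟩ := h c0 hc0
    exact ⟨_, List.mem_map.2 ⟨l, hl, rfl⟩, hl'⟩

theorem GG_iff {D : Tab Q K A} (hqs : ∀ q, q ∈ D.qs) (hks : ∀ k, k ∈ D.ks)
    (hos : ∀ o, o ∈ D.os) (hsym : Function.Injective D.sym) {q P : ℕ} (hq : q ≤ P)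
    {y : List Bool} {N : ℕ} {Y : ℕ → Bool} :
    (∃ X, Holds (Sum.elim Y X) (GG D q P y N)) ↔
      ∃ w : List Bool, w.length = P ∧ (∀ i < q, w[i]? = some (Y i)) ∧
        Accepts D (run D P y w N) := by
  constructor
  · rintro ⟨X, hX⟩
    rw [GG, Holds.append_iff, Holds.append_iff, holds_map_inr] at hX
    obtain ⟨h1, h2, h3⟩ := hX
    have hin : Holds X (inClauses D P y) := by
      rw [formula, Holds.append_iff] at h1
      exact h1.1
    obtain ⟨w, hw, hcell⟩ := init_extract' hin (by
      intro j hj
      obtain ⟨l, hl, hl'⟩ := h2 _ (List.mem_map.2 ⟨j, List.mem_range.2 hj, rfl⟩)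
      rw [List.mem_singleton] at hl
      subst hl
      exact hl')
    refine ⟨w, hw, ?_, formula_complete' hqs hks hos h1 w hcell⟩
    intro i hi
    have h4 := hcell (P - 1 - i) (by omega)
    rw [init_cell_full D P y w hw (by omega)] at h4
    rw [List.getElem?_eq_getElem (by omega)]
    congr 1
    cases hwi : w[i]'(by omega) with
    | true =>
      rw [hwi] at h4
      obtain ⟨l, hl, hl'⟩ := h3 [(false, Sum.inr (Var.ce 0 D.k₀ (P - 1 - i)
        (some (D.sym true)))), (true, Sum.inl i)] (List.mem_flatMap.2
          ⟨i, List.mem_range.2 hi, by simp⟩)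
      simp only [List.mem_cons, List.not_mem_nil, or_false] at hl
      rcases hl with rfl | rfl
      · simp only [Sum.elim_inr] at hl'
        rw [h4] at hl'
        simp at hl'
      · exact hl'.symm
    | false =>
      rw [hwi] at h4
      obtain ⟨l, hl, hl'⟩ := h3 [(false, Sum.inr (Var.ce 0 D.k₀ (P - 1 - i)
        (some (D.sym false)))), (false, Sum.inl i)] (List.mem_flatMap.2
          ⟨i, List.mem_range.2 hi, by simp⟩)
      simp only [List.mem_cons, List.not_mem_nil, or_false] at hl
      rcases hl with rfl | rfl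
      · simp only [Sum.elim_inr] at hl'
        rw [h4] at hl'
        simp at hl'
      · exact hl'.symm
  · rintro ⟨w, hw, hwY, hacc⟩
    refine ⟨asg (run D P y w), ?_⟩
    rw [GG, Holds.append_iff, Holds.append_iff, holds_map_inr]
    refine ⟨formula_sound D P y w N hw.le hacc, ?_, ?_⟩
    · intro c hc
      rw [List.mem_map] at hc
      obtain ⟨j, hj, rfl⟩ := hc
      refine ⟨_, List.mem_singleton_self _, ?_⟩
      have hj := List.mem_range.1 hj
      simp only [Sum.elim_inr]
      rw [← Bool.not_eq_true, asg_ce]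
      intro h
      change (init D P y w).m D.k₀ j = none at h
      have h5 := init_cell_full D P y w hw (i := P - 1 - j) (by omega)
      rw [show P - 1 - (P - 1 - j) = j by omega, h] at h5
      simp at h5
    · intro c hc
      rw [List.mem_flatMap] at hc
      obtain ⟨i, hi, hc⟩ := hc
      have hi := List.mem_range.1 hi
      have h5 := init_cell_full D P y w hw (i := i) (by omega)
      have h6 := hwY i hi
      rw [List.getElem?_eq_getElem (by omega)] at h6
      rw [Option.some.inj h6] at h5
      simp only [List.mem_cons, List.not_mem_nil, or_false] at hc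
      rcases hc with rfl | rfl
      · cases hY : Y i with
        | true => exact ⟨(true, Sum.inl i), by simp, hY⟩
        | false =>
          refine ⟨_, List.mem_cons_self, ?_⟩
          simp only [Sum.elim_inr]
          rw [← Bool.not_eq_true, asg_ce]
          intro h
          change (init D P y w).m D.k₀ (P - 1 - i) = _ at h
          rw [h5, hY] at h
          have := hsym (Option.some.inj h)
          simp at this
      · cases hY : Y i with
        | false => exact ⟨(false, Sum.inl i), by simp, hY⟩
        | true =>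
          refine ⟨_, List.mem_cons_self, ?_⟩
          simp only [Sum.elim_inr]
          rw [← Bool.not_eq_true, asg_ce]
          intro h
          change (init D P y w).m D.k₀ (P - 1 - i) = _ at h
          rw [h5, hY] at h
          have := hsym (Option.some.inj h)
          simp at this

end Tableau

theorem sigma2_tab {L : Set (List Bool)} (hL : InSigma2 L) :
    ∃ (tm : FinTM2) (inE : tm.Γ tm.k₀ ≃ Bool) (outE : tm.Γ tm.k₁ ≃ Bool) (p R : Polynomial ℕ),
      ∀ x, x ∈ L ↔ EAS (negDNF (GG (tab tm inE outE) (p.eval x.length) (2 * p.eval x.length)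
        (pairPre x) (R.eval x.length))) := by
  obtain ⟨V, p, hV, hL⟩ := hL
  have hV' : PolyTime (fun z => [!decide (V z = [true])]) :=
    polyTime_test hV (g := fun w => !decide (w = [true]))
      (Poly.not (Poly.decide_eq Poly.id (Poly.const [true])))
  obtain ⟨hW⟩ := hV'
  refine ⟨hW.tm, hW.inputAlphabet, hW.outputAlphabet, p,
    (hW.time.comp (Polynomial.C 2 * Polynomial.X + Polynomial.C 1 + Polynomial.C 2 * p)) *
      Polynomial.C (maxDepth hW.tm), fun x => ?_⟩
  set N := (((hW.time.comp (Polynomial.C 2 * Polynomial.X + Polynomial.C 1 +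
      Polynomial.C 2 * p)) * Polynomial.C (maxDepth hW.tm)).eval x.length) with hN
  have key : ∀ w : List Bool, w.length ≤ 2 * p.eval x.length →
      ([!decide (V (pairBits x w) = [true])] = [true] ↔
        Accepts (tab hW.tm hW.inputAlphabet hW.outputAlphabet)
        (run (tab hW.tm hW.inputAlphabet hW.outputAlphabet) (2 * p.eval x.length) (pairPre x) w
          N)) := by
    intro w hw
    rw [pairBits_eq]
    refine tab_correct hW.tm hW.inputAlphabet hW.outputAlphabet
      (fun z => [!decide (V z = [true])]) _ _ _ _ _ hw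
      (hW.outputsFun (pairPre x ++ w)) ?_
    rw [hN, Polynomial.eval_mul, Polynomial.eval_C, Polynomial.eval_comp]
    refine Nat.mul_le_mul_right _ (eval_mono _ ?_)
    simp only [id_eq, List.length_append, pairPre_length, Polynomial.eval_add,
      Polynomial.eval_mul, Polynomial.eval_C, Polynomial.eval_X]
    omega
  have hsym : Function.Injective (tab hW.tm hW.inputAlphabet hW.outputAlphabet).sym := by
    intro a b h
    have h1 : (Sum.inl (hW.inputAlphabet.symm a) : NA hW.tm) =
        Sum.inl (hW.inputAlphabet.symm b) := h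
    exact hW.inputAlphabet.symm.injective (Sum.inl_injective h1)
  have hGG := fun Y : ℕ → Bool => GG_iff (D := tab hW.tm hW.inputAlphabet hW.outputAlphabet)
    (fun q => by simp [tab]) (fun k => by simp [tab]) (fun o => by simp [tab]) hsym
    (q := p.eval x.length) (P := 2 * p.eval x.length) (by omega) (y := pairPre x) (N := N)
    (Y := Y)
  rw [hL x]
  unfold EAS
  constructor
  · rintro ⟨u, hu, hall⟩
    refine ⟨fun i => u.getD i false, fun X => ?_⟩
    rw [negDNF_iff]
    intro hX
    obtain ⟨w, hw, hwY, hacc⟩ := (hGG _).1 ⟨X, hX⟩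
    rw [← key w hw.le] at hacc
    have h1 : w = u ++ w.drop (p.eval x.length) := by
      conv_lhs => rw [← List.take_append_drop (p.eval x.length) w]
      congr 1
      apply List.ext_getElem?
      intro i
      by_cases hi : i < p.eval x.length
      · rw [List.getElem?_take_of_lt hi, hwY i hi, List.getD_eq_getElem?_getD,
          List.getElem?_eq_getElem (by omega)]
        rfl
      · rw [List.getElem?_eq_none (by rw [List.length_take]; omega),
          List.getElem?_eq_none (by omega)]
    have h2 := hall (w.drop (p.eval x.length)) (by rw [List.length_drop]; omega)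
    rw [← h1] at h2
    rw [h2] at hacc
    simp at hacc
  · rintro ⟨Y, hY⟩
    refine ⟨(List.range (p.eval x.length)).map Y, by simp, fun v hv => ?_⟩
    by_contra hne
    have hacc := (key ((List.range (p.eval x.length)).map Y ++ v) (by simp; omega)).1
      (by simp [hne])
    obtain ⟨X, hX⟩ := (hGG Y).2 ⟨_, by simp; omega, (fun i hi => by
      rw [List.getElem?_append_left (by simpa using hi), List.getElem?_map,
        List.getElem?_range hi]
      rfl), hacc⟩
    exact (negDNF_iff.1 (hY X)) hX

/-- `∃∀`-DNF is `Σ₂ᵖ`-hard, even with the promise. -/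
theorem hardS2_EA : HardS2 EAPr EA := by
  intro L hL
  obtain ⟨tm, inE, outE, p, R, h⟩ := sigma2_tab hL
  let _ := encFintype (NQ tm)
  let _ := encFintype tm.K
  let _ := encFintype (NA tm)
  let F : List Bool → List (List (Bool × (ℕ ⊕ Var (NQ tm) tm.K (NA tm)))) := fun x =>
    negDNF (GG (tab tm inE outE) (p.eval x.length) (2 * p.eval x.length) (pairPre x)
      (R.eval x.length))
  let S : List Bool → List Unit := fun x => List.replicate (p.eval x.length) ()
  have hS : Poly S := UPoly.eval (UPoly.length Poly.id) p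
  have hp : UPoly (fun x : List Bool => p.eval x.length) := UPoly.eval (UPoly.length Poly.id) p
  have hP : UPoly (fun x : List Bool => 2 * p.eval x.length) := UPoly.mul (UPoly.const 2) hp
  have hF : Poly F := by
    have hG : Poly (fun x : List Bool => GG (tab tm inE outE) (p.eval x.length)
        (2 * p.eval x.length) (pairPre x) (R.eval x.length)) := by
      refine Poly.append ?_ (Poly.append ?_ ?_)
      · exact Poly.map (F := fun (_ : List Bool) (c : List (Bool × Var (NQ tm) tm.K (NA tm))) =>
            c.map (fun l => (l.1, (Sum.inr l.2 : ℕ ⊕ Var (NQ tm) tm.K (NA tm)))))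
          (pFormula (tab tm inE outE) hP (pPre Poly.id)
            (UPoly.eval (UPoly.length Poly.id) R))
          (Poly.map (F := fun (_ : List Bool × List (Bool × Var (NQ tm) tm.K (NA tm)))
            (l : Bool × Var (NQ tm) tm.K (NA tm)) =>
            (l.1, (Sum.inr l.2 : ℕ ⊕ Var (NQ tm) tm.K (NA tm)))) (Poly.snd Poly.id)
            (Poly.pair (Poly.fst (Poly.snd Poly.id)) (Poly.inr (Poly.snd (Poly.snd Poly.id)))))
      · exact Poly.map (F := fun _ j => [(false, Sum.inr (Var.ce 0 (tab tm inE outE).k₀ j none))])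
          hP.range (pList1 (Poly.pair (Poly.const false) (Poly.inr (pCe (Poly.const 0)
            (Poly.const _) (Poly.snd Poly.id) (Poly.const none)))))
      · refine Poly.flatMap (F := fun (x : List Bool) i =>
          [[(false, Sum.inr (Var.ce 0 (tab tm inE outE).k₀ (2 * p.eval x.length - 1 - i)
              (some ((tab tm inE outE).sym true)))), (true, Sum.inl i)],
            [(false, Sum.inr (Var.ce 0 (tab tm inE outE).k₀ (2 * p.eval x.length - 1 - i)
              (some ((tab tm inE outE).sym false)))), (false, Sum.inl i)]]) hp.range ?_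
        have hidx : Poly (fun z : List Bool × ℕ => 2 * p.eval z.1.length - 1 - z.2) :=
          Poly.sub (Poly.sub (hP.toPoly.comp (Poly.fst Poly.id)) (Poly.const 1))
            (Poly.snd Poly.id)
        exact pList2
          (pList2 (Poly.pair (Poly.const false) (Poly.inr (pCe (Poly.const 0) (Poly.const _) hidx
            (Poly.const _)))) (Poly.pair (Poly.const true) (Poly.inl (Poly.snd Poly.id))))
          (pList2 (Poly.pair (Poly.const false) (Poly.inr (pCe (Poly.const 0) (Poly.const _) hidx
            (Poly.const _)))) (Poly.pair (Poly.const false) (Poly.inl (Poly.snd Poly.id))))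
    exact Poly.map (F := fun (_ : List Bool)
      (c : List (Bool × (ℕ ⊕ Var (NQ tm) tm.K (NA tm)))) => c.map (fun l => (!l.1, l.2))) hG
      (Poly.map (F := fun (_ : List Bool × List (Bool × (ℕ ⊕ Var (NQ tm) tm.K (NA tm))))
        (l : Bool × (ℕ ⊕ Var (NQ tm) tm.K (NA tm))) => (!l.1, l.2)) (Poly.snd Poly.id)
        (Poly.pair (Poly.not (Poly.fst (Poly.snd Poly.id))) (Poly.snd (Poly.snd Poly.id))))
  have hpr : ∀ x, ∀ t ∈ F x, ∀ l ∈ t, ∀ i, l.2 = Sum.inl i → i < (S x).length := by
    intro x t ht l hl i hi
    simp only [F, negDNF, List.mem_map] at ht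
    obtain ⟨c, hc, rfl⟩ := ht
    rw [List.mem_map] at hl
    obtain ⟨l0, hl0, rfl⟩ := hl
    simp only at hi
    rw [GG, List.mem_append, List.mem_append] at hc
    simp only [S, List.length_replicate]
    rcases hc with hc | hc | hc
    · rw [List.mem_map] at hc
      obtain ⟨c0, _, rfl⟩ := hc
      rw [List.mem_map] at hl0
      obtain ⟨l1, _, rfl⟩ := hl0
      simp at hi
    · rw [List.mem_map] at hc
      obtain ⟨j, _, rfl⟩ := hc
      rw [List.mem_singleton] at hl0
      subst hl0
      simp at hi
    · rw [List.mem_flatMap] at hc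
      obtain ⟨j, hj, hc⟩ := hc
      have hj := List.mem_range.1 hj
      simp only [List.mem_cons, List.not_mem_nil, or_false] at hc
      rcases hc with rfl | rfl
      · simp only [List.mem_cons, List.not_mem_nil, or_false] at hl0
        rcases hl0 with rfl | rfl
        · simp at hi
        · simp only [Sum.inl.injEq] at hi
          omega
      · simp only [List.mem_cons, List.not_mem_nil, or_false] at hl0
        rcases hl0 with rfl | rfl
        · simp at hi
        · simp only [Sum.inl.injEq] at hi
          omega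
  have hC : Poly (fun x : List Bool => compact (S x) (F x)) := poly_compact hS hF
  refine ⟨fun x => compact (S x) (F x), ?_, fun x => compact_pr (hpr x), fun x => ?_⟩
  · exact PC.comp (ea := fun x : List Bool => x) (eb := (bits : List Bool → List Bool))
      (ec := bits) (g := fun x : List Bool => compact (S x) (F x)) (f := fun x => x) hC PC.ofBits
  · rw [h x]
    exact compact_iff (hpr x)

end Pool.Agent.NPC.S2
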