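import Pool.Agent.H596R2.ChainCore
import Pool.Agent.H596R2.EndRed2
import Pool.Agent.H596R2.Sigma2

/-!
# Chain minors of posets given by matrices, and the reduction from `∃∀`-DNF
-/

namespace Pool.Agent.H596R2

/-- The strict order of the poset given by the matrix `M`. -/
def slt (M : List (List Bool)) (i j : Fin M.length) : Prop := rel M i j ∧ i ≠ j

/-- CHAIN MINOR: given (the matrices of) two posets `P` and `Q`, is there a map `f` from `Q` to `P`
such that for every chain `c₁ < ... < cₖ` of `P` there is a chain `c₁' < ... < cₖ'` of `Q` with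
`f cᵢ' = cᵢ` for all `i`? -/
def ChainMinor (I : List (List Bool) × List (List Bool)) : Prop :=
  IsPoset I.1 ∧ IsPoset I.2 ∧ ∃ f : Fin I.2.length → Fin I.1.length,
    ∀ l : List (Fin I.1.length), l.Pairwise (slt I.1) →
      ∃ l' : List (Fin I.2.length), l'.Pairwise (slt I.2) ∧ l'.map f = l

namespace Chain

theorem CM_of_equiv {α β α' β' : Type} {r : α → α → Prop} {s : β → β → Prop}
    {r' : α' → α' → Prop} {s' : β' → β' → Prop} (e : α ≃ α') (g : β ≃ β')
    (he : ∀ a b, r a b ↔ r' (e a) (e b)) (hg : ∀ a b, s a b ↔ s' (g a) (g b))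
    (h : CM r s) : CM r' s' := by
  obtain ⟨f, hf⟩ := h
  refine ⟨fun b => e (f (g.symm b)), fun l hl => ?_⟩
  obtain ⟨l', hl', hl''⟩ := hf (l.map e.symm) (by
    rw [List.pairwise_map]
    refine hl.imp ?_
    intro a b hab
    rw [he]
    simpa using hab)
  refine ⟨l'.map g, ?_, ?_⟩
  · rw [List.pairwise_map]
    refine hl'.imp ?_
    intro a b hab
    exact (hg a b).1 hab
  · rw [List.map_map]
    have : (fun b => e (f (g.symm b))) ∘ g = fun b => e (f b) := by
      funext b
      simp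
    rw [this]
    have h2 : l'.map (fun b => e (f b)) = (l'.map f).map e := by
      rw [List.map_map]
      rfl
    rw [h2, hl'', List.map_map]
    simp

theorem CM_congr {α β α' β' : Type} {r : α → α → Prop} {s : β → β → Prop}
    {r' : α' → α' → Prop} {s' : β' → β' → Prop} (e : α ≃ α') (g : β ≃ β')
    (he : ∀ a b, r a b ↔ r' (e a) (e b)) (hg : ∀ a b, s a b ↔ s' (g a) (g b)) :
    CM r s ↔ CM r' s' :=
  ⟨CM_of_equiv e g he hg, CM_of_equiv e.symm g.symm (fun a b => by rw [he]; simp)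
    (fun a b => by rw [hg]; simp)⟩

/-- Matrices given by lists of elements and strict orders. -/
theorem matrix_strict {β γ : Type} [DecidableEq γ] {l : List γ} {lt : γ → γ → Prop}
    [DecidableRel lt] {s : β → β → Prop} (hl : l.Nodup) (g : β → γ) (hg : Function.Injective g)
    (hmem : ∀ a, a ∈ l ↔ ∃ b, g b = a) (hlt : ∀ a b, s a b ↔ lt (g a) (g b))
    (hirr : ∀ a, ¬ s a a) (htr : ∀ a b c, s a b → s b c → s a c) :
    IsPoset (matrixOf l (fun x y => decide (x = y ∨ lt x y))) ∧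
    ∃ e : Fin (matrixOf l (fun x y => decide (x = y ∨ lt x y))).length ≃ β,
      ∀ i j, slt (matrixOf l (fun x y => decide (x = y ∨ lt x y))) i j ↔ s (e i) (e j) := by
  have hP : IsPoset (matrixOf l (fun x y => decide (x = y ∨ lt x y))) := by
    apply isPoset_matrixOf hl
    · intro a _
      simp
    · intro a ha b hb hab hba
      obtain ⟨a, rfl⟩ := (hmem a).1 ha
      obtain ⟨b, rfl⟩ := (hmem b).1 hb
      rw [decide_eq_true_iff, ← hlt] at hab hba
      rcases hab with h | h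
      · exact h
      · rcases hba with h' | h'
        · exact h'.symm
        · exact absurd (htr _ _ _ h h') (hirr _)
    · intro a ha b hb c hc hab hbc
      obtain ⟨a, rfl⟩ := (hmem a).1 ha
      obtain ⟨b, rfl⟩ := (hmem b).1 hb
      obtain ⟨c, rfl⟩ := (hmem c).1 hc
      rw [decide_eq_true_iff, ← hlt] at hab hbc ⊢
      rcases hab with h | h
      · rw [hg h]; exact hbc
      · rcases hbc with h' | h'
        · rw [← hg h']; exact Or.inr h
        · exact Or.inr (htr _ _ _ h h')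
  refine ⟨hP, ?_⟩
  let e0 : β ≃ {a // a ∈ l} := Equiv.ofBijective (fun b => ⟨g b, (hmem _).2 ⟨b, rfl⟩⟩) (by
    constructor
    · intro a b h
      exact hg (congrArg Subtype.val h)
    · rintro ⟨a, ha⟩
      obtain ⟨b, rfl⟩ := (hmem a).1 ha
      exact ⟨b, rfl⟩)
  refine ⟨(matrixEquiv hl).trans e0.symm, fun i j => ?_⟩
  have he0 : ∀ x : {a // a ∈ l}, g (e0.symm x) = x.1 := by
    intro x
    have := congrArg Subtype.val (e0.apply_symm_apply x)
    exact this
  unfold slt
  rw [matrixEquiv_rel hl, decide_eq_true_iff, hlt]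
  simp only [Equiv.trans_apply, he0]
  constructor
  · rintro ⟨h | h, hne⟩
    · exact absurd ((matrixEquiv hl).injective (Subtype.ext h)) hne
    · exact h
  · intro h
    refine ⟨Or.inr h, ?_⟩
    rintro rfl
    have h2 : s (e0.symm (matrixEquiv hl i)) (e0.symm (matrixEquiv hl i)) := by
      rw [hlt, he0]
      exact h
    exact hirr _ h2

section Trans

variable {m N T s : ℕ}

theorem ltP_trans {x y z : PE m N} (h : ltP x y) (h' : ltP y z) : ltP x z := by
  rcases h with h | ⟨h1, h2, h3, h4⟩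
  · rcases h' with h' | h'
    · exact Or.inl (lt_trans h h')
    · exact Or.inl (h'.1 ▸ h)
  · rcases h' with h' | ⟨_, _, h5, _⟩
    · exact Or.inl (h1 ▸ h')
    · rw [h4] at h5; simp at h5

theorem ltQ0_irrefl (z : QE0 m N T s) : ¬ ltQ0 z z := by
  rintro ⟨_, h | ⟨_, _, h1, h2⟩⟩
  · exact lt_irrefl _ h
  · rw [h1] at h2; simp at h2

theorem ltQ0_trans {x y z : QE0 m N T s} (h : ltQ0 x y) (h' : ltQ0 y z) : ltQ0 x z := by
  refine ⟨h.1.trans h'.1, ?_⟩
  rcases h.2 with h1 | ⟨h1, h2, h3, h4⟩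
  · rcases h'.2 with h1' | h1'
    · exact Or.inl (lt_trans h1 h1')
    · exact Or.inl (h1'.1 ▸ h1)
  · rcases h'.2 with h1' | ⟨_, _, h5, _⟩
    · exact Or.inl (h1 ▸ h1')
    · rw [h4] at h5; simp at h5

end Trans

end Chain

end Pool.Agent.H596R2

namespace Pool.Agent.NPC.H596

open Pool.Agent.H596R2 Pool.Agent.H596R2.Chain Pool.Agent.NPC.S2

/-- Elements of the constructed poset `P`. -/
abbrev EP : Type := ℕ × Bool × Option ℕ

/-- Elements of the constructed poset `Q`. -/
abbrev EQ : Type := (Bool × ℕ) × EP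

/-- Instances of `∃∀`-DNF. -/
abbrev EAInst : Type := List Unit × List Unit × List (List (Bool × ℕ))

/-- The strict order of `P`. -/
def ltEP (x y : EP) : Prop :=
  x.1 < y.1 ∨ (x.1 = y.1 ∧ x.2.1 = y.2.1 ∧ up x.2 = false ∧ up y.2 = true)

instance : DecidableRel ltEP := fun x y => by unfold ltEP; infer_instance

/-- The upper part of a gadget of `Q`. -/
def upEQ (z : EQ) : Bool := if z.1 = (true, z.2.1) then z.2.2.1 else up z.2.2

/-- The strict order of `Q`. -/
def ltEQ (z z' : EQ) : Prop :=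
  z.1 = z'.1 ∧ (z.2.1 < z'.2.1 ∨ (z.2.1 = z'.2.1 ∧
    ((z.1 = (true, z.2.1) ∧ z.2.2.2 = z'.2.2.2) ∨ (z.1 ≠ (true, z.2.1) ∧ z.2.2.1 = z'.2.2.1)) ∧
    upEQ z = false ∧ upEQ z' = true))

instance : DecidableRel ltEQ := fun x y => by unfold ltEQ; infer_instance

/-- The number of copies. -/
def cN (I : EAInst) : ℕ := 4 * I.2.2.length + 2

/-- The number of variables. -/
def cm (I : EAInst) : ℕ := I.1.length + I.2.1.length

/-- The elements of `P`. -/
def elsP (I : EAInst) : List EP :=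
  nub ((List.range (cm I)).flatMap (fun v => (none :: (List.range (cN I)).map some).flatMap
    (fun o => [(v, false, o), (v, true, o)])))

/-- The components of `Q`. -/
def comps (I : EAInst) : List (Bool × ℕ) :=
  (List.range I.2.2.length).map (fun t => (false, t)) ++
    (List.range I.1.length).map (fun j => (true, j))

/-- The elements of `Q` which are present. -/
def validE (I : EAInst) (z : EQ) : Bool :=
  if z.1.1 = true then (!decide (z.1.2 = z.2.1) || z.2.2.2.isSome)
  else !decide ((!z.2.2.1, z.2.1) ∈ I.2.2.getD z.1.2 [])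

/-- The elements of `Q`. -/
def elsQ (I : EAInst) : List EQ :=
  nub (((comps I).flatMap (fun c => (elsP I).map (fun x => (c, x)))).filter (validE I))

/-- The constructed instance of CHAIN MINOR. -/
def cmRed (I : EAInst) : List (List Bool) × List (List Bool) :=
  (matrixOf (elsP I) (fun x y => decide (x = y ∨ ltEP x y)),
    matrixOf (elsQ I) (fun x y => decide (x = y ∨ ltEQ x y)))

section Correct

variable (I : EAInst)

/-- From abstract elements of `P` to concrete ones. -/
def gP {m N : ℕ} (x : PE m N) : EP := (x.1.1, x.2.1, x.2.2.map Fin.val)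

theorem gP_injective {m N : ℕ} : Function.Injective (gP (m := m) (N := N)) := by
  rintro ⟨v, σ, o⟩ ⟨v', σ', o'⟩ h
  simp only [gP, Prod.mk.injEq] at h
  obtain ⟨h1, h2, h3⟩ := h
  rw [Fin.ext h1, h2, Option.map_injective Fin.val_injective h3]

theorem up_gP {m N : ℕ} (x : PE m N) : up (gP x).2 = up x.2 := by
  unfold up gP
  cases x.2.2 <;> rfl

theorem mem_elsP (x : EP) : x ∈ elsP I ↔ ∃ b : PE (cm I) (cN I), gP b = x := by
  unfold elsP
  rw [mem_nub, List.mem_flatMap]
  constructor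
  · rintro ⟨v, hv, h⟩
    rw [List.mem_flatMap] at h
    obtain ⟨o, ho, h⟩ := h
    have hv := List.mem_range.1 hv
    have ho' : ∃ o' : Option (Fin (cN I)), o'.map Fin.val = o := by
      rw [List.mem_cons, List.mem_map] at ho
      rcases ho with rfl | ⟨k, hk, rfl⟩
      · exact ⟨none, rfl⟩
      · exact ⟨some ⟨k, List.mem_range.1 hk⟩, rfl⟩
    obtain ⟨o', rfl⟩ := ho'
    simp only [List.mem_cons, List.not_mem_nil, or_false] at h
    rcases h with rfl | rfl
    · exact ⟨(⟨v, hv⟩, false, o'), rfl⟩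
    · exact ⟨(⟨v, hv⟩, true, o'), rfl⟩
  · rintro ⟨⟨v, σ, o⟩, rfl⟩
    refine ⟨v, List.mem_range.2 v.2, ?_⟩
    rw [List.mem_flatMap]
    refine ⟨o.map Fin.val, ?_, ?_⟩
    · rw [List.mem_cons, List.mem_map]
      cases o with
      | none => exact Or.inl rfl
      | some k => exact Or.inr ⟨k, List.mem_range.2 k.2, rfl⟩
    · cases σ <;> simp [gP]

theorem ltP_iff {m N : ℕ} (x y : PE m N) : ltP x y ↔ ltEP (gP x) (gP y) := by
  unfold ltP ltEP
  rw [up_gP, up_gP, Fin.lt_def, Fin.ext_iff]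
  rfl

/-- The literals of the terms. -/
def litI (t : Fin I.2.2.length) (b : Bool) (v : Fin (cm I)) : Prop := (b, v.1) ∈ I.2.2[t]

/-- The components as concrete objects. -/
def gC {T s : ℕ} : Fin T ⊕ Fin s → Bool × ℕ
  | Sum.inl t => (false, t)
  | Sum.inr j => (true, j)

theorem gC_injective {T s : ℕ} : Function.Injective (gC (T := T) (s := s)) := by
  rintro (a | a) (b | b) h <;> simp [gC] at h
  · rw [Fin.ext h]
  · rw [Fin.ext h]

/-- From abstract elements of `Q` to concrete ones. -/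
def gQ (z : QE (cN I) I.1.length (litI I)) : EQ := (gC z.1.1, gP z.1.2)

theorem gQ_injective : Function.Injective (gQ I) := by
  intro z z' h
  simp only [gQ, Prod.mk.injEq] at h
  exact Subtype.ext (Prod.ext (gC_injective h.1) (gP_injective h.2))

theorem special_iff {T s m N : ℕ} (c : Fin T ⊕ Fin s) (x : PE m N) :
    special c x.1 ↔ gC c = (true, (gP x).1) := by
  cases c <;> simp [special, gC, gP]

theorem mem_comps (c : Bool × ℕ) :
    c ∈ comps I ↔ ∃ b : Fin I.2.2.length ⊕ Fin I.1.length, gC b = c := by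
  unfold comps
  rw [List.mem_append, List.mem_map, List.mem_map]
  constructor
  · rintro (⟨t, ht, rfl⟩ | ⟨j, hj, rfl⟩)
    · exact ⟨Sum.inl ⟨t, List.mem_range.1 ht⟩, rfl⟩
    · exact ⟨Sum.inr ⟨j, List.mem_range.1 hj⟩, rfl⟩
  · rintro ⟨t | j, rfl⟩
    · exact Or.inl ⟨t, List.mem_range.2 t.2, rfl⟩
    · exact Or.inr ⟨j, List.mem_range.2 j.2, rfl⟩

theorem valid_iff (z : QE0 (cm I) (cN I) I.2.2.length I.1.length) :
    valid (litI I) z ↔ validE I (gC z.1, gP z.2) = true := by
  obtain ⟨c, v, σ, o⟩ := z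
  cases c with
  | inl t =>
    have e1 : validE I (gC (Sum.inl t : Fin I.2.2.length ⊕ Fin I.1.length), gP (v, σ, o)) = true ↔
        ¬ ((!σ, v.1) ∈ I.2.2.getD t.1 []) := by
      unfold validE
      simp [gC, gP]
    rw [e1, List.getD_eq_getElem?_getD, List.getElem?_eq_getElem t.2]
    rfl
  | inr j =>
    unfold valid validE
    simp only [gC, gP, if_true, Bool.or_eq_true, Bool.not_eq_true', decide_eq_false_iff_not]
    cases o <;> simp

theorem mem_elsQ (x : EQ) : x ∈ elsQ I ↔ ∃ b, gQ I b = x := by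
  unfold elsQ
  rw [mem_nub, List.mem_filter, List.mem_flatMap]
  constructor
  · rintro ⟨⟨c, hc, h⟩, hv⟩
    obtain ⟨c, rfl⟩ := (mem_comps I c).1 hc
    rw [List.mem_map] at h
    obtain ⟨y, hy, rfl⟩ := h
    obtain ⟨y, rfl⟩ := (mem_elsP I y).1 hy
    exact ⟨⟨(c, y), (valid_iff I (c, y)).2 hv⟩, rfl⟩
  · rintro ⟨⟨⟨c, y⟩, hv⟩, rfl⟩
    refine ⟨⟨gC c, (mem_comps I _).2 ⟨c, rfl⟩, ?_⟩, (valid_iff I (c, y)).1 hv⟩
    rw [List.mem_map]
    exact ⟨gP y, (mem_elsP I _).2 ⟨y, rfl⟩, rfl⟩

theorem upQ_iff (z : QE (cN I) I.1.length (litI I)) : upQ z.1 = upEQ (gQ I z) := by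
  unfold upQ upEQ gQ
  by_cases h : special z.1.1 z.1.2.1
  · rw [if_pos h, if_pos ((special_iff _ _).1 h)]
    rfl
  · rw [if_neg h, if_neg (fun h' => h ((special_iff _ _).2 h')), up_gP]

theorem ltQ_iff (z z' : QE (cN I) I.1.length (litI I)) : ltQ z z' ↔ ltEQ (gQ I z) (gQ I z') := by
  unfold ltQ ltQ0 ltEQ
  rw [← upQ_iff, ← upQ_iff]
  have h1 : z.1.1 = z'.1.1 ↔ (gQ I z).1 = (gQ I z').1 := gC_injective.eq_iff.symm
  have h2 : z.1.2.1 < z'.1.2.1 ↔ (gQ I z).2.1 < (gQ I z').2.1 := Iff.rfl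
  have h3 : z.1.2.1 = z'.1.2.1 ↔ (gQ I z).2.1 = (gQ I z').2.1 := Fin.ext_iff
  rw [h1, h2, h3]
  have h4 : Chain.mt z.1 z'.1 ↔ ((gQ I z).1 = (true, (gQ I z).2.1) ∧ (gQ I z).2.2.2 = (gQ I z').2.2.2) ∨
      ((gQ I z).1 ≠ (true, (gQ I z).2.1) ∧ (gQ I z).2.2.1 = (gQ I z').2.2.1) := by
    unfold Chain.mt
    by_cases h : special z.1.1 z.1.2.1
    · have h' := (special_iff _ _).1 h
      rw [if_pos h]
      have e : z.1.2.2.2 = z'.1.2.2.2 ↔ (gQ I z).2.2.2 = (gQ I z').2.2.2 :=
        (Option.map_injective Fin.val_injective).eq_iff.symm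
      rw [e]
      constructor
      · intro h5; exact Or.inl ⟨h', h5⟩
      · rintro (h5 | h5)
        · exact h5.2
        · exact absurd h' h5.1
    · have h' : ¬ (gQ I z).1 = (true, (gQ I z).2.1) := fun h' => h ((special_iff _ _).2 h')
      rw [if_neg h]
      constructor
      · intro h5; exact Or.inr ⟨h', h5⟩
      · rintro (h5 | h5)
        · exact absurd h5.1 h'
        · exact h5.2
  rw [h4]

theorem EAabs_iff (hpr : EAPr I) : EA I ↔ EAabs I.1.length (litI I) := by
  unfold EA EAabs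
  have hlt : ∀ t ∈ I.2.2, ∀ l ∈ t, l.2 < cm I := hpr.2
  constructor
  · rintro ⟨Y, hY⟩
    refine ⟨fun v => Y v.1, fun z hz => ?_⟩
    obtain ⟨t, ht, h⟩ := hY (fun v => if h : v < cm I then z ⟨v, h⟩ else false)
    obtain ⟨i, hi, rfl⟩ := List.getElem_of_mem ht
    refine ⟨⟨i, hi⟩, fun b v hl => ?_⟩
    have := h _ hl
    simp only [mix] at this
    rw [← this]
    split_ifs with h1 h2
    · exact hz v h1
    · rfl
    · exact absurd v.2 h2
  · rintro ⟨Y, hY⟩
    refine ⟨fun v => if h : v < cm I then Y ⟨v, h⟩ else false, fun X => ?_⟩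
    obtain ⟨t, ht⟩ := hY (fun v => if v.1 < I.1.length then Y v else X v.1) (fun v hv => if_pos hv)
    refine ⟨I.2.2[t], List.getElem_mem _, fun l hl => ?_⟩
    have hb := hlt _ (List.getElem_mem _) l hl
    have := ht l.1 ⟨l.2, hb⟩ hl
    rw [← this]
    simp only [mix]
    split_ifs <;> rfl

theorem cmRed_correct (hpr : EAPr I) : EA I ↔ ChainMinor (cmRed I) := by
  have hm : 0 < cm I := by
    have := hpr.1
    unfold cm
    omega
  obtain ⟨p1, e1, he1⟩ := matrix_strict (lt := ltEP) (s := ltP) (nub_nodup _ : (elsP I).Nodup)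
    gP gP_injective (mem_elsP I) ltP_iff ltP_irrefl (fun a b c => ltP_trans)
  obtain ⟨p2, e2, he2⟩ := matrix_strict (lt := ltEQ) (s := ltQ) (nub_nodup _ : (elsQ I).Nodup)
    (gQ I) (gQ_injective I) (mem_elsQ I) (ltQ_iff I) (fun a => ltQ0_irrefl a.1)
    (fun a b c => ltQ0_trans)
  have hCM : CM (slt (cmRed I).1) (slt (cmRed I).2) ↔
      CM (ltP (m := cm I) (N := cN I)) (ltQ (N := cN I) (s := I.1.length) (lit := litI I)) :=
    CM_congr e1 e2 he1 he2
  rw [EAabs_iff I hpr]
  constructor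
  · intro h
    exact ⟨p1, p2, hCM.2 (CM_of_EA (by unfold cN; omega) _ h)⟩
  · rintro ⟨_, _, h⟩
    exact EA_of_CM hm rfl (by unfold cm; omega) _ (hCM.1 h)

end Correct

end Pool.Agent.NPC.H596
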