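import Pool.Agent.H596R2.HomCount

/-!
# Satisfying assignments from up-sets of a poset of height two
-/

namespace Pool.Agent.H596R2

open Finset

/-- A poset of height (at most) two: elements of `A` below elements of `B`. -/
def R2 {A B : Type} (I : A → B → Prop) : A ⊕ B → A ⊕ B → Prop
  | Sum.inl a, Sum.inl a' => a = a'
  | Sum.inl a, Sum.inr b => I a b
  | Sum.inr b, Sum.inr b' => b = b'
  | Sum.inr _, Sum.inl _ => False

section

variable {A B : Type} [Fintype A] [Fintype B] [DecidableEq A] {I : A → B → Prop}

/-- Up-sets split according to their trace on `A`. -/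
def homR2 : Hom (R2 I) B2 ≃ Σ T : A → Bool, ∀ b : B, {x : Bool // (∃ a, T a = true ∧ I a b) → x = true} where
  toFun f := ⟨fun a => f.1 (Sum.inl a), fun b => ⟨f.1 (Sum.inr b), fun ⟨a, ha, hI⟩ =>
    f.2 (Sum.inl a) (Sum.inr b) hI ha⟩⟩
  invFun p := ⟨Sum.elim p.1 (fun b => (p.2 b).1), by
    rintro (a | a) (b | b) h
    · rw [show a = b from h]; exact B2_refl _
    · intro ha
      exact (p.2 b).2 ⟨a, ha, h⟩
    · exact h.elim
    · rw [show a = b from h]; exact B2_refl _⟩
  left_inv f := by
    apply Subtype.ext
    funext x
    rcases x with a | a <;> rfl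
  right_inv p := rfl

open Classical in
theorem card_imp_true (p : Prop) : Fintype.card {x : Bool // p → x = true} = if p then 1 else 2 := by
  split_ifs with h
  · rw [Fintype.card_eq_one_iff]
    exact ⟨⟨true, fun _ => rfl⟩, fun y => Subtype.ext (y.2 h)⟩
  · rw [Fintype.card_congr (Equiv.subtypeUnivEquiv (fun x => fun hp => absurd hp h))]
    rfl

open Classical in
theorem card_homR2 : Nat.card (Hom (R2 I) B2) =
    ∑ T : A → Bool, 2 ^ (univ.filter (fun b => ¬ ∃ a, T a = true ∧ I a b)).card := by
  rw [Nat.card_congr homR2, Nat.card_eq_fintype_card, Fintype.card_sigma]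
  apply Finset.sum_congr rfl
  intro T _
  rw [Fintype.card_pi]
  have key : ∀ b : B, Fintype.card {x : Bool // (∃ a, T a = true ∧ I a b) → x = true} =
      if (∃ a, T a = true ∧ I a b) then 1 else 2 := fun b => by
    convert card_imp_true (∃ a, T a = true ∧ I a b)
  rw [Finset.prod_congr rfl (fun b _ => key b)]
  rw [← Finset.prod_filter_mul_prod_filter_not univ (fun b => ∃ a, T a = true ∧ I a b)]
  rw [Finset.prod_congr rfl (fun b hb => if_pos (Finset.mem_filter.1 hb).2),
    Finset.prod_congr rfl (fun b hb => if_neg (Finset.mem_filter.1 hb).2)]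
  simp

end

section Sat

variable {V ι : Type} [Fintype V] [DecidableEq V] [Fintype ι]

/-- The hyperedges: the two literals of each variable, and the clauses. -/
def HE (S : ι → Bool × V → Prop) : V ⊕ ι → Bool × V → Prop
  | Sum.inl v, a => a.2 = v
  | Sum.inr c, a => S c a

/-- Incidences of the literals with the private elements of hyperedges and literals. -/
def Inc (S : ι → Bool × V → Prop) (K M : ℕ) (a : Bool × V) :
    ((V ⊕ ι) × Fin K) ⊕ ((Bool × V) × Fin M) → Prop
  | Sum.inl p => HE S p.1 a
  | Sum.inr p => a = p.1

open Classical in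
/-- The number of hyperedges missed by `T`. -/
noncomputable def missed (S : ι → Bool × V → Prop) (T : Bool × V → Bool) : ℕ :=
  (univ.filter (fun e => ¬ ∃ a, T a = true ∧ HE S e a)).card

/-- The number of literals in `T`. -/
def chosen (T : Bool × V → Bool) : ℕ := (univ.filter (fun a => T a = true)).card

theorem card_filter_prod {X Y : Type} [Fintype X] [Fintype Y] (p : X → Prop) [DecidablePred p] :
    (univ.filter (fun z : X × Y => p z.1)).card = (univ.filter p).card * Fintype.card Y := by
  rw [show (univ.filter (fun z : X × Y => p z.1)) = (univ.filter p) ×ˢ univ by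
    ext z; simp, Finset.card_product, Finset.card_univ]

theorem card_upsets (S : ι → Bool × V → Prop) (K M : ℕ) :
    Nat.card (Hom (R2 (Inc S K M)) B2) =
      ∑ T : Bool × V → Bool, 2 ^ (K * missed S T + M * (2 * Fintype.card V - chosen T)) := by
  classical
  rw [card_homR2]
  apply Finset.sum_congr rfl
  intro T _
  congr 1
  rw [Finset.card_filter, Fintype.sum_sum_type, ← Finset.card_filter, ← Finset.card_filter]
  congr 1
  · have := card_filter_prod (X := V ⊕ ι) (Y := Fin K) (fun e => ¬ ∃ a, T a = true ∧ HE S e a)
    simp only [Fintype.card_fin] at this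
    unfold missed
    rw [mul_comm K, ← this]
    rfl
  · have := card_filter_prod (X := Bool × V) (Y := Fin M) (fun a => ¬ (T a = true))
    simp only [Fintype.card_fin] at this
    have h2 : (univ.filter (fun a => ¬ (T a = true))).card = 2 * Fintype.card V - chosen T := by
      unfold chosen
      have h3 := Finset.card_filter_add_card_filter_not (s := (univ : Finset (Bool × V)))
        (fun a => T a = true)
      rw [Finset.card_univ, Fintype.card_prod, Fintype.card_bool] at h3
      omega
    rw [← h2, mul_comm M, ← this]
    apply congrArg Finset.card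
    apply Finset.filter_congr
    intro x _
    simp [Inc]

/-- Satisfying assignments. -/
def Sats (S : ι → Bool × V → Prop) : Type := {σ : V → Bool // ∀ c, ∃ a, S c a ∧ σ a.2 = a.1}

omit [DecidableEq V] in
theorem chosen_le (T : Bool × V → Bool) : chosen T ≤ 2 * Fintype.card V := by
  unfold chosen
  refine (Finset.card_le_univ _).trans ?_
  rw [Fintype.card_prod, Fintype.card_bool]

omit [DecidableEq V] in
theorem missed_eq_zero {S : ι → Bool × V → Prop} {T : Bool × V → Bool} :
    missed S T = 0 ↔ ∀ e, ∃ a, T a = true ∧ HE S e a := by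
  classical
  unfold missed
  rw [Finset.card_eq_zero, Finset.filter_eq_empty_iff]
  simp only [Finset.mem_univ, not_not, forall_const]

/-- If every variable pair is hit, there are at least as many literals chosen as variables, and in
case of equality the choice is an assignment. -/
theorem chosen_ge {T : Bool × V → Bool} (h : ∀ v, ∃ a, T a = true ∧ a.2 = v) :
    Fintype.card V ≤ chosen T ∧ (chosen T = Fintype.card V →
      ∀ v, ¬ (T (true, v) = true ∧ T (false, v) = true)) := by
  classical
  choose g hg1 hg2 using h
  have himg : univ.image g ⊆ univ.filter (fun a => T a = true) := by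
    intro a ha
    rw [Finset.mem_image] at ha
    obtain ⟨v, _, rfl⟩ := ha
    simp [hg1]
  have hcard : (univ.image g).card = Fintype.card V := by
    rw [Finset.card_image_of_injective, Finset.card_univ]
    intro v w hvw
    rw [← hg2 v, ← hg2 w, hvw]
  refine ⟨?_, ?_⟩
  · rw [← hcard]
    exact Finset.card_le_card himg
  · intro heq v hv
    have h1 : univ.image g = univ.filter (fun a => T a = true) := by
      apply Finset.eq_of_subset_of_card_le himg
      rw [hcard]
      exact heq.le
    have h2 : ((true, v) : Bool × V) ∈ univ.image g := by rw [h1]; simp [hv.1]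
    have h3 : ((false, v) : Bool × V) ∈ univ.image g := by rw [h1]; simp [hv.2]
    rw [Finset.mem_image] at h2 h3
    obtain ⟨v1, _, hv1⟩ := h2
    obtain ⟨v2, _, hv2⟩ := h3
    have e1 : v1 = v := by rw [← hg2 v1, hv1]
    have e2 : v2 = v := by rw [← hg2 v2, hv2]
    rw [e1] at hv1
    rw [e2, hv1] at hv2
    simp at hv2

open Classical in
/-- Satisfying assignments are the hitting sets with as few literals as possible. -/
theorem card_sats (S : ι → Bool × V → Prop) : Nat.card (Sats S) =
    (univ.filter (fun T : Bool × V → Bool => missed S T = 0 ∧ chosen T = Fintype.card V)).card := by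
  rw [← Fintype.card_subtype, ← Nat.card_eq_fintype_card]
  let F : Sats S → {T : Bool × V → Bool // missed S T = 0 ∧ chosen T = Fintype.card V} :=
    fun σ => ⟨fun a => decide (σ.1 a.2 = a.1), by
      constructor
      · rw [missed_eq_zero]
        rintro (v | c)
        · exact ⟨(σ.1 v, v), by simp, rfl⟩
        · obtain ⟨a, ha, ha'⟩ := σ.2 c
          exact ⟨a, by simpa using ha', ha⟩
      · unfold chosen
        rw [← Finset.card_univ (α := V)]
        symm
        apply Finset.card_bij (fun v _ => (σ.1 v, v))
        · intro v _; simp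
        · intro v _ w _ h
          exact (Prod.ext_iff.1 h).2
        · intro a ha
          refine ⟨a.2, Finset.mem_univ _, ?_⟩
          simp only [Finset.mem_filter, Finset.mem_univ, true_and, decide_eq_true_eq] at ha
          exact Prod.ext ha rfl⟩
  refine Nat.card_eq_of_bijective F ⟨?_, ?_⟩
  · intro σ σ' h
    apply Subtype.ext
    funext v
    have := congrFun (congrArg Subtype.val h) (σ.1 v, v)
    simp only [F, decide_true] at this
    have h2 : σ'.1 v = σ.1 v := by
      by_contra hne
      rw [decide_eq_false hne] at this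
      simp at this
    exact h2.symm
  · rintro ⟨T, hT1, hT2⟩
    rw [missed_eq_zero] at hT1
    have hv : ∀ v, ∃ a, T a = true ∧ a.2 = v := fun v => hT1 (Sum.inl v)
    have hnot := (chosen_ge hv).2 hT2
    have hfun : ∀ a : Bool × V, decide (T (true, a.2) = a.1) = T a := by
      rintro ⟨b, v⟩
      have h1 := hnot v
      obtain ⟨⟨b', v'⟩, h2, h3⟩ := hv v
      simp only at h3
      subst h3
      cases b
      · cases hf : T (false, v')
        · cases b'
          · rw [hf] at h2; simp at h2
          · simp [h2]
        · cases ht : T (true, v')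
          · simp
          · exact absurd ⟨ht, hf⟩ h1
      · simp
    refine ⟨⟨fun v => T (true, v), fun c => ?_⟩, ?_⟩
    · obtain ⟨a, ha, ha'⟩ := hT1 (Sum.inr c)
      refine ⟨a, ha', ?_⟩
      have := hfun a
      rw [ha] at this
      simpa using this
    · apply Subtype.ext
      funext a
      exact hfun a

/-- The arithmetic decoding of the number of satisfying assignments. -/
theorem decode (S : ι → Bool × V → Prop) (N K M : ℕ) (hN : N = Fintype.card V)
    (hM : M = 2 * N + 1) (hK : K = 2 * N + M * N + 1) :
    (Nat.card (Hom (R2 (Inc S K M)) B2) % 2 ^ K) / 2 ^ (M * N) = Nat.card (Sats S) := by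
  classical
  rw [card_upsets, ← hN]
  have hsplit : ∑ T : Bool × V → Bool, 2 ^ (K * missed S T + M * (2 * N - chosen T)) =
      ∑ T ∈ univ.filter (fun T : Bool × V → Bool => missed S T = 0),
        2 ^ (K * missed S T + M * (2 * N - chosen T)) +
      ∑ T ∈ univ.filter (fun T : Bool × V → Bool => ¬ missed S T = 0),
        2 ^ (K * missed S T + M * (2 * N - chosen T)) :=
    (Finset.sum_filter_add_sum_filter_not _ _ _).symm
  have hdvd : 2 ^ K ∣ ∑ T ∈ univ.filter (fun T : Bool × V → Bool => ¬ missed S T = 0),
        2 ^ (K * missed S T + M * (2 * N - chosen T)) := by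
    apply Finset.dvd_sum
    intro T hT
    rw [Finset.mem_filter] at hT
    apply Nat.pow_dvd_pow
    have : 1 ≤ missed S T := Nat.one_le_iff_ne_zero.2 hT.2
    nlinarith
  have hcount : Fintype.card (Bool × V → Bool) = 2 ^ (2 * N) := by
    rw [Fintype.card_fun, Fintype.card_prod, Fintype.card_bool, hN]
  -- the part without missed hyperedges
  have hsplit2 : ∑ T ∈ univ.filter (fun T : Bool × V → Bool => missed S T = 0),
        2 ^ (K * missed S T + M * (2 * N - chosen T)) =
      ∑ T ∈ univ.filter (fun T : Bool × V → Bool => missed S T = 0 ∧ chosen T = N),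
        2 ^ (K * missed S T + M * (2 * N - chosen T)) +
      ∑ T ∈ univ.filter (fun T : Bool × V → Bool => missed S T = 0 ∧ ¬ chosen T = N),
        2 ^ (K * missed S T + M * (2 * N - chosen T)) := by
    rw [← Finset.sum_filter_add_sum_filter_not (univ.filter (fun T : Bool × V → Bool =>
      missed S T = 0)) (fun T => chosen T = N), Finset.filter_filter, Finset.filter_filter]
  have hmain : ∑ T ∈ univ.filter (fun T : Bool × V → Bool => missed S T = 0 ∧ chosen T = N),
        2 ^ (K * missed S T + M * (2 * N - chosen T)) = Nat.card (Sats S) * 2 ^ (M * N) := by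
    rw [card_sats, ← hN, Finset.sum_congr rfl (g := fun _ => 2 ^ (M * N))]
    · rw [Finset.sum_const, smul_eq_mul]
    · intro T hT
      rw [Finset.mem_filter] at hT
      rw [hT.2.1, hT.2.2]
      congr 1
      rw [show 2 * N - N = N by omega]
      ring
  have hrest : ∑ T ∈ univ.filter (fun T : Bool × V → Bool => missed S T = 0 ∧ ¬ chosen T = N),
        2 ^ (K * missed S T + M * (2 * N - chosen T)) < 2 ^ (M * N) := by
    by_cases hN0 : N = 0
    · rw [Finset.sum_eq_zero]
      · positivity
      · intro T hT
        rw [Finset.mem_filter] at hT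
        have := chosen_le T
        omega
    · calc ∑ T ∈ univ.filter (fun T : Bool × V → Bool => missed S T = 0 ∧ ¬ chosen T = N),
            2 ^ (K * missed S T + M * (2 * N - chosen T))
          ≤ ∑ T ∈ univ.filter (fun T : Bool × V → Bool => missed S T = 0 ∧ ¬ chosen T = N),
            2 ^ (M * (N - 1)) := by
            apply Finset.sum_le_sum
            intro T hT
            rw [Finset.mem_filter] at hT
            apply Nat.pow_le_pow_right (by norm_num)
            rw [hT.2.1]
            have h1 : ∀ v, ∃ a, T a = true ∧ a.2 = v := fun v =>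
              missed_eq_zero.1 hT.2.1 (Sum.inl v)
            have h2 := (chosen_ge h1).1
            rw [← hN] at h2
            have h3 : N < chosen T := lt_of_le_of_ne h2 (Ne.symm hT.2.2)
            rw [mul_zero, zero_add]
            exact Nat.mul_le_mul_left _ (by omega)
        _ ≤ ∑ T : Bool × V → Bool, 2 ^ (M * (N - 1)) :=
            Finset.sum_le_sum_of_subset (Finset.filter_subset _ _)
        _ = 2 ^ (2 * N) * 2 ^ (M * (N - 1)) := by
            rw [Finset.sum_const, smul_eq_mul, Finset.card_univ, hcount]
        _ = 2 ^ (2 * N + M * (N - 1)) := by rw [pow_add]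
        _ < 2 ^ (M * N) := by
            apply Nat.pow_lt_pow_right (by norm_num)
            obtain ⟨n, rfl⟩ : ∃ n, N = n + 1 := ⟨N - 1, by omega⟩
            rw [hM]
            simp only [Nat.add_sub_cancel]
            ring_nf
            omega
  have hle : Nat.card (Sats S) ≤ 2 ^ (2 * N) := by
    rw [card_sats, ← hcount, ← Finset.card_univ]
    exact Finset.card_le_card (Finset.filter_subset _ _)
  rw [hsplit, hsplit2, hmain]
  obtain ⟨q, hq⟩ := hdvd
  rw [hq]
  set R := ∑ T ∈ univ.filter (fun T : Bool × V → Bool => missed S T = 0 ∧ ¬ chosen T = N),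
        2 ^ (K * missed S T + M * (2 * N - chosen T)) with hR
  rw [Nat.add_mul_mod_self_left, Nat.mod_eq_of_lt, mul_comm, Nat.mul_add_div (by positivity),
    Nat.div_eq_of_lt hrest, add_zero]
  calc Nat.card (Sats S) * 2 ^ (M * N) + R < 2 ^ (2 * N) * 2 ^ (M * N) + 2 ^ (M * N) := by
        have := Nat.mul_le_mul_right (2 ^ (M * N)) hle
        omega
    _ ≤ 2 ^ K := by
        rw [hK, pow_succ, pow_add]
        have : 1 ≤ 2 ^ (2 * N) := Nat.one_le_two_pow
        nlinarith [Nat.one_le_two_pow (n := M * N)]

end Sat

end Pool.Agent.H596R2
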