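import Pool.Agent.H596R2.Matrix
import Pool.Agent.H596R2.EndArith
import Pool.Agent.NPC.Num

/-!
# The reduction from counting satisfying assignments to counting self-maps
-/

namespace Pool.Agent.NPC.H596

open Pool.Agent.H596R2

/-! ### Removing duplicates -/

/-- Removing duplicates from a list. -/
def nub {α : Type} [DecidableEq α] (l : List α) : List α :=
  l.foldl (fun acc a => if a ∈ acc then acc else a :: acc) []

section Nub

variable {α : Type} [DecidableEq α]

theorem nub_aux (l : List α) : ∀ acc : List α, acc.Nodup →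
    (l.foldl (fun acc a => if a ∈ acc then acc else a :: acc) acc).Nodup ∧
    ∀ a, a ∈ l.foldl (fun acc a => if a ∈ acc then acc else a :: acc) acc ↔ a ∈ acc ∨ a ∈ l := by
  induction l with
  | nil => intro acc h; simp [h]
  | cons b l ih =>
    intro acc h
    rw [List.foldl_cons]
    by_cases hb : b ∈ acc
    · rw [if_pos hb]
      refine ⟨(ih acc h).1, fun a => ?_⟩
      rw [(ih acc h).2 a, List.mem_cons]
      constructor
      · rintro (h1 | h1)
        · exact Or.inl h1
        · exact Or.inr (Or.inr h1)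
      · rintro (h1 | h1 | h1)
        · exact Or.inl h1
        · exact Or.inl (h1 ▸ hb)
        · exact Or.inr h1
    · rw [if_neg hb]
      have h' : (b :: acc).Nodup := List.nodup_cons.2 ⟨hb, h⟩
      refine ⟨(ih _ h').1, fun a => ?_⟩
      rw [(ih _ h').2 a, List.mem_cons, List.mem_cons]
      tauto

theorem nub_nodup (l : List α) : (nub l).Nodup := (nub_aux l [] List.nodup_nil).1

@[simp] theorem mem_nub {l : List α} {a : α} : a ∈ nub l ↔ a ∈ l := by
  have := (nub_aux l [] List.nodup_nil).2 a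
  simpa [nub] using this

theorem Poly_nub {β : Type} [TEnc α] [TEnc β] {l : β → List α} (hl : Poly l) :
    Poly (fun b => nub (l b)) := by
  obtain ⟨q, hq⟩ := hl.sz_le
  have key : ∀ (l acc : List α),
      sz (l.foldl (fun acc a => if a ∈ acc then acc else a :: acc) acc) ≤ sz acc + sz l := by
    intro l
    induction l with
    | nil => intro acc; simp
    | cons a l ih =>
      intro acc
      rw [List.foldl_cons]
      refine (ih _).trans ?_
      split_ifs
      · simp; omega
      · simp; omega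
  refine Poly.foldl (s := fun _ : β => ([] : List α)) (F := fun (_ : β) (acc : List α) (a : α) =>
    if a ∈ acc then acc else a :: acc) hl (Poly.const []) ?_ (q + Polynomial.C 1) ?_
  · exact Poly.ite (Poly.decide_mem (Poly.snd (Poly.snd Poly.id)) (Poly.fst (Poly.snd Poly.id)))
      (Poly.fst (Poly.snd Poly.id))
      (Poly.cons (Poly.snd (Poly.snd Poly.id)) (Poly.fst (Poly.snd Poly.id)))
  · intro b k hk
    have h1 := key ((l b).take k) []
    have h2 := Poly.sz_take_le (l b) k
    have h3 := hq b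
    simp only [sz_list_nil] at h1
    simp only [Polynomial.eval_add, Polynomial.eval_C]
    omega

end Nub

/-! ### The elements of the poset -/

/-- Elements of the constructed posets: a tag, a literal, an index and a copy number. -/
abbrev El : Type := ℕ × (Bool × ℕ) × ℕ × ℕ

/-- The order of the constructed posets. -/
def leEl (φ : List (List (Bool × ℕ))) (x y : El) : Prop :=
  x = y ∨ (x.1 = 0 ∧ y.1 ≤ 4) ∨
  (x.1 = 1 ∧ ((y.1 = 2 ∧ x.2.1.2 = y.2.2.1) ∨ (y.1 = 3 ∧ x.2.1 ∈ φ.getD y.2.2.1 []) ∨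
    (y.1 = 4 ∧ x.2.1 = y.2.1))) ∨ (x.1 = 5 ∧ y.1 = 6)

instance (φ : List (List (Bool × ℕ))) (x y : El) : Decidable (leEl φ x y) := by
  unfold leEl; infer_instance

/-- The variables of a formula. -/
def vlist (φ : List (List (Bool × ℕ))) : List ℕ := nub (φ.flatten.map Prod.snd)

/-- The literals of a formula. -/
def lits (φ : List (List (Bool × ℕ))) : List (Bool × ℕ) :=
  (vlist φ).flatMap (fun v => [(true, v), (false, v)])

/-- The number of variables. -/
def pN (φ : List (List (Bool × ℕ))) : ℕ := (vlist φ).length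

/-- The number of private elements of each literal. -/
def pM (φ : List (List (Bool × ℕ))) : ℕ := 2 * pN φ + 1

/-- The number of private elements of each hyperedge. -/
def pK (φ : List (List (Bool × ℕ))) : ℕ := 2 * pN φ + pM φ * pN φ + 1

/-- The elements of the first poset. -/
def els1 (φ : List (List (Bool × ℕ))) : List El :=
  nub ((0, (false, 0), 0, 0) :: ((lits φ).map (fun a => (1, a, 0, 0)) ++
  ((vlist φ).flatMap (fun v => (List.range (pK φ)).map (fun k => (2, (false, 0), v, k))) ++
  ((List.range φ.length).flatMap (fun c => (List.range (pK φ)).map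
    (fun k => (3, (false, 0), c, k))) ++
  (lits φ).flatMap (fun a => (List.range (pM φ)).map (fun k => (4, a, 0, k)))))))

/-- The elements of the second poset. -/
def els2 (φ : List (List (Bool × ℕ))) : List El :=
  nub ((5, (false, 0), 0, 0) :: (6, (false, 0), 0, 0) :: els1 φ)

/-- The matrix of the first poset. -/
def mat1 (φ : List (List (Bool × ℕ))) : List (List Bool) :=
  matrixOf (els1 φ) (fun x y => decide (leEl φ x y))

/-- The matrix of the second poset. -/
def mat2 (φ : List (List (Bool × ℕ))) : List (List Bool) :=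
  matrixOf (els2 φ) (fun x y => decide (leEl φ x y))

/-- The number of related pairs. -/
def relPairs (M : List (List Bool)) : ℕ := (M.flatten.filter (fun b => b)).length

section Correct

variable (φ : List (List (Bool × ℕ)))

/-- Variables of the formula, as a type. -/
abbrev VT : Type := {v // v ∈ vlist φ}

theorem card_VT : Fintype.card (VT φ) = pN φ := by
  unfold pN
  rw [← List.toFinset_card_of_nodup (show (vlist φ).Nodup from nub_nodup _)]
  rw [← Fintype.card_coe]
  exact Fintype.card_congr (Equiv.subtypeEquivRight (fun v => by simp))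

/-- Literals in clauses. -/
def SC (c : Fin φ.length) (a : Bool × VT φ) : Prop := (a.1, a.2.1) ∈ φ[c]

/-- The abstract form of the first poset. -/
abbrev Q0 : Type := (Bool × VT φ) ⊕ (((VT φ ⊕ Fin φ.length) × Fin (pK φ)) ⊕
  ((Bool × VT φ) × Fin (pM φ)))

/-- From abstract elements to concrete ones. -/
def g0 : Q0 φ → El
  | Sum.inl a => (1, (a.1, a.2.1), 0, 0)
  | Sum.inr (Sum.inl (Sum.inl v, k)) => (2, (false, 0), v.1, k)
  | Sum.inr (Sum.inl (Sum.inr c, k)) => (3, (false, 0), c, k)
  | Sum.inr (Sum.inr (a, k)) => (4, (a.1, a.2.1), 0, k)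

/-- From abstract elements to concrete ones. -/
def g1 : Option (Q0 φ) → El
  | none => (0, (false, 0), 0, 0)
  | some x => g0 φ x

/-- From abstract elements to concrete ones. -/
def g2 : Option (Q0 φ) ⊕ Bool → El
  | Sum.inl x => g1 φ x
  | Sum.inr false => (5, (false, 0), 0, 0)
  | Sum.inr true => (6, (false, 0), 0, 0)

theorem g0_injective : Function.Injective (g0 φ) := by
  rintro (⟨b, v⟩ | ⟨v | c, k⟩ | ⟨⟨b, v⟩, k⟩) (⟨b', v'⟩ | ⟨v' | c', k'⟩ | ⟨⟨b', v'⟩, k'⟩) h <;>
    simp only [g0, Prod.mk.injEq, false_and, and_true, true_and, Nat.reduceEqDiff,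
      OfNat.one_ne_ofNat, OfNat.ofNat_ne_one] at h
  · obtain ⟨rfl, h2⟩ := h
    rw [Subtype.ext h2]
  · obtain ⟨h1, h2⟩ := h
    rw [Subtype.ext h1, Fin.ext h2]
  · obtain ⟨h1, h2⟩ := h
    rw [Fin.ext h1, Fin.ext h2]
  · obtain ⟨⟨rfl, h2⟩, h3⟩ := h
    rw [Subtype.ext h2, Fin.ext h3]

theorem g0_tag (x : Q0 φ) : (g0 φ x).1 ≠ 0 ∧ (g0 φ x).1 ≤ 4 := by
  rcases x with ⟨b, v⟩ | ⟨v | c, k⟩ | ⟨⟨b, v⟩, k⟩ <;> simp [g0]

theorem g1_injective : Function.Injective (g1 φ) := by
  rintro (_ | x) (_ | y) h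
  · rfl
  · exact absurd (congrArg Prod.fst h).symm (g0_tag φ y).1
  · exact absurd (congrArg Prod.fst h) (g0_tag φ x).1
  · exact congrArg some (g0_injective φ h)

theorem g1_tag (x : Option (Q0 φ)) : (g1 φ x).1 ≤ 4 := by
  rcases x with _ | x
  · simp [g1]
  · exact (g0_tag φ x).2

theorem g2_injective : Function.Injective (g2 φ) := by
  rintro (x | (_ | _)) (y | (_ | _)) h
  · exact congrArg Sum.inl (g1_injective φ h)
  · have h1 := congrArg Prod.fst h
    have h2 := g1_tag φ x
    simp only [g2] at h1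
    omega
  · have h1 := congrArg Prod.fst h
    have h2 := g1_tag φ x
    simp only [g2] at h1
    omega
  · have h1 := congrArg Prod.fst h
    have h2 := g1_tag φ y
    simp only [g2] at h1
    omega
  · rfl
  · simp [g2] at h
  · have h1 := congrArg Prod.fst h
    have h2 := g1_tag φ y
    simp only [g2] at h1
    omega
  · simp [g2] at h
  · rfl

theorem mem_lits {a : Bool × ℕ} : a ∈ lits φ ↔ a.2 ∈ vlist φ := by
  obtain ⟨b, v⟩ := a
  unfold lits
  rw [List.mem_flatMap]
  constructor
  · rintro ⟨w, hw, h⟩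
    simp only [List.mem_cons, Prod.mk.injEq, List.not_mem_nil, or_false] at h
    rcases h with ⟨_, rfl⟩ | ⟨_, rfl⟩ <;> exact hw
  · intro h
    refine ⟨v, h, ?_⟩
    cases b <;> simp

theorem mem_els1 (x : El) : x ∈ els1 φ ↔ ∃ b, g1 φ b = x := by
  unfold els1
  rw [mem_nub, List.mem_cons, List.mem_append, List.mem_append, List.mem_append]
  constructor
  · rintro (rfl | h | h | h | h)
    · exact ⟨none, rfl⟩
    · rw [List.mem_map] at h
      obtain ⟨a, ha, rfl⟩ := h
      exact ⟨some (Sum.inl (a.1, ⟨a.2, (mem_lits φ).1 ha⟩)), rfl⟩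
    · rw [List.mem_flatMap] at h
      obtain ⟨v, hv, h⟩ := h
      rw [List.mem_map] at h
      obtain ⟨k, hk, rfl⟩ := h
      exact ⟨some (Sum.inr (Sum.inl (Sum.inl ⟨v, hv⟩, ⟨k, List.mem_range.1 hk⟩))), rfl⟩
    · rw [List.mem_flatMap] at h
      obtain ⟨c, hc, h⟩ := h
      rw [List.mem_map] at h
      obtain ⟨k, hk, rfl⟩ := h
      exact ⟨some (Sum.inr (Sum.inl (Sum.inr ⟨c, List.mem_range.1 hc⟩, ⟨k, List.mem_range.1 hk⟩))),
        rfl⟩
    · rw [List.mem_flatMap] at h
      obtain ⟨a, ha, h⟩ := h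
      rw [List.mem_map] at h
      obtain ⟨k, hk, rfl⟩ := h
      exact ⟨some (Sum.inr (Sum.inr ((a.1, ⟨a.2, (mem_lits φ).1 ha⟩),
        ⟨k, List.mem_range.1 hk⟩))), rfl⟩
  · rintro ⟨b, rfl⟩
    rcases b with _ | ⟨b, v⟩ | ⟨v | c, k⟩ | ⟨⟨b, v⟩, k⟩
    · exact Or.inl rfl
    · refine Or.inr (Or.inl ?_)
      rw [List.mem_map]
      exact ⟨(b, v.1), (mem_lits φ).2 v.2, rfl⟩
    · refine Or.inr (Or.inr (Or.inl ?_))
      rw [List.mem_flatMap]
      refine ⟨v.1, v.2, ?_⟩
      rw [List.mem_map]
      exact ⟨k, List.mem_range.2 k.2, rfl⟩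
    · refine Or.inr (Or.inr (Or.inr (Or.inl ?_)))
      rw [List.mem_flatMap]
      refine ⟨c, List.mem_range.2 c.2, ?_⟩
      rw [List.mem_map]
      exact ⟨k, List.mem_range.2 k.2, rfl⟩
    · refine Or.inr (Or.inr (Or.inr (Or.inr ?_)))
      rw [List.mem_flatMap]
      refine ⟨(b, v.1), (mem_lits φ).2 v.2, ?_⟩
      rw [List.mem_map]
      exact ⟨k, List.mem_range.2 k.2, rfl⟩

theorem mem_els2 (x : El) : x ∈ els2 φ ↔ ∃ b, g2 φ b = x := by
  unfold els2
  rw [mem_nub, List.mem_cons, List.mem_cons, mem_els1]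
  constructor
  · rintro (rfl | rfl | ⟨b, rfl⟩)
    · exact ⟨Sum.inr false, rfl⟩
    · exact ⟨Sum.inr true, rfl⟩
    · exact ⟨Sum.inl b, rfl⟩
  · rintro ⟨b | (_ | _), rfl⟩
    · exact Or.inr (Or.inr ⟨b, rfl⟩)
    · exact Or.inl rfl
    · exact Or.inr (Or.inl rfl)

/-- The abstract order of the first poset. -/
abbrev ord0 : Q0 φ → Q0 φ → Prop := R2 (Inc (SC φ) (pK φ) (pM φ))

theorem getD_eq {c : Fin φ.length} : φ.getD c [] = φ[c] := by
  rw [List.getD_eq_getElem?_getD, List.getElem?_eq_getElem c.2]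
  rfl

theorem ord0_iff (x y : Q0 φ) : ord0 φ x y ↔ leEl φ (g0 φ x) (g0 φ y) := by
  have hinj := g0_injective φ
  rcases x with a | b
  · rcases y with a' | ⟨v | c, k⟩ | ⟨a', k⟩
    · have : ord0 φ (Sum.inl a) (Sum.inl a') ↔ (Sum.inl a : Q0 φ) = Sum.inl a' := by
        simp [ord0, R2]
      rw [this, ← hinj.eq_iff]
      simp [leEl, g0]
    · simp [leEl, g0, ord0, R2, Inc, HE, Subtype.ext_iff]
    · simp only [leEl, g0, ord0, R2, Inc, HE, SC, getD_eq]
      simp
    · simp [leEl, g0, ord0, R2, Inc, Prod.ext_iff, Subtype.ext_iff]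
  · rcases y with a' | b'
    · have h1 : (g0 φ (Sum.inl a')).1 = 1 := rfl
      have h2 : 2 ≤ (g0 φ (Sum.inr b)).1 ∧ (g0 φ (Sum.inr b)).1 ≤ 4 := by
        rcases b with ⟨v | c, k⟩ | ⟨a', k⟩ <;> simp [g0]
      have h3 : ¬ g0 φ (Sum.inr b) = g0 φ (Sum.inl a') := by
        intro h
        rw [h, h1] at h2
        omega
      unfold leEl
      have h4 : ¬ ord0 φ (Sum.inr b) (Sum.inl a') := fun h => h
      constructor
      · intro h; exact absurd h h4
      · rintro (h | h | h | h)
        · exact absurd h h3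
        · omega
        · omega
        · omega
    · have : ord0 φ (Sum.inr b) (Sum.inr b') ↔ (Sum.inr b : Q0 φ) = Sum.inr b' := by
        simp [ord0, R2]
      rw [this, ← hinj.eq_iff]
      have h2 : 2 ≤ (g0 φ (Sum.inr b)).1 ∧ (g0 φ (Sum.inr b)).1 ≤ 4 := by
        rcases b with ⟨v | c, k⟩ | ⟨a', k⟩ <;> simp [g0]
      unfold leEl
      constructor
      · intro h; exact Or.inl h
      · rintro (h | h | h | h)
        · exact h
        · omega
        · omega
        · omega

theorem ord1_iff (x y : Option (Q0 φ)) : AB (ord0 φ) x y ↔ leEl φ (g1 φ x) (g1 φ y) := by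
  rcases x with _ | x <;> rcases y with _ | y
  · simp [AB, leEl, g1]
  · have := (g0_tag φ y).2
    simp [AB, leEl, g1, this]
  · have h1 := g0_tag φ x
    have h3 : ¬ g0 φ x = (0, (false, 0), 0, 0) := by
      intro h
      rw [h] at h1
      exact h1.1 rfl
    simp only [AB, false_iff]
    rintro (h | h | ⟨h, h' | h' | h'⟩ | h)
    · exact h3 h
    · exact h1.1 h.1
    · exact absurd h'.1 (by simp [g1])
    · exact absurd h'.1 (by simp [g1])
    · exact absurd h'.1 (by simp [g1])
    · exact absurd h.2 (by simp [g1])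
  · exact ord0_iff φ x y

theorem ord2_iff (x y : Option (Q0 φ) ⊕ Bool) :
    DU (AB (ord0 φ)) B2 x y ↔ leEl φ (g2 φ x) (g2 φ y) := by
  rcases x with x | b <;> rcases y with y | b'
  · exact ord1_iff φ x y
  · have h1 := g1_tag φ x
    have h2 : 5 ≤ (g2 φ (Sum.inr b')).1 := by cases b' <;> simp [g2]
    have h3 : ¬ g1 φ x = g2 φ (Sum.inr b') := by
      intro h
      rw [← h] at h2
      omega
    constructor
    · intro h; exact h.elim
    · change leEl φ (g1 φ x) (g2 φ (Sum.inr b')) → _
      unfold leEl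
      rintro (h | h | h | h)
      · exact absurd h h3
      · omega
      · omega
      · omega
  · have h1 := g1_tag φ y
    have h2 : 5 ≤ (g2 φ (Sum.inr b)).1 := by cases b <;> simp [g2]
    have h3 : ¬ g2 φ (Sum.inr b) = g1 φ y := by
      intro h
      rw [h] at h2
      omega
    constructor
    · intro h; exact h.elim
    · change leEl φ (g2 φ (Sum.inr b)) (g1 φ y) → _
      unfold leEl
      rintro (h | h | h | h)
      · exact absurd h h3
      · omega
      · omega
      · omega
  · cases b <;> cases b' <;> simp [DU, B2, leEl, g2]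

section PO

variable {α β : Type} {r : α → α → Prop} {s : β → β → Prop}

/-- Reflexive, antisymmetric and transitive relations. -/
def PO (r : α → α → Prop) : Prop :=
  (∀ a, r a a) ∧ (∀ a b, r a b → r b a → a = b) ∧ ∀ a b c, r a b → r b c → r a c

theorem PO_R2 {A B : Type} (I : A → B → Prop) : PO (R2 I) := by
  refine ⟨?_, ?_, ?_⟩
  · rintro (a | a) <;> simp [R2]
  · rintro (a | a) (b | b) h1 h2
    · exact congrArg Sum.inl h1
    · exact h2.elim
    · exact h1.elim
    · exact congrArg Sum.inr h1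
  · rintro (a | a) (b | b) (c | c) h1 h2
    · exact Eq.trans h1 h2
    · have h1 : a = b := h1
      subst h1; exact h2
    · exact h2.elim
    · have h2 : b = c := h2
      subst h2; exact h1
    · exact h1.elim
    · exact h1.elim
    · exact h2.elim
    · exact Eq.trans h1 h2

theorem PO_AB (hr : PO r) : PO (AB r) := by
  refine ⟨?_, ?_, ?_⟩
  · rintro (_ | a)
    · trivial
    · exact hr.1 a
  · rintro (_ | a) (_ | b) h1 h2
    · rfl
    · exact h2.elim
    · exact h1.elim
    · exact congrArg some (hr.2.1 a b h1 h2)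
  · rintro (_ | a) (_ | b) (_ | c) h1 h2
    · trivial
    · trivial
    · trivial
    · trivial
    · exact h1.elim
    · exact h1.elim
    · exact h2.elim
    · exact hr.2.2 a b c h1 h2

theorem PO_B2 : PO B2 := by
  refine ⟨fun a h => h, ?_, fun a b c h1 h2 h => h2 (h1 h)⟩
  rintro (_ | _) (_ | _) h1 h2
  · rfl
  · exact absurd (h2 rfl) (by simp)
  · exact absurd (h1 rfl) (by simp)
  · rfl

theorem PO_DU (hr : PO r) (hs : PO s) : PO (DU r s) := by
  refine ⟨?_, ?_, ?_⟩
  · rintro (a | a)
    · exact hr.1 a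
    · exact hs.1 a
  · rintro (a | a) (b | b) h1 h2
    · exact congrArg Sum.inl (hr.2.1 a b h1 h2)
    · exact h1.elim
    · exact h1.elim
    · exact congrArg Sum.inr (hs.2.1 a b h1 h2)
  · rintro (a | a) (b | b) (c | c) h1 h2
    · exact hr.2.2 a b c h1 h2
    · exact h2.elim
    · exact h1.elim
    · exact h1.elim
    · exact h1.elim
    · exact h1.elim
    · exact h2.elim
    · exact hs.2.2 a b c h1 h2

/-- Matrices given by lists of elements in bijection with a type. -/
theorem countEnd_of {γ : Type} {l : List γ} {le : γ → γ → Prop} [DecidableRel le]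
    (hl : l.Nodup) (hs : PO s) (g : β → γ) (hg : Function.Injective g)
    (hmem : ∀ a, a ∈ l ↔ ∃ b, g b = a) (hle : ∀ a b, s a b ↔ le (g a) (g b)) :
    IsPoset (matrixOf l (fun x y => decide (le x y))) ∧
    countEnd (matrixOf l (fun x y => decide (le x y))) = Nat.card (Hom s s) := by
  have hP : IsPoset (matrixOf l (fun x y => decide (le x y))) := by
    apply isPoset_matrixOf hl
    · intro a ha
      obtain ⟨a, rfl⟩ := (hmem a).1 ha
      rw [decide_eq_true_iff, ← hle]
      exact hs.1 a
    · intro a ha b hb hab hba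
      obtain ⟨a, rfl⟩ := (hmem a).1 ha
      obtain ⟨b, rfl⟩ := (hmem b).1 hb
      rw [decide_eq_true_iff, ← hle] at hab hba
      rw [hs.2.1 a b hab hba]
    · intro a ha b hb c hc hab hbc
      obtain ⟨a, rfl⟩ := (hmem a).1 ha
      obtain ⟨b, rfl⟩ := (hmem b).1 hb
      obtain ⟨c, rfl⟩ := (hmem c).1 hc
      rw [decide_eq_true_iff, ← hle] at hab hbc ⊢
      exact hs.2.2 a b c hab hbc
  refine ⟨hP, ?_⟩
  let e : β ≃ {a // a ∈ l} := Equiv.ofBijective (fun b => ⟨g b, (hmem _).2 ⟨b, rfl⟩⟩) (by
    constructor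
    · intro a b h
      exact hg (congrArg Subtype.val h)
    · rintro ⟨a, ha⟩
      obtain ⟨b, rfl⟩ := (hmem a).1 ha
      exact ⟨b, rfl⟩)
  refine countEnd_matrixOf hl hP e ?_
  intro a b
  rw [decide_eq_true_iff, hle]
  rfl

/-- Related pairs of a matrix given by a list. -/
theorem relPairs_of {γ : Type} {l : List γ} {le : γ → γ → Prop} [DecidableRel le]
    (hl : l.Nodup) (g : β → γ) (hg : Function.Injective g)
    (hmem : ∀ a, a ∈ l ↔ ∃ b, g b = a) (hle : ∀ a b, s a b ↔ le (g a) (g b)) :
    relPairs (matrixOf l (fun x y => decide (le x y))) = Nat.card {p : β × β // s p.1 p.2} := by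
  classical
  have h1 : relPairs (matrixOf l (fun x y => decide (le x y))) =
      ((l.product l).filter (fun p => decide (le p.1 p.2))).length := by
    unfold relPairs matrixOf List.product
    rw [← List.countP_eq_length_filter, ← List.countP_eq_length_filter, List.countP_flatten,
      List.countP_flatMap, List.map_map]
    congr 1
    apply List.map_congr_left
    intro a _
    simp only [Function.comp, List.countP_map]
    apply List.countP_congr
    intro b _
    simp
  have h2 : ((l.product l).filter (fun p => decide (le p.1 p.2))).Nodup :=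
    (hl.product hl).filter _
  rw [h1, ← List.toFinset_card_of_nodup h2, ← Fintype.card_coe, ← Nat.card_eq_fintype_card]
  symm
  refine Nat.card_eq_of_bijective (fun p => ⟨(g p.1.1, g p.1.2), ?_⟩) ⟨?_, ?_⟩
  · rw [List.mem_toFinset, List.mem_filter]
    refine ⟨List.mem_product.2 ⟨(hmem _).2 ⟨_, rfl⟩, (hmem _).2 ⟨_, rfl⟩⟩, ?_⟩
    exact decide_eq_true ((hle _ _).1 p.2)
  · intro p q h
    simp only [Subtype.mk.injEq, Prod.mk.injEq] at h
    exact Subtype.ext (Prod.ext (hg h.1) (hg h.2))
  · rintro ⟨⟨a, b⟩, hab⟩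
    rw [List.mem_toFinset, List.mem_filter] at hab
    obtain ⟨ha, hb⟩ := List.mem_product.1 hab.1
    obtain ⟨a, rfl⟩ := (hmem a).1 ha
    obtain ⟨b, rfl⟩ := (hmem b).1 hb
    exact ⟨⟨(a, b), (hle _ _).2 (of_decide_eq_true hab.2)⟩, rfl⟩

end PO

end Correct

end Pool.Agent.NPC.H596
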