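import Mathlib

/-!
# Counting maps preserving a relation
-/

namespace Pool.Agent.H596R2

/-- Maps preserving relations. -/
abbrev Hom {α β : Type} (r : α → α → Prop) (s : β → β → Prop) : Type :=
  {f : α → β // ∀ a b, r a b → s (f a) (f b)}

/-- The disjoint union of two relations. -/
def DU {α β : Type} (r : α → α → Prop) (s : β → β → Prop) : α ⊕ β → α ⊕ β → Prop
  | Sum.inl a, Sum.inl b => r a b
  | Sum.inr a, Sum.inr b => s a b
  | _, _ => False

/-- Adding a smallest element. -/
def AB {α : Type} (r : α → α → Prop) : Option α → Option α → Prop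
  | none, _ => True
  | some a, some b => r a b
  | some _, none => False

/-- The order of the two-element chain. -/
def B2 (a b : Bool) : Prop := a = true → b = true

section

variable {α β γ : Type} {r : α → α → Prop} {s : β → β → Prop} {t : γ → γ → Prop}

/-- A map on a disjoint union is a pair of maps. -/
def homDU : Hom (DU r s) t ≃ Hom r t × Hom s t where
  toFun f := (⟨fun a => f.1 (Sum.inl a), fun a b h => f.2 (Sum.inl a) (Sum.inl b) h⟩,
    ⟨fun a => f.1 (Sum.inr a), fun a b h => f.2 (Sum.inr a) (Sum.inr b) h⟩)
  invFun p := ⟨Sum.elim p.1.1 p.2.1, by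
    rintro (a | a) (b | b) h
    · exact p.1.2 a b h
    · exact h.elim
    · exact h.elim
    · exact p.2.2 a b h⟩
  left_inv f := by
    apply Subtype.ext
    funext x
    rcases x with a | a <;> rfl
  right_inv p := rfl

/-- From a relation with a smallest element, maps to a disjoint union go to one of the two
parts. -/
theorem homToDU (o : α) (ho : ∀ a, r o a) [Finite α] [Finite β] [Finite γ] :
    Nat.card (Hom r (DU s t)) = Nat.card (Hom r s) + Nat.card (Hom r t) := by
  classical
  rw [← Nat.card_sum]
  symm
  let F : Hom r s ⊕ Hom r t → Hom r (DU s t) := fun x => match x with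
    | Sum.inl f => ⟨fun a => Sum.inl (f.1 a), fun a b h => f.2 a b h⟩
    | Sum.inr f => ⟨fun a => Sum.inr (f.1 a), fun a b h => f.2 a b h⟩
  refine Nat.card_eq_of_bijective F ⟨?_, ?_⟩
  · rintro (f | f) (g | g) h
    · congr 1
      apply Subtype.ext
      funext a
      have := congrFun (congrArg Subtype.val h) a
      exact Sum.inl_injective this
    · have := congrFun (congrArg Subtype.val h) o
      simp [F] at this
    · have := congrFun (congrArg Subtype.val h) o
      simp [F] at this
    · congr 1
      apply Subtype.ext
      funext a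
      have := congrFun (congrArg Subtype.val h) a
      exact Sum.inr_injective this
  · intro f
    cases h0 : f.1 o with
    | inl b =>
      have h1 : ∀ a, ∃ c, f.1 a = Sum.inl c := by
        intro a
        have := f.2 o a (ho a)
        rw [h0] at this
        cases h2 : f.1 a with
        | inl c => exact ⟨c, rfl⟩
        | inr c => rw [h2] at this; exact this.elim
      choose g hg using h1
      refine ⟨Sum.inl ⟨g, fun a b h => ?_⟩, ?_⟩
      · have := f.2 a b h
        rw [hg, hg] at this
        exact this
      · apply Subtype.ext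
        funext a
        exact (hg a).symm
    | inr b =>
      have h1 : ∀ a, ∃ c, f.1 a = Sum.inr c := by
        intro a
        have := f.2 o a (ho a)
        rw [h0] at this
        cases h2 : f.1 a with
        | inr c => exact ⟨c, rfl⟩
        | inl c => rw [h2] at this; exact this.elim
      choose g hg using h1
      refine ⟨Sum.inr ⟨g, fun a b h => ?_⟩, ?_⟩
      · have := f.2 a b h
        rw [hg, hg] at this
        exact this
      · apply Subtype.ext
        funext a
        exact (hg a).symm

/-- Maps from the two-element chain to a reflexive relation are pairs of related elements. -/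
def homB2 (hr : ∀ a, r a a) : Hom B2 r ≃ {p : α × α // r p.1 p.2} where
  toFun f := ⟨(f.1 false, f.1 true), f.2 _ _ (fun _ => rfl)⟩
  invFun p := ⟨fun b => bif b then p.1.2 else p.1.1, by
    rintro (_ | _) (_ | _) h
    · exact hr _
    · exact p.2
    · simp [B2] at h
    · exact hr _⟩
  left_inv f := by
    apply Subtype.ext
    funext b
    cases b <;> rfl
  right_inv p := rfl

/-- Related pairs of a disjoint union. -/
def pairsDU : {p : (α ⊕ β) × (α ⊕ β) // DU r s p.1 p.2} ≃
    {p : α × α // r p.1 p.2} ⊕ {p : β × β // s p.1 p.2} where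
  toFun p := match p with
    | ⟨(Sum.inl a, Sum.inl b), h⟩ => Sum.inl ⟨(a, b), h⟩
    | ⟨(Sum.inr a, Sum.inr b), h⟩ => Sum.inr ⟨(a, b), h⟩
    | ⟨(Sum.inl _, Sum.inr _), h⟩ => h.elim
    | ⟨(Sum.inr _, Sum.inl _), h⟩ => h.elim
  invFun p := match p with
    | Sum.inl ⟨(a, b), h⟩ => ⟨(Sum.inl a, Sum.inl b), h⟩
    | Sum.inr ⟨(a, b), h⟩ => ⟨(Sum.inr a, Sum.inr b), h⟩
  left_inv p := by
    rcases p with ⟨⟨a | a, b | b⟩, h⟩
    · rfl
    · exact h.elim
    · exact h.elim
    · rfl
  right_inv p := by
    rcases p with ⟨⟨a, b⟩, h⟩ | ⟨⟨a, b⟩, h⟩ <;> rfl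

theorem card_pairs_B2 : Nat.card {p : Bool × Bool // B2 p.1 p.2} = 3 := by
  have : ∀ p : Bool × Bool, B2 p.1 p.2 ↔ (p.1 → p.2 : Bool) = true := by
    rintro ⟨_ | _, _ | _⟩ <;> simp [B2]
  rw [Nat.card_congr (Equiv.subtypeEquivRight this)]
  simp only [Nat.card_eq_fintype_card]
  decide

theorem DU_refl (hr : ∀ a, r a a) (hs : ∀ a, s a a) : ∀ a, DU r s a a := by
  rintro (a | a)
  · exact hr a
  · exact hs a

theorem B2_refl (a : Bool) : B2 a a := fun h => h

theorem card_homB2_DU [Finite α] (hr : ∀ a, r a a) :
    Nat.card (Hom B2 (DU r B2)) = Nat.card {p : α × α // r p.1 p.2} + 3 := by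
  rw [Nat.card_congr (homB2 (DU_refl hr B2_refl)), Nat.card_congr pairsDU, Nat.card_sum,
    card_pairs_B2]

/-- The key identity: the number of self-maps of the disjoint union of a relation with a smallest
element and the two-element chain. -/
theorem card_end_DU [Finite α] (hr : ∀ a, r a a) (o : α) (ho : ∀ a, r o a) :
    Nat.card (Hom (DU r B2) (DU r B2)) = (Nat.card (Hom r r) + Nat.card (Hom r B2)) *
      (Nat.card {p : α × α // r p.1 p.2} + 3) := by
  rw [Nat.card_congr homDU, Nat.card_prod, homToDU o ho, card_homB2_DU hr]

theorem card_AB_B2 [Finite α] : Nat.card (Hom (AB r) B2) = Nat.card (Hom r B2) + 1 := by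
  classical
  have : Nat.card (Hom (AB r) B2) = Nat.card (Hom r B2 ⊕ Unit) := by
    symm
    let F : Hom r B2 ⊕ Unit → Hom (AB r) B2 := fun x => match x with
      | Sum.inl f => ⟨fun a => match a with
          | none => false
          | some a => f.1 a, by
            rintro (_ | a) (_ | b) h
            · exact fun h => h
            · exact fun h => by simp at h
            · exact h.elim
            · exact f.2 a b h⟩
      | Sum.inr _ => ⟨fun _ => true, fun _ _ _ _ => rfl⟩
    refine Nat.card_eq_of_bijective F ⟨?_, ?_⟩
    · rintro (f | f) (g | g) h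
      · congr 1
        apply Subtype.ext
        funext a
        exact congrFun (congrArg Subtype.val h) (some a)
      · have := congrFun (congrArg Subtype.val h) none
        simp [F] at this
      · have := congrFun (congrArg Subtype.val h) none
        simp [F] at this
      · rfl
    · intro f
      cases h0 : f.1 none with
      | false =>
        refine ⟨Sum.inl ⟨fun a => f.1 (some a), fun a b h => f.2 _ _ h⟩, ?_⟩
        apply Subtype.ext
        funext a
        cases a with
        | none => exact h0.symm
        | some a => rfl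
      | true =>
        refine ⟨Sum.inr (), ?_⟩
        apply Subtype.ext
        funext a
        exact (f.2 none a trivial h0).symm
  rw [this, Nat.card_sum]
  simp

/-- Relation-preserving maps only depend on the relations up to isomorphism. -/
def homCongr {α' β' : Type} {r' : α' → α' → Prop} {s' : β' → β' → Prop} (e : α ≃ α') (g : β ≃ β')
    (he : ∀ a b, r a b ↔ r' (e a) (e b)) (hg : ∀ a b, s a b ↔ s' (g a) (g b)) :
    Hom r s ≃ Hom r' s' where
  toFun f := ⟨fun a => g (f.1 (e.symm a)), fun a b h => by
    rw [← hg]
    apply f.2
    rw [he]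
    simpa using h⟩
  invFun f := ⟨fun a => g.symm (f.1 (e a)), fun a b h => by
    rw [hg]
    simp only [Equiv.apply_symm_apply]
    apply f.2
    rwa [← he]⟩
  left_inv f := by
    apply Subtype.ext
    funext a
    simp
  right_inv f := by
    apply Subtype.ext
    funext a
    simp

end

end Pool.Agent.H596R2
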