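import Pool.Agent.H596R2.HomCount

/-!
# Posets given by 0/1 matrices
-/

namespace Pool.Agent.H596R2

/-- The entry of a 0/1 matrix (list of rows) in row `i` and column `j`. -/
def ent (M : List (List Bool)) (i j : ℕ) : Bool := (M.getD i []).getD j false

/-- The relation on `{0, ..., n-1}` given by an `n × n` matrix. -/
def rel (M : List (List Bool)) (i j : Fin M.length) : Prop := ent M i j = true

/-- The matrix is square and its relation is a partial order. -/
def IsPoset (M : List (List Bool)) : Prop :=
  (∀ row ∈ M, row.length = M.length) ∧ (∀ i, rel M i i) ∧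
    (∀ i j, rel M i j → rel M j i → i = j) ∧ ∀ i j k, rel M i j → rel M j k → rel M i k

open Classical in
/-- The number of order-preserving self-maps of the poset given by the matrix `M` (and `0` if `M`
is not the matrix of a partial order). -/
noncomputable def countEnd (M : List (List Bool)) : ℕ :=
  if IsPoset M then Nat.card {f : Fin M.length → Fin M.length //
    ∀ i j, rel M i j → rel M (f i) (f j)} else 0

/-- The matrix of a relation on the elements of a list. -/
def matrixOf {α : Type} (l : List α) (r : α → α → Bool) : List (List Bool) :=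
  l.map (fun a => l.map (fun b => r a b))

theorem matrixOf_length {α : Type} (l : List α) (r : α → α → Bool) :
    (matrixOf l r).length = l.length := by simp [matrixOf]

theorem ent_matrixOf {α : Type} (l : List α) (r : α → α → Bool) (i j : ℕ) (hi : i < l.length)
    (hj : j < l.length) : ent (matrixOf l r) i j = r l[i] l[j] := by
  unfold ent matrixOf
  simp [List.getD_eq_getElem?_getD, List.getElem?_eq_getElem hi, List.getElem?_eq_getElem hj]

section

variable {α : Type} {l : List α} {r : α → α → Bool}

/-- Rows of the matrix correspond to elements of the list. -/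
noncomputable def matrixEquiv (hl : l.Nodup) : Fin (matrixOf l r).length ≃ {a // a ∈ l} :=
  haveI := Classical.decEq α
  (finCongr (matrixOf_length l r)).trans (List.Nodup.getEquiv l hl)

theorem matrixEquiv_rel (hl : l.Nodup) (i j : Fin (matrixOf l r).length) :
    rel (matrixOf l r) i j ↔ r (matrixEquiv (r := r) hl i).1 (matrixEquiv (r := r) hl j).1 = true := by
  unfold rel
  rw [ent_matrixOf l r i j (by simpa [matrixOf] using i.2) (by simpa [matrixOf] using j.2)]
  rfl

theorem isPoset_matrixOf (hl : l.Nodup) (h1 : ∀ a ∈ l, r a a = true)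
    (h2 : ∀ a ∈ l, ∀ b ∈ l, r a b = true → r b a = true → a = b)
    (h3 : ∀ a ∈ l, ∀ b ∈ l, ∀ c ∈ l, r a b = true → r b c = true → r a c = true) :
    IsPoset (matrixOf l r) := by
  refine ⟨?_, ?_, ?_, ?_⟩
  · intro row hrow
    unfold matrixOf at hrow
    rw [List.mem_map] at hrow
    obtain ⟨a, _, rfl⟩ := hrow
    simp [matrixOf]
  · intro i
    rw [matrixEquiv_rel hl]
    exact h1 _ (matrixEquiv hl i).2
  · intro i j hij hji
    rw [matrixEquiv_rel hl] at hij hji
    exact (matrixEquiv (r := r) hl).injective (Subtype.ext
      (h2 _ (matrixEquiv hl i).2 _ (matrixEquiv hl j).2 hij hji))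
  · intro i j k hij hjk
    rw [matrixEquiv_rel hl] at hij hjk ⊢
    exact h3 _ (matrixEquiv hl i).2 _ (matrixEquiv hl j).2 _ (matrixEquiv hl k).2 hij hjk

/-- Counting self-maps of a matrix given by a list. -/
theorem countEnd_matrixOf {β : Type} {s : β → β → Prop} (hl : l.Nodup)
    (hP : IsPoset (matrixOf l r)) (e : β ≃ {a // a ∈ l})
    (he : ∀ a b, s a b ↔ r (e a).1 (e b).1 = true) :
    countEnd (matrixOf l r) = Nat.card (Hom s s) := by
  unfold countEnd
  rw [if_pos hP]
  let g : Fin (matrixOf l r).length ≃ β := (matrixEquiv hl).trans e.symm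
  have hg : ∀ i j, rel (matrixOf l r) i j ↔ s (g i) (g j) := by
    intro i j
    rw [matrixEquiv_rel hl, he]
    simp [g]
  exact Nat.card_congr (homCongr g g hg hg)

end

end Pool.Agent.H596R2
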