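import Pool.Agent.H596R2.Sigma2Defs

/-!
# The Cook-Levin construction with designated variables for a part of the certificate
-/

namespace Pool.Agent.NPC.CL

open Turing Var

section Complete

variable {Q K A : Type} [DecidableEq K] {D : Tab Q K A} {P N : ℕ} {y : List Bool}
  {τ : Var Q K A → Bool}

/-- The run is forced by the formula, given the initial memory contents. -/
theorem formula_complete' (hqs : ∀ q, q ∈ D.qs) (hks : ∀ k, k ∈ D.ks) (hos : ∀ o, o ∈ D.os)
    (hτ : Holds τ (formula D P y N)) (w : List Bool)
    (hcell : ∀ j < P + y.length, τ (ce 0 D.k₀ j ((init D P y w).m D.k₀ j)) = true) :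
    Accepts D (run D P y w N) := by
  rw [formula, Holds.append_iff, Holds.append_iff] at hτ
  obtain ⟨hin, htr, hfi⟩ := hτ
  have hbound : ∀ t k, (run D P y w t).h k ≤ P + y.length + t := by
    intro t k
    have h1 := iterate_ptr_le D.M (init D P y w) k t
    have h2 : (init D P y w).h k ≤ P + y.length := by
      simp only [init]
      split_ifs <;> omega
    unfold run
    omega
  have htr' : ∀ t < N, ∀ h ≤ P + y.length + N, Holds τ (tClauses D t h) := by
    intro t ht h hh c hc
    apply htr
    rw [List.mem_flatMap]
    refine ⟨t, List.mem_range.2 ht, ?_⟩
    rw [List.mem_flatMap]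
    exact ⟨h, List.mem_range.2 (by omega), hc⟩
  have main : ∀ t ≤ N, τ (Var.st t (run D P y w t).q) = true ∧
      (∀ k, τ (hp t k ((run D P y w t).h k)) = true) ∧
      (∀ k, ∀ j < (run D P y w t).h k, τ (ce t k j ((run D P y w t).m k j)) = true) := by
    intro t
    induction t with
    | zero =>
      intro _
      rw [inClauses, ← List.singleton_append, Holds.append_iff, Holds.append_iff] at hin
      obtain ⟨i1, i2, _⟩ := hin
      refine ⟨?_, ?_, ?_⟩
      · obtain ⟨l, hl, hl'⟩ := i1 _ (List.mem_singleton_self _)
        simp only [List.mem_singleton] at hl
        subst hl
        exact hl'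
      · intro k
        obtain ⟨l, hl, hl'⟩ := i2 _ (List.mem_map.2 ⟨k, hks k, rfl⟩)
        simp only [List.mem_singleton] at hl
        subst hl
        exact hl'
      · intro k j hj
        by_cases hk : k = D.k₀
        · subst hk
          apply hcell
          simpa [run, init] using hj
        · simp [run, init, hk] at hj
    | succ t ih =>
      intro ht
      obtain ⟨s1, s2, s3⟩ := ih (by omega)
      set c := run D P y w t with hc
      rw [run_succ, ← hc]
      have hT := htr' t (by omega)
      -- the consulted stack
      have hcons : τ (Var.st (t + 1) (D.M.δ c.q (c.read (D.M.κ c.q))).1) = true ∧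
          τ (hp (t + 1) (D.M.κ c.q) (newPtr (D.M.δ c.q (c.read (D.M.κ c.q))).2
            (c.read (D.M.κ c.q)) (c.h (D.M.κ c.q)))) = true ∧
          ∀ a, (D.M.δ c.q (c.read (D.M.κ c.q))).2 = Op.push a →
            τ (ce (t + 1) (D.M.κ c.q) (c.h (D.M.κ c.q)) (some a)) = true := by
        have hb := hbound t (D.M.κ c.q)
        rw [← hc] at hb
        have hT' := hT (c.h (D.M.κ c.q)) (by omega)
        rw [tClauses, Holds.append_iff] at hT'
        have hT'' : Holds τ (trClauses D t (c.h (D.M.κ c.q)) c.q) := by
          intro cl hcl
          apply hT'.1
          rw [List.mem_flatMap]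
          exact ⟨c.q, hqs _, List.mem_append_left _ hcl⟩
        cases hh : c.h (D.M.κ c.q) with
        | zero =>
          have hr : c.read (D.M.κ c.q) = none := by rw [Cf.read, hh]
          rw [hh] at hT''
          rw [hr]
          exact rdClauses_complete hT'' s1 (by rw [← hh]; exact s2 _) (by simp)
        | succ n =>
          have hr : c.read (D.M.κ c.q) = c.m (D.M.κ c.q) n := by rw [Cf.read, hh]
          rw [hh] at hT''
          rw [hr]
          have : Holds τ (rdClauses D t c.q (n + 1) [ce t (D.M.κ c.q) n (c.m (D.M.κ c.q) n)]
              (c.m (D.M.κ c.q) n)) := by
            intro cl hcl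
            apply hT''
            rw [trClauses, List.mem_flatMap]
            exact ⟨_, hos _, hcl⟩
          exact rdClauses_complete this s1 (by rw [← hh]; exact s2 _) (by
            intro p hp
            rw [List.mem_singleton] at hp
            subst hp
            exact s3 _ _ (by omega))
      refine ⟨hcons.1, ?_, ?_⟩
      · intro k
        by_cases hk : k = D.M.κ c.q
        · subst hk
          simp only [NM.step, Function.update_self]
          exact hcons.2.1
        · simp only [NM.step, Function.update_of_ne hk]
          have hb := hbound t k
          rw [← hc] at hb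
          have hT' := hT (c.h k) (by omega)
          rw [tClauses, Holds.append_iff] at hT'
          have := hT'.1 (imp [Var.st t c.q, hp t k (c.h k)] (hp (t + 1) k (c.h k))) (by
            rw [List.mem_flatMap]
            refine ⟨c.q, hqs _, List.mem_append_right _ ?_⟩
            rw [fpClauses, List.mem_map]
            exact ⟨k, List.mem_filter.2 ⟨hks k, decide_eq_true hk⟩, rfl⟩)
          rw [holds_imp] at this
          apply this
          intro p hp
          simp only [List.mem_cons, List.not_mem_nil, or_false] at hp
          rcases hp with rfl | rfl
          · exact s1
          · exact s2 k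
      · intro k j hj
        have frame : ∀ j < c.h k, τ (ce (t + 1) k j ((D.M.step c).m k j)) = true := by
          intro j hj
          rw [step_mem_below _ _ _ _ hj]
          have hb := hbound t k
          rw [← hc] at hb
          have hT' := hT (c.h k) (by omega)
          rw [tClauses, Holds.append_iff] at hT'
          have := hT'.2 (imp [hp t k (c.h k), ce t k j (c.m k j)] (ce (t + 1) k j (c.m k j))) (by
            rw [fmClauses, List.mem_flatMap]
            refine ⟨j, List.mem_range.2 hj, ?_⟩
            rw [List.mem_flatMap]
            refine ⟨k, hks k, ?_⟩
            rw [List.mem_map]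
            exact ⟨_, hos _, rfl⟩)
          rw [holds_imp] at this
          apply this
          intro p hp
          simp only [List.mem_cons, List.not_mem_nil, or_false] at hp
          rcases hp with rfl | rfl
          · exact s2 k
          · exact s3 k j hj
        by_cases hjk : j < c.h k
        · exact frame j hjk
        · have h1 := step_ptr_le D.M c k
          have hjeq : j = c.h k := by omega
          by_cases hk : k = D.M.κ c.q
          · subst hk
            cases hop : (D.M.δ c.q (c.read (D.M.κ c.q))).2 with
            | keep =>
              simp only [NM.step, Function.update_self, hop, newPtr] at hj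
              omega
            | pop =>
              simp only [NM.step, Function.update_self, hop, newPtr] at hj
              cases hr : c.read (D.M.κ c.q) with
              | none => simp only [hr] at hj; omega
              | some a => simp only [hr] at hj; omega
            | push a =>
              have := hcons.2.2 a hop
              simp only [NM.step, Function.update_self, hop, newMem]
              rw [hjeq, Function.update_self]
              exact this
          · simp only [NM.step, Function.update_of_ne hk] at hj
            omega
  obtain ⟨m1, m2, m3⟩ := main N le_rfl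
  set c := run D P y w N with hc
  rw [fiClauses, Holds.append_iff, Holds.append_iff, Holds.append_iff] at hfi
  obtain ⟨f1, f2, f3, f4⟩ := hfi
  have hb := hbound N D.k₁
  rw [← hc] at hb
  refine ⟨?_, ?_⟩
  · by_contra hne
    have hne : D.acc c.q = false := by simpa using hne
    have := f1 _ (List.mem_map.2 ⟨c.q, List.mem_filter.2 ⟨hqs _, by simp [hne]⟩, rfl⟩)
    rw [holds_forb] at this
    exact this (by simpa using m1)
  · cases hh : c.h D.k₁ with
    | zero =>
      exfalso
      have := f2 _ (List.mem_singleton_self _)
      rw [holds_forb] at this
      apply this
      intro p hp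
      rw [List.mem_singleton] at hp
      subst hp
      rw [← hh]
      exact m2 _
    | succ n =>
      refine ⟨n, rfl, ?_, ?_⟩
      · by_contra hne
        have hne : D.good (c.m D.k₁ n) = false := by simpa using hne
        have := f3 (forb [hp N D.k₁ (n + 1), ce N D.k₁ n (c.m D.k₁ n)]) (by
          rw [List.mem_flatMap]
          refine ⟨n, List.mem_range.2 (by omega), ?_⟩
          rw [List.mem_map]
          exact ⟨_, List.mem_filter.2 ⟨hos _, by simp [hne]⟩, rfl⟩)
        rw [holds_forb] at this
        apply this
        intro p hp
        simp only [List.mem_cons, List.not_mem_nil, or_false] at hp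
        rcases hp with rfl | rfl
        · rw [← hh]; exact m2 _
        · exact m3 _ _ (by omega)
      · intro n' hn'
        subst hn'
        by_contra hne
        have := f4 (forb [hp N D.k₁ (n' + 2), ce N D.k₁ n' (c.m D.k₁ n')]) (by
          rw [List.mem_flatMap]
          refine ⟨n', List.mem_range.2 (by omega), ?_⟩
          rw [List.mem_map]
          exact ⟨_, List.mem_filter.2 ⟨hos _, by simpa [Option.isSome_iff_ne_none] using hne⟩,
            rfl⟩)
        rw [holds_forb] at this
        apply this
        intro p hp
        simp only [List.mem_cons, List.not_mem_nil, or_false] at hp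
        rcases hp with rfl | rfl
        · have := m2 D.k₁; rw [hh] at this; exact this
        · exact m3 _ _ (by omega)

/-- The content of the cells of a certificate of full length. -/
theorem init_cell_full (D : Tab Q K A) (P : ℕ) (y w : List Bool) (hw : w.length = P) {i : ℕ}
    (hi : i < P) : (init D P y w).m D.k₀ (P - 1 - i) = some (D.sym (w[i]'(by omega))) := by
  subst hw
  simp only [init, if_true]
  rw [Nat.sub_self, List.replicate_zero, List.nil_append, List.map_append,
    List.reverse_append, List.getElem?_append_left (by simp; omega), ← List.map_reverse,
    List.getElem?_map, List.getElem?_eq_getElem (by simp; omega)]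
  simp only [Option.map_some, Option.join_some]
  rw [List.getElem_reverse]
  congr 3
  omega

/-- From a satisfying assignment without blanks in the certificate part: the certificate has full
length and is read off from the assignment. -/
theorem init_extract' (hτ : Holds τ (inClauses D P y))
    (hnb : ∀ j < P, τ (ce 0 D.k₀ j none) = false) :
    ∃ w : List Bool, w.length = P ∧
      ∀ j < P + y.length, τ (ce 0 D.k₀ j ((init D P y w).m D.k₀ j)) = true := by
  obtain ⟨w, hw, hcell⟩ := init_extract hτ
  refine ⟨w, ?_, hcell⟩
  by_contra hne
  have hlt : w.length < P := lt_of_le_of_ne hw hne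
  have h1 := hcell 0 (by omega)
  have h2 : (init D P y w).m D.k₀ 0 = none := by
    simp only [init, if_true]
    rw [List.getElem?_append_left (by simp; omega), List.getElem?_replicate]
    rw [if_pos (by omega)]
    rfl
  rw [h2, hnb 0 (by omega)] at h1
  simp at h1

end Complete

end Pool.Agent.NPC.CL
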