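import Pool.Agent.H596R2.Sigma2Defs
import Pool.Agent.H527R2.SharpP

/-!
# `Σ₂ᵖ ⊆ NP` iff `NP = coNP`
-/

namespace Pool.Agent.NPC.S2

open Turing

/-- A polynomial-time function on strings, as a function between encodable types. -/
theorem poly_of_polyTime {V : List Bool → List Bool} (hV : PolyTime V) : Poly V := by
  have h1 : PC (fun x : List Bool => x) (fun x : List Bool => x) V :=
    H642R2.TMSim.polyTime_toPC hV
  have h2 : PC (bits : List Bool → List Bool) (fun x : List Bool => x) V :=
    PC.comp (g := V) (f := fun x => x) h1 Cnt.pc_raw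
  exact PC.comp (g := fun x => x) (f := V) PC.rawIn h2

theorem poly_pairBits {α : Type} [TEnc α] {x w : α → List Bool} (hx : Poly x) (hw : Poly w) :
    Poly (fun a => pairBits (x a) (w a)) := by
  refine Poly.append (Poly.flatMap (F := fun _ b => [true, b]) hx
    (Poly.cons (Poly.const true) (Poly.cons (Poly.snd Poly.id) (Poly.const [])))) ?_
  exact Poly.cons (Poly.const false) hw

/-- Languages given by polynomial-time relations on strings are in `NP`. -/
theorem inNP_of_poly {L : Set (List Bool)} {R : List Bool × List Bool → Bool} (hR : Poly R)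
    (p : Polynomial ℕ) (h : ∀ x, x ∈ L ↔ ∃ w : List Bool, w.length ≤ p.eval x.length ∧
      R (x, w) = true) : InNP L := by
  refine ⟨fun y => [R (unpair y)], p, polyTime_of_poly (hR.comp poly_unpair), fun x => ?_⟩
  rw [h x]
  simp only [unpair_pairBits, List.cons.injEq, and_true]

/-- Languages of the form `∃ u ∀ v R` are in `Σ₂ᵖ`. -/
theorem inSigma2_of_poly {L : Set (List Bool)} {R : List Bool × List Bool → Bool} (hR : Poly R)
    (p : Polynomial ℕ) (h : ∀ x, x ∈ L ↔ ∃ u : List Bool, u.length = p.eval x.length ∧
      ∀ v : List Bool, v.length = p.eval x.length → R (x, u ++ v) = true) : InSigma2 L := by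
  refine ⟨fun y => [R (unpair y)], p, polyTime_of_poly (hR.comp poly_unpair), fun x => ?_⟩
  rw [h x]
  simp only [unpair_pairBits, List.cons.injEq, and_true]

theorem pairBits_length (x w : List Bool) : (pairBits x w).length = 2 * x.length + 1 + w.length := by
  rw [CL.pairBits_eq, List.length_append, CL.pairPre_length]

theorem pairBits_append (x w w' : List Bool) : pairBits x w ++ w' = pairBits x (w ++ w') := by
  simp [pairBits]

/-- `coNP ⊆ Σ₂ᵖ`. -/
theorem inSigma2_of_coNP {L : Set (List Bool)} (hL : InNP Lᶜ) : InSigma2 L := by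
  obtain ⟨V, p, hV, hL⟩ := hL
  have hVP := poly_of_polyTime hV
  have hrd : Poly (fun q : List Bool × List Bool => (unpair q.2.reverse).1) :=
    (Poly.fst poly_unpair).comp (Poly.reverse (Poly.snd Poly.id))
  refine inSigma2_of_poly (R := fun q => !decide ((unpair q.2.reverse).1.length ≤
      p.eval q.1.length) || !decide (V (pairBits q.1 (unpair q.2.reverse).1) = [true])) ?_
    (Polynomial.C 2 * p + Polynomial.C 1) fun x => ?_
  · exact Poly.or (Poly.not (Poly.decide_le (Poly.length hrd)
      (UPoly.eval (UPoly.length (Poly.fst Poly.id)) p).toPoly))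
      (Poly.not (Poly.decide_eq (hVP.comp (poly_pairBits (Poly.fst Poly.id) hrd))
        (Poly.const [true])))
  · have hx : x ∈ L ↔ ∀ w : List Bool, w.length ≤ p.eval x.length →
        V (pairBits x w) ≠ [true] := by
      have := hL x
      rw [Set.mem_compl_iff] at this
      constructor
      · intro h w hw hVw
        exact (this.2 ⟨w, hw, hVw⟩) h
      · intro h
        by_contra hn
        obtain ⟨w, hw, hVw⟩ := this.1 hn
        exact h w hw hVw
    rw [hx]
    simp only [Polynomial.eval_add, Polynomial.eval_mul, Polynomial.eval_C, Bool.or_eq_true,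
      Bool.not_eq_true', decide_eq_false_iff_not, not_le]
    constructor
    · intro h
      refine ⟨List.replicate (2 * p.eval x.length + 1) false, by simp, fun v _ => ?_⟩
      by_cases hlen : (unpair (List.replicate (2 * p.eval x.length + 1) false ++ v).reverse).1.length
          ≤ p.eval x.length
      · exact Or.inr (h _ hlen)
      · exact Or.inl (by omega)
    · rintro ⟨u, _, hall⟩ w hw
      have h1 := hall (pairBits w (List.replicate (2 * p.eval x.length - 2 * w.length) false)).reverse
        (by rw [List.length_reverse, pairBits_length, List.length_replicate]; omega)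
      rw [List.reverse_append, List.reverse_reverse, pairBits_append, unpair_pairBits] at h1
      rcases h1 with h1 | h1
      · simp only at h1; omega
      · exact h1

/-- If `NP = coNP` then `Σ₂ᵖ ⊆ NP`. -/
theorem sigma2_collapse (hNP : ∀ L : Set (List Bool), InNP L → InNP Lᶜ) {L : Set (List Bool)}
    (hL : InSigma2 L) : InNP L := by
  obtain ⟨V, p, hV, hL⟩ := hL
  have hVP := poly_of_polyTime hV
  -- the inner language
  let L1 : Set (List Bool) := {y | ∃ v : List Bool, v.length = p.eval (unpair y).1.length ∧
    (pairBits (unpair y).1 (unpair y).2 = y ∧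
      V (pairBits (unpair y).1 ((unpair y).2 ++ v)) ≠ [true])}
  have hL1 : InNP L1 := by
    have f1 : Poly (fun q : List Bool × List Bool => (unpair q.1).1) :=
      (Poly.fst poly_unpair).comp (Poly.fst Poly.id)
    have f2 : Poly (fun q : List Bool × List Bool => (unpair q.1).2) :=
      (Poly.snd poly_unpair).comp (Poly.fst Poly.id)
    refine inNP_of_poly (R := fun q => decide (q.2.length = p.eval (unpair q.1).1.length) &&
      (decide (pairBits (unpair q.1).1 (unpair q.1).2 = q.1) &&
        !decide (V (pairBits (unpair q.1).1 ((unpair q.1).2 ++ q.2)) = [true]))) ?_ p fun y => ?_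
    · exact Poly.and (Poly.decide_eq (Poly.length (Poly.snd Poly.id))
        (UPoly.eval (UPoly.length f1) p).toPoly)
        (Poly.and (Poly.decide_eq (poly_pairBits f1 f2) (Poly.fst Poly.id))
        (Poly.not (Poly.decide_eq (hVP.comp (poly_pairBits f1
          (Poly.append f2 (Poly.snd Poly.id)))) (Poly.const [true]))))
    · simp only [L1, Set.mem_setOf_eq, Bool.and_eq_true, decide_eq_true_eq, Bool.not_eq_true',
        decide_eq_false_iff_not]
      constructor
      · rintro ⟨v, h1, h2, h3⟩
        refine ⟨v, ?_, h1, h2, h3⟩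
        rw [h1]
        apply eval_mono
        have := congrArg List.length h2
        rw [pairBits_length] at this
        omega
      · rintro ⟨v, _, h1, h2, h3⟩
        exact ⟨v, h1, h2, h3⟩
  obtain ⟨V1, p1, hV1, hL1c⟩ := hNP _ hL1
  have hV1P := poly_of_polyTime hV1
  have hmem : ∀ x u : List Bool, pairBits x u ∈ L1ᶜ ↔
      ∀ v : List Bool, v.length = p.eval x.length → V (pairBits x (u ++ v)) = [true] := by
    intro x u
    rw [Set.mem_compl_iff]
    simp only [L1, Set.mem_setOf_eq, unpair_pairBits, true_and, not_exists, not_and, not_not]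
  have g1 : Poly (fun q : List Bool × List Bool => (unpair q.2).1) :=
    (Poly.fst poly_unpair).comp (Poly.snd Poly.id)
  have g2 : Poly (fun q : List Bool × List Bool => (unpair q.2).2) :=
    (Poly.snd poly_unpair).comp (Poly.snd Poly.id)
  refine inNP_of_poly (R := fun q => decide ((unpair q.2).1.length = p.eval q.1.length) &&
    (decide ((unpair q.2).2.length ≤ p1.eval (pairBits q.1 (unpair q.2).1).length) &&
      decide (V1 (pairBits (pairBits q.1 (unpair q.2).1) (unpair q.2).2) = [true]))) ?_
    (Polynomial.C 2 * p + Polynomial.C 1 +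
      p1.comp (Polynomial.C 2 * Polynomial.X + Polynomial.C 1 + p)) fun x => ?_
  · exact Poly.and (Poly.decide_eq (Poly.length g1)
      (UPoly.eval (UPoly.length (Poly.fst Poly.id)) p).toPoly)
      (Poly.and (Poly.decide_le (Poly.length g2)
        (UPoly.eval (UPoly.length (poly_pairBits (Poly.fst Poly.id) g1)) p1).toPoly)
      (Poly.decide_eq (hV1P.comp (poly_pairBits (poly_pairBits (Poly.fst Poly.id) g1) g2))
        (Poly.const [true])))
  · rw [hL x]
    simp only [Bool.and_eq_true, decide_eq_true_eq, Polynomial.eval_add, Polynomial.eval_mul,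
      Polynomial.eval_C, Polynomial.eval_comp, Polynomial.eval_X]
    constructor
    · rintro ⟨u, hu, hall⟩
      have h1 := (hmem x u).2 hall
      rw [hL1c] at h1
      obtain ⟨w, hw, hVw⟩ := h1
      refine ⟨pairBits u w, ?_, ?_⟩
      · rw [pairBits_length, hu]
        rw [pairBits_length, hu] at hw
        omega
      · rw [unpair_pairBits]
        exact ⟨hu, hw, hVw⟩
    · rintro ⟨W, _, h1, h2, h3⟩
      refine ⟨(unpair W).1, h1, ?_⟩
      rw [← hmem x (unpair W).1, hL1c]
      exact ⟨(unpair W).2, h2, h3⟩

/-- `NP` is closed under reductions. -/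
theorem InNP.of_reduces {L L' : Set (List Bool)} (h : Reduces L L') (h' : InNP L') : InNP L := by
  obtain ⟨f, hf, hf'⟩ := h
  obtain ⟨V, p, hV, hV'⟩ := h'
  have hfP := poly_of_polyTime hf
  have hVP := poly_of_polyTime hV
  obtain ⟨r, hr⟩ := hfP.sz_le
  refine inNP_of_poly (R := fun q => decide (q.2.length ≤ p.eval (f q.1).length) &&
    decide (V (pairBits (f q.1) q.2) = [true])) ?_
    (p.comp (r.comp (Polynomial.C 4 * Polynomial.X + Polynomial.C 1))) fun x => ?_
  · have hf1 : Poly (fun q : List Bool × List Bool => f q.1) := hfP.comp (Poly.fst Poly.id)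
    exact Poly.and (Poly.decide_le (Poly.length (Poly.snd Poly.id))
      (UPoly.eval (UPoly.length hf1) p).toPoly)
      (Poly.decide_eq (hVP.comp (poly_pairBits hf1 (Poly.snd Poly.id))) (Poly.const [true]))
  · rw [hf' x, hV' (f x)]
    simp only [Bool.and_eq_true, decide_eq_true_eq, Polynomial.eval_comp, Polynomial.eval_add,
      Polynomial.eval_mul, Polynomial.eval_C, Polynomial.eval_X]
    have hlen : (f x).length ≤ r.eval (4 * x.length + 1) := by
      have h1 := hr x
      have h2 := sz_listBool_ge (f x)
      have h3 := eval_mono r (sz_listBool_le x)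
      omega
    constructor
    · rintro ⟨w, hw, hVw⟩
      exact ⟨w, hw.trans (eval_mono p hlen), hw, hVw⟩
    · rintro ⟨w, _, hw, hVw⟩
      exact ⟨w, hw, hVw⟩

/-- A `Σ₂ᵖ`-complete language is in `NP` iff `NP = coNP`. -/
theorem sigma2Complete_inNP_iff {L : Set (List Bool)} (h1 : InSigma2 L) (h2 : Sigma2Hard L) :
    InNP L ↔ ∀ L' : Set (List Bool), InNP L' ↔ InNP L'ᶜ := by
  constructor
  · intro hL
    have key : ∀ L' : Set (List Bool), InNP L'ᶜ → InNP L' := fun L' hL' =>
      InNP.of_reduces (h2 L' (inSigma2_of_coNP hL')) hL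
    refine fun L' => ⟨fun hL' => key _ (by rwa [compl_compl]), key L'⟩
  · intro h
    exact sigma2_collapse (fun L' => (h L').1) h1

end Pool.Agent.NPC.S2
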