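import Pool.Agent.NPC.Sat
import Pool.Agent.NPC.Dec

/-!
# The class `Σ₂ᵖ`
-/

namespace Pool.Agent.NPC.S2

open Turing

/-- The class `Σ₂ᵖ`: `x ∈ L` iff there is a string `u` of length `p(|x|)` such that for all strings
`v` of length `p(|x|)` the polynomial-time predicate `V` accepts `(x, u ++ v)`. -/
def InSigma2 (L : Set (List Bool)) : Prop :=
  ∃ (V : List Bool → List Bool) (p : Polynomial ℕ), PolyTime V ∧
    ∀ x, x ∈ L ↔ ∃ u : List Bool, u.length = p.eval x.length ∧
      ∀ v : List Bool, v.length = p.eval x.length → V (pairBits x (u ++ v)) = [true]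

/-- `Σ₂ᵖ`-hardness under polynomial-time many-one reductions. -/
def Sigma2Hard (L : Set (List Bool)) : Prop := ∀ L', InSigma2 L' → Reduces L' L

/-- Membership in `Σ₂ᵖ` of a decision problem about encodable data. -/
def InSigma2P {α : Type} [TEnc α] (P : α → Prop) : Prop := InSigma2 (lang P)

/-- `Σ₂ᵖ`-hardness of a decision problem about encodable data. -/
def Sigma2HardP {α : Type} [TEnc α] (P : α → Prop) : Prop := Sigma2Hard (lang P)

/-- `Σ₂ᵖ`-hardness of a promise problem under reductions computed by programs. -/
def HardS2 {α : Type} [TEnc α] (Pr P : α → Prop) : Prop :=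
  ∀ L : Set (List Bool), InSigma2 L → ∃ f : List Bool → α,
    PC (fun x : List Bool => x) (bits : α → List Bool) f ∧ (∀ x, Pr (f x)) ∧ ∀ x, x ∈ L ↔ P (f x)

theorem HardS2.trans {α β : Type} [TEnc α] [TEnc β] {Pr P : α → Prop} {Pr' Q : β → Prop}
    (hP : HardS2 Pr P) {f : α → β} (hf : Poly f) (hpr : ∀ a, Pr a → Pr' (f a))
    (h : ∀ a, Pr a → (P a ↔ Q (f a))) : HardS2 Pr' Q := by
  intro L hL
  obtain ⟨g, hg, hgp, hgL⟩ := hP L hL
  exact ⟨fun x => f (g x), PC.comp hf hg, fun x => hpr _ (hgp x),
    fun x => (hgL x).trans (h _ (hgp x))⟩

theorem HardS2.toSigma2HardP {α : Type} [TEnc α] {Pr P : α → Prop} (hP : HardS2 Pr P) :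
    Sigma2HardP P := by
  intro L hL
  obtain ⟨f, hf, _, hfL⟩ := hP L hL
  refine ⟨fun x => bits (f x), PC.toPolyTime hf, fun x => ?_⟩
  rw [hfL x, bits_mem_lang]

/-- A problem about decodable data of the form `∃ u ∀ v, R (a, u, v)`, where `u`, `v` range over
the strings of length `p(|a|)` and `R` is computable in polynomial time, is in `Σ₂ᵖ`. -/
theorem inSigma2P_of {α : Type} [TEnc α] [TDec α] {P : α → Prop}
    {R : α × List Bool × List Bool → Bool} (hR : Poly R) (p : Polynomial ℕ)
    (h : ∀ a, P a ↔ ∃ u : List Bool, u.length = p.eval (sz a) ∧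
      ∀ v : List Bool, v.length = p.eval (sz a) → R (a, u, v) = true) : InSigma2P P := by
  let half : List Bool → ℕ := fun z => z.length / 2
  have hhalf : Poly half := Poly.div (Poly.length Poly.id) (Poly.const 2)
  -- take and drop
  have htake : Poly (fun z : List Bool => (z.zipIdx.filter (fun q => decide (q.2 < half z))).map
      (fun q => q.1)) :=
    Poly.map (F := fun _ q => q.1) (Poly.filter (p := fun z (q : Bool × ℕ) => decide (q.2 < half z))
      (Poly.zipIdx Poly.id) (Poly.decide_lt (Poly.snd (Poly.snd Poly.id))
        (hhalf.comp (Poly.fst Poly.id)))) (Poly.fst (Poly.snd Poly.id))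
  have hdrop : Poly (fun z : List Bool => (z.zipIdx.filter (fun q => !decide (q.2 < half z))).map
      (fun q => q.1)) :=
    Poly.map (F := fun _ q => q.1) (Poly.filter (p := fun z (q : Bool × ℕ) =>
      !decide (q.2 < half z)) (Poly.zipIdx Poly.id) (Poly.not (Poly.decide_lt
        (Poly.snd (Poly.snd Poly.id)) (hhalf.comp (Poly.fst Poly.id)))))
        (Poly.fst (Poly.snd Poly.id))
  have split : ∀ u v : List Bool, u.length = v.length →
      ((u ++ v).zipIdx.filter (fun q => decide (q.2 < half (u ++ v)))).map (fun q => q.1) = u ∧
      ((u ++ v).zipIdx.filter (fun q => !decide (q.2 < half (u ++ v)))).map (fun q => q.1) = v := by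
    intro u v huv
    have hh : half (u ++ v) = u.length := by
      simp only [half, List.length_append]
      omega
    rw [hh, List.zipIdx_append, List.filter_append, List.filter_append]
    have e1 : ∀ q ∈ u.zipIdx, q.2 < u.length := by
      intro q hq
      rw [List.mem_zipIdx_iff_getElem?] at hq
      by_contra hlt
      rw [List.getElem?_eq_none (by omega)] at hq
      simp at hq
    have e2 : ∀ q ∈ v.zipIdx (0 + u.length), ¬ q.2 < u.length := by
      intro q hq
      have := List.le_snd_of_mem_zipIdx (x := q) hq
      omega
    have f1 : u.zipIdx.filter (fun q => decide (q.2 < u.length)) = u.zipIdx := by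
      rw [List.filter_eq_self]
      intro q hq
      simpa using e1 q hq
    have f2 : (v.zipIdx (0 + u.length)).filter (fun q => decide (q.2 < u.length)) = [] := by
      rw [List.filter_eq_nil_iff]
      intro q hq
      simpa using e2 q hq
    have f3 : u.zipIdx.filter (fun q => !decide (q.2 < u.length)) = [] := by
      rw [List.filter_eq_nil_iff]
      intro q hq
      simpa using e1 q hq
    have f4 : (v.zipIdx (0 + u.length)).filter (fun q => !decide (q.2 < u.length)) =
        v.zipIdx (0 + u.length) := by
      rw [List.filter_eq_self]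
      intro q hq
      simpa using e2 q hq
    rw [f1, f2, f3, f4]
    constructor
    · rw [List.append_nil]
      exact List.zipIdx_map_fst 0 u
    · rw [List.nil_append]
      exact List.zipIdx_map_fst _ v
  refine ⟨fun y => [match unbits α (unpair y).1 with
      | none => false
      | some a => R (a, ((unpair y).2.zipIdx.filter (fun q => decide (q.2 < half (unpair y).2))).map
        (fun q => q.1), ((unpair y).2.zipIdx.filter
          (fun q => !decide (q.2 < half (unpair y).2))).map (fun q => q.1))], p, ?_, fun x => ?_⟩
  · refine polyTime_of_poly (Poly.optCases (g := fun _ => false)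
      (h := fun y a => R (a, ((unpair y).2.zipIdx.filter
        (fun q => decide (q.2 < half (unpair y).2))).map (fun q => q.1),
        ((unpair y).2.zipIdx.filter (fun q => !decide (q.2 < half (unpair y).2))).map
          (fun q => q.1))) (poly_unbits.comp (Poly.fst poly_unpair)) (Poly.const _) ?_)
    have h2 : Poly (fun q : List Bool × α => (unpair q.1).2) :=
      (Poly.snd poly_unpair).comp (Poly.fst Poly.id)
    exact hR.comp (Poly.pair (Poly.snd Poly.id) (Poly.pair (htake.comp h2) (hdrop.comp h2)))
  · rw [mem_lang_iff]
    cases hx : unbits α x with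
    | none =>
      simp only [reduceCtorEq, false_and, exists_false, false_iff]
      rintro ⟨u, hu, hall⟩
      have := hall (List.replicate (p.eval x.length) false) (by simp)
      simp only [unpair_pairBits, hx] at this
      simp at this
    | some a =>
      simp only [Option.some.injEq, exists_eq_left']
      have e1 : sz a = x.length := by rw [← bits_length, bits_of_unbits hx]
      rw [h a, e1]
      refine exists_congr fun u => and_congr_right fun hu => forall_congr' fun v =>
        imp_congr_right fun hv => ?_
      simp only [unpair_pairBits, hx, (split u v (hu.trans hv.symm)).1,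
        (split u v (hu.trans hv.symm)).2, List.cons.injEq, and_true]

end Pool.Agent.NPC.S2
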